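import Pool.Agent.MZ.T3Comb

/-!
# MZ-18: chordal graphs without separating cliques of size at most two
-/

open scoped Classical
open Finset

namespace MZ

variable {V : Type} [Fintype V]

omit [Fintype V] in
/-- a shortest walk inside a set is an induced path -/
private lemma exists_induced_walk {G : SimpleGraph V} (S : Set V) {x y : V} (p0 : G.Walk x y)
    (h0 : ∀ z ∈ p0.support, z ∈ S) :
    ∃ p : G.Walk x y, p.IsPath ∧ (∀ z ∈ p.support, z ∈ S) ∧
      ∀ u ∈ p.support, ∀ v ∈ p.support, G.Adj u v → s(u, v) ∈ p.edges := by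
  have hex : ∃ n, ∃ p : G.Walk x y, p.length = n ∧ ∀ z ∈ p.support, z ∈ S :=
    ⟨_, p0, rfl, h0⟩
  obtain ⟨q, hq, hqS⟩ := Nat.find_spec hex
  have hmin : ∀ p : G.Walk x y, (∀ z ∈ p.support, z ∈ S) → q.length ≤ p.length := by
    intro p hp
    rw [hq]
    exact Nat.find_min' hex ⟨p, rfl, hp⟩
  have hbS : ∀ z ∈ q.bypass.support, z ∈ S := fun z hz =>
    hqS z (q.support_bypass_subset_support hz)
  refine ⟨q.bypass, q.bypass_isPath, hbS, ?_⟩
  have hmin' : ∀ p : G.Walk x y, (∀ z ∈ p.support, z ∈ S) → q.bypass.length ≤ p.length :=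
    fun p hp => q.length_bypass_le_length.trans (hmin p hp)
  generalize q.bypass = p at hbS hmin'
  -- the ordered version
  have key : ∀ i j, i ≤ j → j ≤ p.length → G.Adj (p.getVert i) (p.getVert j) →
      s(p.getVert i, p.getVert j) ∈ p.edges := by
    intro i j hij hj hadj
    rcases Nat.lt_or_ge (i + 1) j with h | h
    · exfalso
      have := hmin' ((p.take i).append (SimpleGraph.Walk.cons hadj (p.drop j))) (by
        intro z hz
        rw [SimpleGraph.Walk.mem_support_append_iff] at hz
        rcases hz with hz | hz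
        · exact hbS z ((p.isSubwalk_take i).support_subset hz)
        · rw [SimpleGraph.Walk.support_cons, List.mem_cons] at hz
          rcases hz with hz | hz
          · rw [hz]
            exact hbS _ (p.getVert_mem_support i)
          · exact hbS z ((p.isSubwalk_drop j).support_subset hz))
      rw [SimpleGraph.Walk.length_append, SimpleGraph.Walk.length_cons,
        SimpleGraph.Walk.take_length, SimpleGraph.Walk.drop_length] at this
      have h2 : i ⊓ p.length ≤ i := min_le_left _ _
      omega
    · rcases Nat.eq_or_lt_of_le hij with h' | h'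
      · subst h'
        exact absurd hadj (G.loopless.irrefl _)
      · have : j = i + 1 := by omega
        subst this
        exact (SimpleGraph.Walk.mk_mem_edges_iff_exists p).2 ⟨i, by omega, rfl⟩
  intro u hu v hv huv
  rw [SimpleGraph.Walk.mem_support_iff_exists_getVert] at hu hv
  obtain ⟨i, rfl, hi⟩ := hu
  obtain ⟨j, rfl, hj⟩ := hv
  rcases le_total i j with h | h
  · exact key i j h hj huv
  · rw [Sym2.eq_swap]
    exact key j i h hi huv.symm

omit [Fintype V] in
/-- two nonadjacent vertices with a common neighbour `b` and joined by a walk avoiding `b` and its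
other neighbours -/
private lemma not_chordal_aux {G : SimpleGraph V} (hG : Chordal G) {b x y : V} (hbx : G.Adj b x)
    (hby : G.Adj b y) (hxy : x ≠ y) (hn : ¬ G.Adj x y) (S : Set V) (p0 : G.Walk x y)
    (h0 : ∀ z ∈ p0.support, z ∈ S) (hbS : b ∉ S)
    (hS : ∀ z ∈ S, G.Adj b z → z = x ∨ z = y) : False := by
  obtain ⟨p, hp, hpS, hpe⟩ := exists_induced_walk S p0 h0
  have hbp : b ∉ p.support := fun h => hbS (hpS b h)
  have hp' : (p.concat hby.symm).IsPath := hp.concat hbp hby.symm
  have hbe : s(b, x) ∉ (p.concat hby.symm).edges := by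
    rw [SimpleGraph.Walk.edges_concat, List.concat_eq_append, List.mem_append, List.mem_singleton]
    rintro (h | h)
    · exact hbp (SimpleGraph.Walk.fst_mem_support_of_mem_edges p h)
    · rw [Sym2.eq_iff] at h
      rcases h with ⟨h1, _⟩ | ⟨_, h2⟩
      · exact hby.ne h1
      · exact hxy h2
  have hc : (SimpleGraph.Walk.cons hbx (p.concat hby.symm)).IsCycle :=
    (SimpleGraph.Walk.cons_isCycle_iff _ _).2 ⟨hp', hbe⟩
  have hlen : 2 ≤ p.length := by
    by_contra h
    have h1 : p.length = 0 ∨ p.length = 1 := by omega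
    rcases h1 with h1 | h1
    · exact hxy (SimpleGraph.Walk.eq_of_length_eq_zero h1)
    · exact hn (SimpleGraph.Walk.adj_of_length_eq_one h1)
  obtain ⟨u, hu, v, hv, huv, hne⟩ := hG b _ hc (by
    rw [SimpleGraph.Walk.length_cons, SimpleGraph.Walk.length_concat]
    omega)
  have hmem : ∀ e, e ∈ (SimpleGraph.Walk.cons hbx (p.concat hby.symm)).edges ↔
      e = s(b, x) ∨ e ∈ p.edges ∨ e = s(y, b) := by
    intro e
    rw [SimpleGraph.Walk.edges_cons, SimpleGraph.Walk.edges_concat, List.mem_cons,
      List.concat_eq_append, List.mem_append, List.mem_singleton]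
  have hsup : ∀ z, z ∈ (SimpleGraph.Walk.cons hbx (p.concat hby.symm)).support →
      z = b ∨ z ∈ p.support := by
    intro z hz
    rw [SimpleGraph.Walk.support_cons, SimpleGraph.Walk.support_concat, List.mem_cons,
      List.mem_append, List.mem_singleton] at hz
    tauto
  have hb : ∀ z ∈ p.support, G.Adj b z →
      s(b, z) ∈ (SimpleGraph.Walk.cons hbx (p.concat hby.symm)).edges := by
    intro z hz hbz
    rw [hmem]
    rcases hS z (hpS z hz) hbz with rfl | rfl
    · exact Or.inl rfl
    · exact Or.inr (Or.inr Sym2.eq_swap)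
  apply hne
  rcases hsup u hu with rfl | hu'
  · rcases hsup v hv with rfl | hv'
    · exact absurd huv (G.loopless.irrefl _)
    · exact hb v hv' huv
  · rcases hsup v hv with rfl | hv'
    · rw [Sym2.eq_swap]
      exact hb u hu' huv.symm
    · rw [hmem]
      exact Or.inr (Or.inl (hpe u hu' v hv' huv))

/-- Dirac's theorem, in every induced subgraph. (Strong induction on `W.card`: if `G[W]` is not
complete, take a connected set `A ⊆ W` of maximal size such that not every vertex of `W` is in `A`
or adjacent to `A`; the neighbours of `A` in `W` form a clique and are adjacent to all remaining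
vertices.) -/
theorem exists_simplicial {G : SimpleGraph V} (hG : Chordal G) (W : Finset V)
    (hW : W.Nonempty) : ∃ v ∈ W, G.IsClique ((W.filter (fun w => G.Adj v w) : Finset V) : Set V) := by
  induction W using Finset.strongInduction with
  | H W ih =>
  by_cases hcomp : ∀ v ∈ W, ∀ w ∈ W, v ≠ w → G.Adj v w
  · obtain ⟨v, hv⟩ := hW
    refine ⟨v, hv, ?_⟩
    intro a ha b hb hab
    exact hcomp a (Finset.mem_filter.1 ha).1 b (Finset.mem_filter.1 hb).1 hab
  push Not at hcomp
  obtain ⟨v0, hv0, w0, hw0, hne0, hna0⟩ := hcomp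
  -- connected sets whose closed neighbourhood is not everything
  set F : Finset (Finset V) := W.powerset.filter (fun A =>
    A.Nonempty ∧ (∀ x ∈ A, ∀ y ∈ A, ∃ p : G.Walk x y, ∀ z ∈ p.support, z ∈ A) ∧
      ∃ b ∈ W, b ∉ A ∧ ∀ a ∈ A, ¬ G.Adj a b) with hF
  have hFne : F.Nonempty := by
    refine ⟨{v0}, ?_⟩
    rw [hF, Finset.mem_filter, Finset.mem_powerset]
    refine ⟨Finset.singleton_subset_iff.2 hv0, Finset.singleton_nonempty v0, ?_, w0, hw0, ?_, ?_⟩
    · intro x hx y hy
      rw [Finset.mem_singleton] at hx hy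
      subst hx
      subst hy
      exact ⟨SimpleGraph.Walk.nil, fun z hz => by simpa using hz⟩
    · rw [Finset.mem_singleton]
      exact hne0.symm
    · intro a ha
      rw [Finset.mem_singleton] at ha
      rw [ha]
      exact hna0
  obtain ⟨A, hAF, hAmax⟩ := Finset.exists_max_image F Finset.card hFne
  have hAF' := hAF
  rw [hF, Finset.mem_filter, Finset.mem_powerset] at hAF'
  obtain ⟨hAW, ⟨a0, ha0⟩, hconn, b0, hb0W, hb0A, hb0⟩ := hAF'
  set B : Finset V := W.filter (fun b => b ∉ A ∧ ∀ a ∈ A, ¬ G.Adj a b) with hB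
  set N : Finset V := W.filter (fun u => u ∉ A ∧ ∃ a ∈ A, G.Adj a u) with hN
  have hBss : B ⊂ W := by
    refine ⟨Finset.filter_subset _ _, fun h => ?_⟩
    have := h (hAW ha0)
    rw [hB, Finset.mem_filter] at this
    exact this.2.1 ha0
  have hBne : B.Nonempty := ⟨b0, Finset.mem_filter.2 ⟨hb0W, hb0A, hb0⟩⟩
  -- every vertex of `N` is adjacent to every vertex of `B`
  have hNB : ∀ u ∈ N, ∀ b ∈ B, G.Adj u b := by
    intro u hu b hb
    obtain ⟨huW, huA, a1, ha1, ha1u⟩ := Finset.mem_filter.1 hu
    obtain ⟨hbW, hbA, hbn⟩ := Finset.mem_filter.1 hb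
    by_contra hub
    have hmem : insert u A ∈ F := by
      rw [hF, Finset.mem_filter, Finset.mem_powerset]
      refine ⟨Finset.insert_subset huW hAW, Finset.insert_nonempty u A, ?_, b, hbW, ?_, ?_⟩
      · have hu1 : ∀ y ∈ A, ∃ p : G.Walk u y, ∀ z ∈ p.support, z ∈ insert u A := by
          intro y hy
          obtain ⟨p, hp⟩ := hconn a1 ha1 y hy
          refine ⟨SimpleGraph.Walk.cons ha1u.symm p, ?_⟩
          intro z hz
          rw [SimpleGraph.Walk.support_cons, List.mem_cons] at hz
          rcases hz with rfl | hz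
          · exact Finset.mem_insert_self _ _
          · exact Finset.mem_insert_of_mem (hp z hz)
        intro x hx y hy
        rw [Finset.mem_insert] at hx hy
        rcases hx with rfl | hx
        · rcases hy with rfl | hy
          · refine ⟨SimpleGraph.Walk.nil, fun z hz => ?_⟩
            rw [SimpleGraph.Walk.support_nil, List.mem_singleton] at hz
            rw [hz]
            exact Finset.mem_insert_self _ _
          · exact hu1 y hy
        · rcases hy with rfl | hy
          · obtain ⟨p, hp⟩ := hu1 x hx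
            refine ⟨p.reverse, fun z hz => hp z ?_⟩
            rw [SimpleGraph.Walk.support_reverse, List.mem_reverse] at hz
            exact hz
          · obtain ⟨p, hp⟩ := hconn x hx y hy
            exact ⟨p, fun z hz => Finset.mem_insert_of_mem (hp z hz)⟩
      · rw [Finset.mem_insert]
        rintro (h | h)
        · subst h
          exact hbn a1 ha1 ha1u
        · exact hbA h
      · intro a ha
        rw [Finset.mem_insert] at ha
        rcases ha with rfl | ha
        · exact hub
        · exact hbn a ha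
    have := hAmax _ hmem
    rw [Finset.card_insert_of_notMem huA] at this
    omega
  -- `N` is a clique
  have hNcl : ∀ x ∈ N, ∀ y ∈ N, x ≠ y → G.Adj x y := by
    intro x hx y hy hxy
    by_contra hn
    have hb0B : b0 ∈ B := Finset.mem_filter.2 ⟨hb0W, hb0A, hb0⟩
    obtain ⟨hxW, hxA, a1, ha1, ha1x⟩ := Finset.mem_filter.1 hx
    obtain ⟨hyW, hyA, a2, ha2, ha2y⟩ := Finset.mem_filter.1 hy
    obtain ⟨p, hp⟩ := hconn a1 ha1 a2 ha2
    refine not_chordal_aux hG (hNB x hx b0 hb0B).symm (hNB y hy b0 hb0B).symm hxy hn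
      {z | z ∈ A ∨ z = x ∨ z = y} (SimpleGraph.Walk.cons ha1x.symm (p.concat ha2y)) ?_ ?_ ?_
    · intro z hz
      rw [SimpleGraph.Walk.support_cons, SimpleGraph.Walk.support_concat, List.mem_cons,
        List.mem_append, List.mem_singleton] at hz
      rcases hz with hz | hz | hz
      · exact Or.inr (Or.inl hz)
      · exact Or.inl (hp z hz)
      · exact Or.inr (Or.inr hz)
    · rintro (h | h | h)
      · exact hb0A h
      · exact (hNB x hx b0 hb0B).ne h.symm
      · exact (hNB y hy b0 hb0B).ne h.symm
    · rintro z (h | h | h) hz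
      · exact absurd hz.symm (hb0 z h)
      · exact Or.inl h
      · exact Or.inr h
  obtain ⟨v, hv, hvcl⟩ := ih B hBss hBne
  obtain ⟨hvW, hvA, hvn⟩ := Finset.mem_filter.1 hv
  refine ⟨v, hvW, ?_⟩
  have hsplit : ∀ w ∈ W, G.Adj v w → (w ∈ N ∨ w ∈ B) := by
    intro w hw hvw
    have hwA : w ∉ A := fun h => hvn w h hvw.symm
    by_cases h : ∃ a ∈ A, G.Adj a w
    · exact Or.inl (Finset.mem_filter.2 ⟨hw, hwA, h⟩)
    · push Not at h
      exact Or.inr (Finset.mem_filter.2 ⟨hw, hwA, h⟩)
  intro x hx y hy hxy
  obtain ⟨hxW, hvx⟩ := Finset.mem_filter.1 hx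
  obtain ⟨hyW, hvy⟩ := Finset.mem_filter.1 hy
  rcases hsplit x hxW hvx with hxN | hxB
  · rcases hsplit y hyW hvy with hyN | hyB
    · exact hNcl x hxN y hyN hxy
    · exact hNB x hxN y hyB
  · rcases hsplit y hyW hvy with hyN | hyB
    · exact (hNB y hyN x hxB).symm
    · exact hvcl (Finset.mem_coe.2 (Finset.mem_filter.2 ⟨hxB, hvx⟩))
        (Finset.mem_coe.2 (Finset.mem_filter.2 ⟨hyB, hvy⟩)) hxy

end MZ
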