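import Pool.Agent.MZ.T3Con

/-!
# MZ-19b: components of a 3-tree minus a triangle
-/

open scoped Classical
open Finset

namespace MZ

variable {V : Type} [Fintype V]

private theorem exists_col {H : SimpleGraph V} {W : Finset V} (hW : IsTree3 H W) :
    ∀ T : Finset V, T ⊆ W → H.IsNClique 3 T → ∃ f : V → V,
      (∀ u w, u ∈ W → u ∉ T → w ∈ W → w ∉ T → H.Adj u w → f u = f w) ∧
      (∀ v ∈ W, (∀ t ∈ T, H.Adj v t) → f v = v) := by
  induction hW with
  | base s hs =>
    intro T hT hT3
    have hc : (s \ T).card = 1 := by
      rw [Finset.card_sdiff_of_subset hT, hs.card_eq, hT3.card_eq]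
    obtain ⟨x, hx⟩ := Finset.card_eq_one.mp hc
    refine ⟨id, ?_, fun v _ _ => rfl⟩
    intro u w hu huT hw hwT _
    have h1 : u ∈ s \ T := Finset.mem_sdiff.mpr ⟨hu, huT⟩
    have h2 : w ∈ s \ T := Finset.mem_sdiff.mpr ⟨hw, hwT⟩
    rw [hx, Finset.mem_singleton] at h1 h2
    simp [h1, h2]
  | step W T₀ v hW hT₀ hT₀3 hv hadj ih =>
    intro T hT hT3
    by_cases hvT : v ∈ T
    · -- the new vertex is in the triangle
      have hsub : T.erase v ⊆ T₀ := by
        intro t ht
        have ht' := Finset.mem_erase.mp ht
        have htW : t ∈ W := by
          rcases Finset.mem_insert.mp (hT ht'.2) with h | h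
          · exact absurd h ht'.1
          · exact h
        exact (hadj t htW).mp (hT3.isClique hvT ht'.2 (Ne.symm ht'.1))
      have hc : (T₀ \ T.erase v).card = 1 := by
        rw [Finset.card_sdiff_of_subset hsub, hT₀3.card_eq, Finset.card_erase_of_mem hvT,
          hT3.card_eq]
      obtain ⟨c, hc⟩ := Finset.card_eq_one.mp hc
      refine ⟨fun _ => c, fun _ _ _ _ _ _ _ => rfl, ?_⟩
      intro u hu hut
      have hvu : H.Adj v u := (hut v hvT).symm
      have huW : u ∈ W := by
        rcases Finset.mem_insert.mp hu with h | h
        · exact absurd h.symm hvu.ne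
        · exact h
      have hu0 : u ∈ T₀ := (hadj u huW).mp hvu
      have huT : u ∉ T.erase v := by
        intro h
        exact (hut u (Finset.mem_of_mem_erase h)).ne rfl
      have : u ∈ T₀ \ T.erase v := Finset.mem_sdiff.mpr ⟨hu0, huT⟩
      rw [hc, Finset.mem_singleton] at this
      exact this.symm
    · -- the new vertex is not in the triangle
      have hTW : T ⊆ W := by
        intro t ht
        rcases Finset.mem_insert.mp (hT ht) with h | h
        · exact absurd (h ▸ ht) hvT
        · exact h
      obtain ⟨f, hf1, hf2⟩ := ih T hTW hT3
      by_cases hTT : T₀ ⊆ T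
      · refine ⟨fun u => if u = v then v else f u, ?_, ?_⟩
        · intro u w hu huT hw hwT huw
          by_cases h1 : u = v
          · subst h1
            have hwW : w ∈ W := by
              rcases Finset.mem_insert.mp hw with h | h
              · exact absurd h.symm huw.ne
              · exact h
            exact absurd (hTT ((hadj w hwW).mp huw)) hwT
          · by_cases h2 : w = v
            · subst h2
              have huW : u ∈ W := by
                rcases Finset.mem_insert.mp hu with h | h
                · exact absurd h huw.ne
                · exact h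
              exact absurd (hTT ((hadj u huW).mp huw.symm)) huT
            · simp only [h1, h2, if_false]
              exact hf1 u w (Finset.mem_of_mem_insert_of_ne hu h1) huT
                (Finset.mem_of_mem_insert_of_ne hw h2) hwT huw
        · intro u hu hut
          by_cases h1 : u = v
          · simp [h1]
          · simp only [h1, if_false]
            exact hf2 u (Finset.mem_of_mem_insert_of_ne hu h1) hut
      · obtain ⟨t, ht0, htT⟩ := Finset.not_subset.mp hTT
        have key : ∀ w ∈ W, w ∉ T → H.Adj v w → f t = f w := by
          intro w hw hwT hvw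
          have hw0 : w ∈ T₀ := (hadj w hw).mp hvw
          by_cases htw : t = w
          · rw [htw]
          · exact hf1 t w (hT₀ ht0) htT hw hwT (hT₀3.isClique ht0 hw0 htw)
        refine ⟨fun u => if u = v then f t else f u, ?_, ?_⟩
        · intro u w hu huT hw hwT huw
          by_cases h1 : u = v
          · subst h1
            have hne : w ≠ u := huw.ne.symm
            simp only [hne, if_true, if_false]
            exact key w (Finset.mem_of_mem_insert_of_ne hw hne) hwT huw
          · by_cases h2 : w = v
            · subst h2
              simp only [h1, if_true, if_false]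
              exact (key u (Finset.mem_of_mem_insert_of_ne hu h1) huT huw.symm).symm
            · simp only [h1, h2, if_false]
              exact hf1 u w (Finset.mem_of_mem_insert_of_ne hu h1) huT
                (Finset.mem_of_mem_insert_of_ne hw h2) hwT huw
        · intro u hu hut
          by_cases h1 : u = v
          · exfalso
            subst h1
            have hsub : T ⊆ T₀ := fun s hs => (hadj s (hTW hs)).mp (hut s hs)
            have : T = T₀ := Finset.eq_of_subset_of_card_le hsub
              (by rw [hT₀3.card_eq, hT3.card_eq])
            exact htT (this ▸ ht0)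
          · simp only [h1, if_false]
            exact hf2 u (Finset.mem_of_mem_insert_of_ne hu h1) hut

/-- In a 3-tree the vertices adjacent to all of a triangle `T` lie in different components of
`W \ T`: by induction on the 3-tree there is a map from `W \ T` to these vertices, constant on
edges, and the identity on these vertices. -/
theorem comps_tree3 {H : SimpleGraph V} {W : Finset V} (hW : IsTree3 H W) {T : Finset V}
    (hT : T ∈ Ks 3 H W) :
    (W.filter (fun v => ∀ t ∈ T, H.Adj v t)).card ≤ comps H (W \ T) := by
  unfold Ks at hT
  rw [Finset.mem_filter, Finset.mem_powerset] at hT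
  obtain ⟨f, hf1, hf2⟩ := exists_col hW T hT.1 hT.2
  unfold comps
  set G := H.induce ((W \ T : Finset V) : Set V) with hG
  have hmem : ∀ x : ((W \ T : Finset V) : Set V), (x : V) ∈ W ∧ (x : V) ∉ T := by
    intro x
    have := x.2
    rw [Finset.mem_coe, Finset.mem_sdiff] at this
    exact this
  let g : G.ConnectedComponent → V := SimpleGraph.ConnectedComponent.lift
    (fun x => f x) (by
      intro x y p _
      induction p with
      | nil => rfl
      | cons h p ih =>
        rename_i hp
        rw [← ih ((SimpleGraph.Walk.cons_isPath_iff _ _).mp hp).1]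
        exact hf1 _ _ (hmem _).1 (hmem _).2 (hmem _).1 (hmem _).2 h)
  have hsurj : ∀ v : {v // v ∈ W.filter (fun v => ∀ t ∈ T, H.Adj v t)},
      ∃ c : G.ConnectedComponent, g c = v := by
    rintro ⟨v, hv⟩
    rw [Finset.mem_filter] at hv
    have hvT : v ∉ T := fun h => (hv.2 v h).ne rfl
    refine ⟨G.connectedComponentMk ⟨v, by
      rw [Finset.mem_coe, Finset.mem_sdiff]; exact ⟨hv.1, hvT⟩⟩, ?_⟩
    exact hf2 v hv.1 hv.2
  choose c hc using hsurj
  have hinj : Function.Injective c := by
    intro x y hxy
    apply Subtype.ext
    rw [← hc x, ← hc y, hxy]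
  have h1 := Nat.card_le_card_of_injective c hinj
  rw [Nat.card_eq_fintype_card, Fintype.card_coe] at h1
  exact h1

end MZ
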