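import Pool.Agent.MZ.T3Con

/-!
# MZ-19c: chordal graphs without small clique separators
-/

open scoped Classical
open Finset

namespace MZ

variable {V : Type} [Fintype V]

/-- If every nonempty vertex set has a simplicial vertex, there is no clique with five vertices,
`W` has at least four vertices and no clique with at most two vertices separates `W`, then `G`
induces a 3-tree on `W`. Induction on `W.card`: the simplicial vertex `v` has exactly three
neighbours in `W` (fewer: its neighbourhood would separate it from the rest), and
`W.erase v` has the same property. -/
theorem tree3_of_noSep {G : SimpleGraph V} (hs : ∀ W : Finset V, W.Nonempty →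
      ∃ v ∈ W, G.IsClique ((W.filter (fun w => G.Adj v w) : Finset V) : Set V))
    (h5 : G.CliqueFree 5) (W : Finset V) (h4 : 4 ≤ W.card)
    (hsep : ∀ X ⊆ W, G.IsClique (X : Set V) → X.card ≤ 2 → ∀ A B : Finset V, A.Nonempty →
      B.Nonempty → Disjoint A B → A ∪ B = W \ X → ∃ a ∈ A, ∃ b ∈ B, G.Adj a b) :
    IsTree3 G W := by
  induction hn : W.card using Nat.strong_induction_on generalizing W with
  | _ n ih =>
    have hne : W.Nonempty := Finset.card_pos.1 (by omega)
    obtain ⟨v, hv, hcl⟩ := hs W hne
    set N : Finset V := W.filter (fun w => G.Adj v w) with hN
    have hNW : N ⊆ W := Finset.filter_subset _ _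
    have hvN : v ∉ N := by
      intro h
      exact G.loopless.irrefl v ((Finset.mem_filter.1 h).2)
    have hins : G.IsClique ((insert v N : Finset V) : Set V) := by
      rw [Finset.coe_insert]
      refine hcl.insert ?_
      intro b hb _
      exact (Finset.mem_filter.1 (Finset.mem_coe.1 hb)).2
    have hcard : (insert v N).card = N.card + 1 := Finset.card_insert_of_notMem hvN
    -- at most three neighbours
    have hle : N.card ≤ 3 := by
      by_contra hcon
      push Not at hcon
      obtain ⟨t, ht, htc⟩ := Finset.exists_subset_card_eq (s := insert v N) (n := 5) (by omega)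
      exact h5 t ⟨hins.subset (by exact_mod_cast ht), htc⟩
    -- at least three neighbours
    have hge : 3 ≤ N.card := by
      by_contra hcon
      push Not at hcon
      have hB : ((W \ N) \ {v}).Nonempty := by
        rw [← Finset.card_pos]
        have h1 : W.card - N.card ≤ (W \ N).card := Finset.le_card_sdiff N W
        have h2 : (W \ N).card - ({v} : Finset V).card ≤ ((W \ N) \ {v}).card :=
          Finset.le_card_sdiff _ _
        rw [Finset.card_singleton] at h2
        omega
      obtain ⟨a, ha, b, hb, hab⟩ := hsep N hNW hcl (by omega) {v} ((W \ N) \ {v})
        (Finset.singleton_nonempty v) hB Finset.disjoint_sdiff (by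
          ext x
          simp only [Finset.mem_union, Finset.mem_singleton, Finset.mem_sdiff]
          constructor
          · rintro (rfl | h)
            · exact ⟨hv, hvN⟩
            · exact h.1
          · intro h
            by_cases hx : x = v
            · exact Or.inl hx
            · exact Or.inr ⟨h, hx⟩)
      rw [Finset.mem_singleton] at ha
      subst ha
      simp only [Finset.mem_sdiff, Finset.mem_singleton] at hb
      exact hb.1.2 (Finset.mem_filter.2 ⟨hb.1.1, hab⟩)
    have hN3 : N.card = 3 := le_antisymm hle hge
    by_cases hW4 : W.card = 4
    · have hWeq : insert v N = W := by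
        apply Finset.eq_of_subset_of_card_le
        · exact Finset.insert_subset hv hNW
        · omega
      rw [← hWeq]
      exact IsTree3.base _ ⟨hins, by omega⟩
    · have hEc : (W.erase v).card = W.card - 1 := Finset.card_erase_of_mem hv
      have hNE : N ⊆ W.erase v := by
        intro x hx
        refine Finset.mem_erase.2 ⟨?_, hNW hx⟩
        rintro rfl
        exact hvN hx
      have key : IsTree3 G (W.erase v) := by
        refine ih (W.erase v).card (by omega) (W.erase v) (by omega) ?_ rfl
        intro X hX hXc hX2 A B hA hB hAB hU
        have hvX : v ∉ X := fun h => (Finset.mem_erase.1 (hX h)).1 rfl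
        have hXW : X ⊆ W := hX.trans (Finset.erase_subset _ _)
        have hvU : v ∉ A ∪ B := by
          rw [hU]
          intro h
          exact (Finset.mem_erase.1 (Finset.mem_sdiff.1 h).1).1 rfl
        have hvA : v ∉ A := fun h => hvU (Finset.mem_union_left _ h)
        have hvB : v ∉ B := fun h => hvU (Finset.mem_union_right _ h)
        have hNU : ∀ x ∈ N, x ∉ X → x ∈ A ∪ B := by
          intro x hx hxX
          rw [hU]
          exact Finset.mem_sdiff.2 ⟨hNE hx, hxX⟩
        have hUW : insert v (A ∪ B) = W \ X := by
          rw [hU]
          ext x
          simp only [Finset.mem_insert, Finset.mem_sdiff, Finset.mem_erase]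
          constructor
          · rintro (rfl | h)
            · exact ⟨hv, hvX⟩
            · exact ⟨h.1.2, h.2⟩
          · intro h
            by_cases hx : x = v
            · exact Or.inl hx
            · exact Or.inr ⟨⟨hx, h.1⟩, h.2⟩
        by_cases h1 : ∃ a ∈ N, a ∈ A
        · by_cases h2 : ∃ b ∈ N, b ∈ B
          · obtain ⟨a, haN, haA⟩ := h1
            obtain ⟨b, hbN, hbB⟩ := h2
            refine ⟨a, haA, b, hbB, hcl (Finset.mem_coe.2 haN) (Finset.mem_coe.2 hbN) ?_⟩
            rintro rfl
            exact Finset.disjoint_left.1 hAB haA hbB
          · push Not at h2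
            obtain ⟨a, ha, b, hb, hab⟩ := hsep X hXW hXc hX2 (insert v A) B
              (Finset.insert_nonempty v A) hB
              (Finset.disjoint_insert_left.2 ⟨hvB, hAB⟩)
              (by rw [Finset.insert_union, hUW])
            rcases Finset.mem_insert.1 ha with rfl | ha'
            · exfalso
              have hbW : b ∈ W \ X := by
                rw [← hUW]
                exact Finset.mem_insert_of_mem (Finset.mem_union_right _ hb)
              exact h2 b (Finset.mem_filter.2 ⟨(Finset.mem_sdiff.1 hbW).1, hab⟩) hb
            · exact ⟨a, ha', b, hb, hab⟩
        · push Not at h1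
          obtain ⟨a, ha, b, hb, hab⟩ := hsep X hXW hXc hX2 A (insert v B) hA
            (Finset.insert_nonempty v B)
            (Finset.disjoint_insert_right.2 ⟨hvA, hAB⟩)
            (by rw [Finset.union_insert, hUW])
          rcases Finset.mem_insert.1 hb with rfl | hb'
          · exfalso
            have haW : a ∈ W \ X := by
              rw [← hUW]
              exact Finset.mem_insert_of_mem (Finset.mem_union_left _ ha)
            exact h1 a (Finset.mem_filter.2 ⟨(Finset.mem_sdiff.1 haW).1, hab.symm⟩) ha
          · exact ⟨a, ha, b, hb', hab⟩
      have hstep := IsTree3.step (H := G) (W.erase v) N v key hNE ⟨hcl, hN3⟩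
        (Finset.notMem_erase v W) (by
          intro w hw
          constructor
          · intro h
            exact Finset.mem_filter.2 ⟨(Finset.mem_erase.1 hw).2, h⟩
          · intro h
            exact (Finset.mem_filter.1 h).2)
      rwa [Finset.insert_erase hv] at hstep

end MZ
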