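import Pool.Agent.MZ.ChA
import Pool.Agent.MZ.ChB
import Pool.Agent.MZ.ChC

/-!
# MZ-19d: the counting condition gives a thin 3-tree
-/

open scoped Classical
open Finset

namespace MZ

variable {V : Type} [Fintype V]

/-- the counting condition gives a thin 3-tree -/
theorem thin_tree3 {G : SimpleGraph V} (hs : ∀ W : Finset V, W.Nonempty →
      ∃ v ∈ W, G.IsClique ((W.filter (fun w => G.Adj v w) : Finset V) : Set V))
    (h5 : G.CliqueFree 5) (W : Finset V) (h4 : 4 ≤ W.card)
    (hc : ∀ X ⊆ W, comps G (W \ X) + numCl G X ≤ numFl G X + 1) :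
    IsTree3 G W ∧ Thin G W := by
  have h3 : IsTree3 G W := by
    apply tree3_of_noSep hs h5 W h4
    intro X hXW hX hX2 A B hA hB hAB hu
    by_contra hcon
    push Not at hcon
    have h1 := two_le_comps hA hB hAB hcon
    rw [hu] at h1
    have h2 := hc X hXW
    rw [numFl_of_small hX hX2] at h2
    omega
  refine ⟨h3, ?_⟩
  intro T hTW hT
  have hTK : T ∈ Ks 3 G W := by
    unfold Ks
    rw [Finset.mem_filter, Finset.mem_powerset]
    exact ⟨hTW, hT⟩
  have h1 := comps_tree3 h3 hTK
  have h2 := hc T hTW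
  rw [numFl_triangle hT] at h2
  omega

end MZ
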