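import Pool.Agent.MZ.Lov

/-!
# MZ-8a: upper bound for the dimension
-/

open scoped Pointwise Classical
open Finset Matrix

namespace MZ

variable {V : Type} [Fintype V]

private theorem fQ_insert_aux {G : SimpleGraph V} {Q : Set (V → ℝ)} (hQ : IsDeformation (Z G) Q)
    {i : V} (hi : i ∉ supV (fQ Q)) (S : Finset V) (hS : i ∉ S) :
    fQ Q (insert i S) = fQ Q {i} + fQ Q S := by
  have hC := fQ_inC hQ
  induction S using Finset.induction_on with
  | empty => simp [hC.empty]
  | insert j S hj ih =>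
    have hij : i ≠ j := fun h => hS (h ▸ Finset.mem_insert_self _ _)
    have hiS : i ∉ S := fun h => hS (Finset.mem_insert_of_mem h)
    have h0 : cv (fQ Q) i j S = 0 := by
      apply le_antisymm _ (hC.nonneg i j S hij hiS hj)
      by_contra hpos
      apply hi
      unfold supV
      rw [Finset.mem_filter]
      exact ⟨Finset.mem_univ _, j, S, hij, hiS, hj, not_le.1 hpos⟩
    have h1 := ih hiS
    unfold cv at h0
    linarith

private theorem sum_eq_aux {G : SimpleGraph V} {Q : Set (V → ℝ)} (hQ : IsDeformation (Z G) Q)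
    {x : V → ℝ} (hx : x ∈ Q) : ∑ i, x i = fQ Q Finset.univ := by
  have hP := hQ.1
  have h1 : sp Q (ind Finset.univ + -ind Finset.univ) =
      sp Q (ind Finset.univ) + sp Q (-ind Finset.univ) := by
    apply sp_add_of_compat hQ
    intro i j _ h
    have : (ind (Finset.univ : Finset V)) i = 1 := by simp [ind]
    have h' : (ind (Finset.univ : Finset V)) j = 1 := by simp [ind]
    rw [this, h'] at h
    exact lt_irrefl _ h.1
  have h2 : sp Q (ind Finset.univ + -ind Finset.univ) = 0 := by
    rw [add_neg_cancel]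
    have := sp_smul hP (le_refl (0 : ℝ)) (0 : V → ℝ)
    simpa using this
  have h3 := le_sp hP hx (ind Finset.univ)
  have h4 := le_sp hP hx (-ind Finset.univ)
  have h5 : (ind (Finset.univ : Finset V)) ⬝ᵥ x = ∑ i, x i := by
    simp [dotProduct, ind]
  have h6 : (-ind (Finset.univ : Finset V)) ⬝ᵥ x = -∑ i, x i := by
    rw [neg_dotProduct, h5]
  rw [h5] at h3
  rw [h6] at h4
  unfold fQ
  linarith

private theorem coord_eq_aux {G : SimpleGraph V} {Q : Set (V → ℝ)} (hQ : IsDeformation (Z G) Q)
    {i : V} (hi : i ∉ supV (fQ Q)) {x : V → ℝ} (hx : x ∈ Q) : x i = fQ Q {i} := by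
  have hP := hQ.1
  have h1 := sum_eq_aux hQ hx
  have h2 := fQ_insert_aux hQ hi (Finset.univ.erase i) (by simp)
  rw [Finset.insert_erase (Finset.mem_univ i)] at h2
  have h3 := le_sp hP hx (ind {i})
  have h4 := le_sp hP hx (ind (Finset.univ.erase i))
  have h5 : (ind ({i} : Finset V)) ⬝ᵥ x = x i := by
    simp [dotProduct, ind]
  have h6 : (ind (Finset.univ.erase i)) ⬝ᵥ x = ∑ j, x j - x i := by
    have : (ind (Finset.univ.erase i)) ⬝ᵥ x = ∑ j ∈ Finset.univ.erase i, x j := by
      simp only [dotProduct, ind, ite_mul, one_mul, zero_mul]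
      rw [← Finset.sum_filter]
      congr 1
      ext j
      simp
    rw [this, Finset.sum_erase_eq_sub (Finset.mem_univ i)]
  rw [h5] at h3
  rw [h6] at h4
  have e3 : sp Q (ind ({i} : Finset V)) = fQ Q {i} := rfl
  have e4 : sp Q (ind (Finset.univ.erase i)) = fQ Q (Finset.univ.erase i) := rfl
  rw [e3] at h3
  rw [e4] at h4
  linarith

/-- For `i ∉ supV`, `x i` is constant on `Q` (`= f {i}`: `x i ≤ f {i}` and
`x(V \ i) ≤ f (V \ i) = f V - f {i}`), and `x(V)` is constant. So the direction space is contained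
in the space of vectors supported on `supV` with coordinate sum zero. -/
theorem dim_le {G : SimpleGraph V} {Q : Set (V → ℝ)} (hQ : IsDeformation (Z G) Q)
    (hne : (supV (fQ Q)).Nonempty) :
    Module.finrank ℝ (vectorSpan ℝ Q) + 1 ≤ (supV (fQ Q)).card := by
  obtain ⟨i0, hi0⟩ := hne
  have key : ∀ x ∈ vectorSpan ℝ Q, (∀ i ∉ supV (fQ Q), x i = 0) ∧ ∑ i, x i = 0 := by
    intro x hx
    rw [vectorSpan_def] at hx
    induction hx using Submodule.span_induction with
    | mem y hy =>
      obtain ⟨a, ha, b, hb, rfl⟩ := Set.mem_vsub.1 hy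
      refine ⟨fun i hi => ?_, ?_⟩
      · rw [vsub_eq_sub, Pi.sub_apply, coord_eq_aux hQ hi ha, coord_eq_aux hQ hi hb, sub_self]
      · simp only [vsub_eq_sub, Pi.sub_apply]
        rw [Finset.sum_sub_distrib, sum_eq_aux hQ ha, sum_eq_aux hQ hb, sub_self]
    | zero => exact ⟨fun _ _ => rfl, by simp⟩
    | add y z _ _ hy hz =>
      refine ⟨fun i hi => ?_, ?_⟩
      · rw [Pi.add_apply, hy.1 i hi, hz.1 i hi, add_zero]
      · simp only [Pi.add_apply]
        rw [Finset.sum_add_distrib, hy.2, hz.2, add_zero]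
    | smul c y _ hy =>
      refine ⟨fun i hi => ?_, ?_⟩
      · rw [Pi.smul_apply, hy.1 i hi, smul_zero]
      · simp only [Pi.smul_apply]
        rw [← Finset.smul_sum, hy.2, smul_zero]
  let T : Finset V := (supV (fQ Q)).erase i0
  let L : (V → ℝ) →ₗ[ℝ] (T → ℝ) := LinearMap.funLeft ℝ ℝ Subtype.val
  have hinj : Function.Injective (L.domRestrict (vectorSpan ℝ Q)) := by
    rw [← LinearMap.ker_eq_bot, LinearMap.ker_eq_bot']
    rintro ⟨x, hx⟩ h
    obtain ⟨h1, h2⟩ := key x hx
    have h3 : ∀ j ∈ T, x j = 0 := by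
      intro j hj
      have := congrFun h ⟨j, hj⟩
      simpa [L, LinearMap.funLeft] using this
    have h4 : ∀ j, j ≠ i0 → x j = 0 := by
      intro j hj
      by_cases hjs : j ∈ supV (fQ Q)
      · exact h3 j (Finset.mem_erase.2 ⟨hj, hjs⟩)
      · exact h1 j hjs
    have h5 : x i0 = 0 := by
      rw [← h2]
      exact (Finset.sum_eq_single i0 (fun j _ hj => h4 j hj) (by simp)).symm
    apply Subtype.ext
    funext j
    by_cases hj : j = i0
    · rw [hj]; exact h5
    · exact h4 j hj
  have hle := LinearMap.finrank_le_finrank_of_injective hinj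
  rw [Module.finrank_fintype_fun_eq_card, Fintype.card_coe] at hle
  have hcard : T.card + 1 = (supV (fQ Q)).card := Finset.card_erase_add_one hi0
  omega

end MZ
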