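import Pool.Agent.MZ.Poly

/-!
# MZ-2: faces of the graphical zonotope
-/

open scoped Pointwise Classical
open Finset Matrix

namespace MZ

variable {V : Type} [Fintype V]

/-- Reformulation of the definition of a deformation. (→): `u` lies in the cone of the face
`face Q u`, hence in a cone `{v | face P w ⊆ face P v}` contained in it; `face P w ⊆ face P u ⊆
face P u'`. (←): for the cone of `face Q w` take all cones `{v | face P u ⊆ face P v}` with `u` in
the given cone. -/
theorem deform_iff {P Q : Set (V → ℝ)} :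
    IsDeformation P Q ↔ IsPolytope Q ∧
      ∀ u u', face P u ⊆ face P u' → face Q u ⊆ face Q u' := by
  constructor
  · rintro ⟨hQ, h⟩
    refine ⟨hQ, fun u u' huu' => ?_⟩
    obtain ⟨D, hD, hC⟩ := h {v | face Q u ⊆ face Q v} ⟨u, rfl⟩
    have hu : u ∈ ⋃₀ D := by
      rw [← hC]
      exact Set.Subset.rfl
    obtain ⟨c, hcD, huc⟩ := hu
    obtain ⟨w, rfl⟩ := hD hcD
    have hu' : u' ∈ ⋃₀ D := ⟨_, hcD, Set.Subset.trans huc huu'⟩
    rw [← hC] at hu'
    exact hu'
  · rintro ⟨hQ, h⟩
    refine ⟨hQ, ?_⟩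
    rintro C ⟨w, rfl⟩
    refine ⟨{c | ∃ u, face Q w ⊆ face Q u ∧ c = {v | face P u ⊆ face P v}}, ?_, ?_⟩
    · rintro c ⟨u, -, rfl⟩
      exact ⟨u, rfl⟩
    · ext v
      constructor
      · intro hv
        exact ⟨{v' | face P v ⊆ face P v'}, ⟨v, hv, rfl⟩, Set.Subset.rfl⟩
      · rintro ⟨c, ⟨u, hu, rfl⟩, hvc⟩
        exact Set.Subset.trans hu (h u v hvc)

private theorem dot_sum {ι : Type*} (E : Finset ι) (u : V → ℝ) (g : ι → V → ℝ) :
    u ⬝ᵥ (∑ s ∈ E, g s) = ∑ s ∈ E, u ⬝ᵥ g s := by
  unfold dotProduct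
  simp only [Finset.sum_apply, Finset.mul_sum]
  exact Finset.sum_comm

private theorem mem_face_sum {ι : Type*} (E : Finset ι) (A : ι → Set (V → ℝ)) (g : ι → V → ℝ)
    (hg : ∀ s ∈ E, g s ∈ A s) (u : V → ℝ) :
    ∑ s ∈ E, g s ∈ face (∑ s ∈ E, A s) u ↔ ∀ s ∈ E, g s ∈ face (A s) u := by
  constructor
  · rintro ⟨-, hmax⟩ s hs
    refine ⟨hg s hs, fun y hy => ?_⟩
    have h1 : ∑ t ∈ E, (Function.update g s y) t ∈ ∑ s ∈ E, A s := by
      rw [Set.mem_finsetSum]
      refine ⟨Function.update g s y, ?_, rfl⟩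
      intro t ht
      by_cases hts : t = s
      · subst hts
        simpa using hy
      · rw [Function.update_of_ne hts]
        exact hg t ht
    have h2 := hmax _ h1
    rw [dot_sum, dot_sum, ← Finset.add_sum_erase E _ hs, ← Finset.add_sum_erase E (fun s => u ⬝ᵥ g s) hs] at h2
    have h3 : ∑ t ∈ E.erase s, u ⬝ᵥ (Function.update g s y) t = ∑ t ∈ E.erase s, u ⬝ᵥ g t := by
      refine Finset.sum_congr rfl fun t ht => ?_
      rw [Function.update_of_ne (Finset.ne_of_mem_erase ht)]
    rw [h3, Function.update_self] at h2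
    linarith
  · intro h
    refine ⟨?_, ?_⟩
    · rw [Set.mem_finsetSum]
      exact ⟨g, fun {i} hi => hg i hi, rfl⟩
    · intro y hy
      rw [Set.mem_finsetSum] at hy
      obtain ⟨g', hg', rfl⟩ := hy
      rw [dot_sum, dot_sum]
      exact Finset.sum_le_sum fun s hs => (h s hs).2 _ (hg' hs)

omit [Fintype V] in
private theorem mem_seg {i j : V} {x : V → ℝ} : x ∈ seg s(i, j) ↔
    ∃ a b : ℝ, 0 ≤ a ∧ 0 ≤ b ∧ a + b = 1 ∧ a • Pi.single i (1 : ℝ) + b • Pi.single j (1 : ℝ) = x := by
  have h1 : {x : V → ℝ | ∃ k ∈ s(i, j), x = Pi.single k 1} =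
      {Pi.single i (1 : ℝ), Pi.single j (1 : ℝ)} := by
    ext x
    simp only [Set.mem_ofPred_eq, Sym2.mem_iff, Set.mem_insert_iff, Set.mem_singleton_iff]
    constructor
    · rintro ⟨k, rfl | rfl, rfl⟩
      · exact Or.inl rfl
      · exact Or.inr rfl
    · rintro (rfl | rfl)
      · exact ⟨i, Or.inl rfl, rfl⟩
      · exact ⟨j, Or.inr rfl, rfl⟩
  unfold seg
  rw [h1, convexHull_pair]
  rfl

private theorem dot_single (u : V → ℝ) (i : V) : u ⬝ᵥ Pi.single i (1 : ℝ) = u i := by
  simp

private theorem dot_comb (u : V → ℝ) (i j : V) (a b : ℝ) :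
    u ⬝ᵥ (a • Pi.single i (1 : ℝ) + b • Pi.single j (1 : ℝ)) = a * u i + b * u j := by
  rw [dotProduct_add, dotProduct_smul, dotProduct_smul, dot_single, dot_single, smul_eq_mul,
    smul_eq_mul]

private theorem single_mem_seg (i j : V) : Pi.single i (1 : ℝ) ∈ seg s(i, j) :=
  mem_seg.2 ⟨1, 0, zero_le_one, le_rfl, by norm_num, by simp⟩

private theorem single_mem_face {i j : V} {u : V → ℝ} (h : u j ≤ u i) :
    Pi.single i (1 : ℝ) ∈ face (seg s(i, j)) u := by
  refine ⟨single_mem_seg i j, fun y hy => ?_⟩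
  obtain ⟨a, b, ha, hb, hab, rfl⟩ := mem_seg.1 hy
  rw [dot_comb, dot_single]
  have h1 := mul_le_mul_of_nonneg_left h hb
  have h2 : a * u i + b * u i = u i := by rw [← add_mul, hab, one_mul]
  linarith

/-- faces of one segment -/
private theorem face_seg {i j : V} {u u' : V → ℝ} (h1 : u j ≤ u i → u' j ≤ u' i)
    (h2 : u i ≤ u j → u' i ≤ u' j) : face (seg s(i, j)) u ⊆ face (seg s(i, j)) u' := by
  rintro x ⟨hx, hmax⟩
  refine ⟨hx, fun y hy => ?_⟩
  obtain ⟨a, b, ha, hb, hab, rfl⟩ := mem_seg.1 hx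
  obtain ⟨a', b', ha', hb', hab', rfl⟩ := mem_seg.1 hy
  have h3 := hmax _ (single_mem_seg i j)
  have h4 := hmax _ (by rw [Sym2.eq_swap]; exact single_mem_seg j i :
    Pi.single j (1 : ℝ) ∈ seg s(i, j))
  rw [dot_comb, dot_single] at h3 h4
  rw [dot_comb, dot_comb]
  have e1 : a * u i + b * u i = u i := by rw [← add_mul, hab, one_mul]
  have e2 : a * u j + b * u j = u j := by rw [← add_mul, hab, one_mul]
  have e3 : a' * u' i + b' * u' i = u' i := by rw [← add_mul, hab', one_mul]
  have e4 : a' * u' j + b' * u' j = u' j := by rw [← add_mul, hab', one_mul]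
  rcases lt_trichotomy (u i) (u j) with h | h | h
  · have h5 := h2 h.le
    have h6 : a = 0 := by
      have h7 : a * (u j - u i) ≤ 0 := by
        rw [mul_sub]; linarith
      by_contra hne
      have h8 : 0 < a := lt_of_le_of_ne ha (Ne.symm hne)
      have := mul_pos h8 (sub_pos.2 h)
      linarith
    have h9 : b = 1 := by linarith
    have h10 := mul_le_mul_of_nonneg_left h5 ha'
    rw [h6, h9, zero_mul, one_mul, zero_add]
    linarith
  · have h5 : u' i = u' j := le_antisymm (h2 h.le) (h1 h.ge)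
    rw [h5, ← add_mul, ← add_mul, hab, hab']
  · have h5 := h1 h.le
    have h6 : b = 0 := by
      have h7 : b * (u i - u j) ≤ 0 := by
        rw [mul_sub]; linarith
      by_contra hne
      have h8 : 0 < b := lt_of_le_of_ne hb (Ne.symm hne)
      have := mul_pos h8 (sub_pos.2 h)
      linarith
    have h9 : a = 1 := by linarith
    have h10 := mul_le_mul_of_nonneg_left h5 hb'
    rw [h6, h9, zero_mul, one_mul, add_zero]
    linarith

/-- Faces of the zonotope: `face (Z G) u ⊆ face (Z G) u'` iff `u'` is weakly sorted like `u` on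
every edge. (`sp (Z G) u = ∑ over edges of max`; a point `∑ x_s` with `x_s ∈ seg s` is in the face
iff every `x_s` is maximal on `seg s`.) -/
theorem faceZ_iff (G : SimpleGraph V) (u u' : V → ℝ) :
    face (Z G) u ⊆ face (Z G) u' ↔ ∀ i j, G.Adj i j → u j ≤ u i → u' j ≤ u' i := by
  have hE : ∀ s : Sym2 V, s ∈ (Set.toFinite G.edgeSet).toFinset ↔ s ∈ G.edgeSet := fun s =>
    Set.Finite.mem_toFinset _
  constructor
  · intro h i j hij huij
    -- a maximal point using `single i 1` on the edge `ij`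
    have hch : ∀ s : Sym2 V, ∃ x ∈ face (seg s) u, s = s(i, j) → x = Pi.single i (1 : ℝ) := by
      intro s
      by_cases hs : s = s(i, j)
      · subst hs
        exact ⟨_, single_mem_face huij, fun _ => rfl⟩
      · induction s using Sym2.ind with
        | _ a b =>
          rcases le_total (u b) (u a) with hab | hab
          · exact ⟨_, single_mem_face hab, fun h => absurd h hs⟩
          · refine ⟨Pi.single b (1 : ℝ), ?_, fun h => absurd h hs⟩
            rw [Sym2.eq_swap]
            exact single_mem_face hab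
    choose g hg hgi using hch
    have hmem : ∑ s ∈ (Set.toFinite G.edgeSet).toFinset, g s ∈ face (Z G) u :=
      (mem_face_sum _ _ g (fun s _ => (hg s).1) u).2 fun s _ => hg s
    have h1 := (mem_face_sum _ _ g (fun s _ => (hg s).1) u').1 (h hmem) s(i, j)
      ((hE _).2 ((SimpleGraph.mem_edgeSet G).2 hij))
    rw [hgi _ rfl] at h1
    have h2 := h1.2 (Pi.single j (1 : ℝ)) (by rw [Sym2.eq_swap]; exact single_mem_seg j i)
    rwa [dot_single, dot_single] at h2
  · intro h x hx
    have hx0 := hx.1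
    unfold Z at hx0
    rw [Set.mem_finsetSum] at hx0
    obtain ⟨g, hg, rfl⟩ := hx0
    have h1 := (mem_face_sum _ _ g (fun s hs => hg hs) u).1 hx
    refine (mem_face_sum _ _ g (fun s hs => hg hs) u').2 fun s hs => ?_
    have hadj := (hE s).1 hs
    have h2 := h1 s hs
    clear h1 hs
    induction s using Sym2.ind with
    | _ a b =>
      rw [SimpleGraph.mem_edgeSet] at hadj
      exact face_seg (h a b hadj) (h b a hadj.symm) h2

end MZ
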