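import Pool.Agent.MZ.Base
import Pool.Agent.MZ.Zon

/-!
# MZ-6: base polytopes are deformations of the graphical zonotope
-/

open scoped Pointwise Classical
open Finset Matrix

namespace MZ

variable {V : Type} [Fintype V]

private theorem ind_dot' (S : Finset V) (x : V → ℝ) : ind S ⬝ᵥ x = ∑ i ∈ S, x i := by
  simp only [dotProduct, ind, ite_mul, one_mul, zero_mul]
  rw [Finset.sum_ite_mem, Finset.univ_inter]

theorem fQ_Bp {G : SimpleGraph V} {f : Finset V → ℝ} (hf : InC G f) (S : Finset V) :
    fQ (Bp f) S = f S := by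
  have hP : IsPolytope (Bp f) := Bp_polytope hf
  obtain ⟨x, hx⟩ := face_nonempty hP (ind S)
  have h1 := (mem_face_Bp hf).1 hx
  have h2 := (mem_face_iff hP).1 hx
  have h3 := h1.2 1
  have hS : Finset.univ.filter (fun i => (1 : ℝ) ≤ ind S i) = S := by
    ext i
    by_cases hi : i ∈ S
    · simp [ind, hi]
    · simp only [ind, hi, if_false, Finset.mem_filter, Finset.mem_univ, true_and, iff_false]
      norm_num
  rw [hS] at h3
  rw [fQ, ← h2.2, ind_dot', h3]

private theorem tight_aux {G : SimpleGraph V} {f : Finset V → ℝ} (hf : InC G f) {u x : V → ℝ}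
    (hx : x ∈ Bp f)
    (hlev : ∀ c : ℝ, ∑ i ∈ Finset.univ.filter (fun i => c ≤ u i), x i =
        f (Finset.univ.filter (fun i => c ≤ u i)))
    {S' : Finset V} (hS' : ∀ i ∈ S', ∀ j ∉ S', G.Adj i j → u j < u i) :
    ∀ n : ℕ, ∀ L : Finset V, L.card = n → (∀ i ∈ L, ∀ j, u i ≤ u j → j ∈ L) →
      ∑ i ∈ S' ∩ L, x i = f (S' ∩ L) := by
  have hup : ∀ L : Finset V, (∀ i ∈ L, ∀ j, u i ≤ u j → j ∈ L) → ∑ i ∈ L, x i = f L := by
    intro L hL
    rcases L.eq_empty_or_nonempty with rfl | hne
    · simp [hf.empty]
    · obtain ⟨i0, hi0, hmin⟩ := L.exists_min_image u hne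
      have hLe : L = Finset.univ.filter (fun i => u i0 ≤ u i) := by
        ext j
        simp only [Finset.mem_filter, Finset.mem_univ, true_and]
        exact ⟨fun hj => hmin j hj, fun hj => hL i0 hi0 j hj⟩
      have := hlev (u i0)
      rw [← hLe] at this
      exact this
  intro n
  induction n using Nat.strong_induction_on with
  | _ n ih =>
    intro L hcard hL
    rcases L.eq_empty_or_nonempty with rfl | hne
    · simp [hf.empty]
    · obtain ⟨i0, hi0, hmin⟩ := L.exists_min_image u hne
      set L' : Finset V := L.filter (fun j => u i0 < u j) with hL'def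
      have hL'sub : L' ⊆ L := Finset.filter_subset _ _
      have hi0' : i0 ∉ L' := by simp [hL'def]
      have hL'card : L'.card < L.card :=
        Finset.card_lt_card ⟨hL'sub, fun h => hi0' (h hi0)⟩
      have hL'up : ∀ i ∈ L', ∀ j, u i ≤ u j → j ∈ L' := by
        intro i hi j hij
        rw [hL'def, Finset.mem_filter] at hi ⊢
        exact ⟨hL i hi.1 j hij, lt_of_lt_of_le hi.2 hij⟩
      have hIH := ih L'.card (hcard ▸ hL'card) L' rfl hL'up
      have htL := hup L hL
      have htL' := hup L' hL'up
      have hlevel : ∀ i ∈ L, i ∉ L' → u i = u i0 := by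
        intro i hi hi'
        apply le_antisymm _ (hmin i hi)
        by_contra hlt
        exact hi' (Finset.mem_filter.2 ⟨hi, not_le.1 hlt⟩)
      have hgt : ∀ i ∈ L', u i0 < u i := fun i hi => (Finset.mem_filter.1 hi).2
      have hle : ∀ T : Finset V, ∑ i ∈ T, x i ≤ f T := hx.1
      -- second modular relation
      have e1 : ((S' ∩ L) ∪ L') ∪ (L' ∪ (L \ S')) = L := by
        ext i
        have := @hL'sub i
        simp only [Finset.mem_union, Finset.mem_inter, Finset.mem_sdiff]
        tauto
      have e2 : ((S' ∩ L) ∪ L') ∩ (L' ∪ (L \ S')) = L' := by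
        ext i
        have := @hL'sub i
        simp only [Finset.mem_union, Finset.mem_inter, Finset.mem_sdiff]
        tauto
      have m2 := hf.modular ((S' ∩ L) ∪ L') (L' ∪ (L \ S')) (by
        intro i hi j hj hadj
        simp only [Finset.mem_union, Finset.mem_inter, Finset.mem_sdiff] at hi hj
        have hiS : i ∈ S' := by tauto
        have hiL : i ∈ L := by tauto
        have hiL' : i ∉ L' := by tauto
        have hjS : j ∉ S' := by tauto
        have hjL : j ∈ L := by tauto
        have hjL' : j ∉ L' := by tauto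
        have h1 := hS' i hiS j hjS hadj
        rw [hlevel i hiL hiL', hlevel j hjL hjL'] at h1
        exact lt_irrefl _ h1)
      rw [e1, e2] at m2
      have s2 := Finset.sum_union_inter (s₁ := (S' ∩ L) ∪ L') (s₂ := L' ∪ (L \ S')) (f := x)
      rw [e1, e2] at s2
      have hC : ∑ i ∈ (S' ∩ L) ∪ L', x i = f ((S' ∩ L) ∪ L') := by
        have h1 := hle ((S' ∩ L) ∪ L')
        have h2 := hle (L' ∪ (L \ S'))
        linarith
      -- first modular relation
      have e3 : (S' ∩ L) ∩ L' = S' ∩ L' := by
        ext i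
        have := @hL'sub i
        simp only [Finset.mem_inter]
        tauto
      have m1 := hf.modular (S' ∩ L) L' (by
        intro i hi j hj hadj
        simp only [Finset.mem_inter, Finset.mem_sdiff] at hi hj
        have hiS : i ∈ S' := by tauto
        have hiL : i ∈ L := by tauto
        have hiL' : i ∉ L' := by tauto
        have hjL' : j ∈ L' := hj.1
        have hjL : j ∈ L := hL'sub hjL'
        have hjS : j ∉ S' := by tauto
        have h1 := hS' i hiS j hjS hadj
        rw [hlevel i hiL hiL'] at h1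
        exact lt_asymm h1 (hgt j hjL'))
      rw [e3] at m1
      have s1 := Finset.sum_union_inter (s₁ := S' ∩ L) (s₂ := L') (f := x)
      rw [e3] at s1
      linarith

/-- Let `S' = {u' ≥ c'}` be an upper level set of `u'`. By `faceZ_iff`, `i ∈ S'`, `j ∉ S'`
adjacent implies `u j < u i`. Show by induction over the levels of `u` that `S' ∩ {u ≥ c}` is
tight at a point `x` of `face (Bp f) u`: with `L' = {u > c} ⊂ L = {u ≥ c}`, the sets `L'`, `L`,
`S' ∩ L'` are tight. There are no edges between `S' ∩ L \ L'` and `L' \ S'`, so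
`f (S' ∩ L) + f L' = f (L' ∪ S' ∩ L) + f (S' ∩ L')`; and no edges between `S' ∩ (L \ L')` and
`(L \ L') \ S'`, so `f (L' ∪ S' ∩ L) + f (L' ∪ (L \ S')) = f L + f L'`, which forces both sets on
the left to be tight (the values of `x` add up and are at most `f`). -/
theorem Bp_deform {G : SimpleGraph V} {f : Finset V → ℝ} (hf : InC G f) :
    IsDeformation (Z G) (Bp f) := by
  rw [deform_iff]
  refine ⟨Bp_polytope hf, ?_⟩
  intro u u' hface x hx
  rw [faceZ_iff] at hface
  obtain ⟨hxB, hlev⟩ := (mem_face_Bp hf).1 hx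
  refine (mem_face_Bp hf).2 ⟨hxB, ?_⟩
  intro c
  have hS' : ∀ i ∈ Finset.univ.filter (fun i => c ≤ u' i),
      ∀ j ∉ Finset.univ.filter (fun i => c ≤ u' i), G.Adj i j → u j < u i := by
    intro i hi j hj hadj
    simp only [Finset.mem_filter, Finset.mem_univ, true_and] at hi hj
    by_contra hlt
    exact hj (hi.trans (hface j i hadj.symm (not_lt.1 hlt)))
  have := tight_aux hf hxB hlev hS' _ Finset.univ rfl (fun _ _ _ _ => Finset.mem_univ _)
  rwa [Finset.inter_univ] at this

end MZ
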