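import Pool.Agent.MZ.Lov
import Pool.Agent.MZ.Base2

/-!
# MZ-7: rays of the deformation cone and extreme functions
-/

open scoped Pointwise Classical
open Finset Matrix

namespace MZ

variable {V : Type} [Fintype V]

private theorem ind_dot'' (S : Finset V) (x : V → ℝ) : ind S ⬝ᵥ x = ∑ i ∈ S, x i := by
  simp only [dotProduct, ind, ite_mul, one_mul, zero_mul]
  rw [Finset.sum_ite_mem, Finset.univ_inter]

omit [Fintype V] in
private theorem sum_cv {i j : V} {S : Finset V} (hij : i ≠ j) (hi : i ∉ S) (hj : j ∉ S)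
    (t : V → ℝ) :
    ∑ a ∈ insert i S, t a + ∑ a ∈ insert j S, t a =
      ∑ a ∈ insert i (insert j S), t a + ∑ a ∈ S, t a := by
  have h1 : i ∉ insert j S := by
    rw [Finset.mem_insert]
    rintro (h | h)
    · exact hij h
    · exact hi h
  rw [Finset.sum_insert hi, Finset.sum_insert hj, Finset.sum_insert h1, Finset.sum_insert hj]
  ring

/-- Two deformations (or sums of such) are compared through `eq_of_ind` and `eq_of_sp`. -/
theorem deform_eq_add {G : SimpleGraph V} {Q Q₁ Q₂ : Set (V → ℝ)} (hQ : IsDeformation (Z G) Q)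
    (h₁ : IsDeformation (Z G) Q₁) (h₂ : IsDeformation (Z G) Q₂)
    (h : ∀ S, fQ Q S = fQ Q₁ S + fQ Q₂ S) : Q = Q₁ + Q₂ := by
  refine eq_of_sp hQ.1 (h₁.1.add h₂.1) fun u => ?_
  rw [sp_add_set h₁.1 h₂.1]
  refine eq_of_ind (fun u => sp Q u) (fun u => sp Q₁ u + sp Q₂ u) ?_ ?_ ?_ ?_ h u
  · intro u v huv
    exact sp_add_of_compat hQ u v fun i j _ => huv i j
  · intro u v huv
    rw [sp_add_of_compat h₁ u v fun i j _ => huv i j,
      sp_add_of_compat h₂ u v fun i j _ => huv i j]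
    ring
  · intro c hc u
    exact sp_smul hQ.1 hc u
  · intro c hc u
    rw [sp_smul h₁.1 hc u, sp_smul h₂.1 hc u]
    ring

theorem deform_eq_homothet {G : SimpleGraph V} {Q Q₁ : Set (V → ℝ)} (hQ : IsDeformation (Z G) Q)
    (h₁ : IsDeformation (Z G) Q₁) {c : ℝ} (hc : 0 ≤ c) (t : V → ℝ)
    (h : ∀ S, fQ Q₁ S = c * fQ Q S + ∑ i ∈ S, t i) : Q₁ = c • Q + {t} := by
  refine eq_of_sp h₁.1 (hQ.1.homothet c t) fun u => ?_
  rw [sp_homothet hQ.1 hc]
  refine eq_of_ind (fun u => sp Q₁ u) (fun u => c * sp Q u + u ⬝ᵥ t) ?_ ?_ ?_ ?_ ?_ u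
  · intro u v huv
    exact sp_add_of_compat h₁ u v fun i j _ => huv i j
  · intro u v huv
    rw [sp_add_of_compat hQ u v fun i j _ => huv i j, add_dotProduct]
    ring
  · intro c hc u
    exact sp_smul h₁.1 hc u
  · intro c' hc' u
    rw [sp_smul hQ.1 hc' u, smul_dotProduct, smul_eq_mul]
    ring
  · intro S
    rw [ind_dot'']
    exact h S

theorem ext_of_ray {G : SimpleGraph V} {Q : Set (V → ℝ)} (hQ : IsRay (Z G) Q) : Ext G (fQ Q) := by
  obtain ⟨hD, hpt, hsplit⟩ := hQ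
  have hC := fQ_inC hD
  refine ⟨hC, ?_, ?_⟩
  · by_contra hno
    push Not at hno
    have h0 : ∀ i j S, i ≠ j → i ∉ S → j ∉ S → cv (fQ Q) i j S = 0 := by
      intro i j S hij hi hj
      exact le_antisymm (hno i j S hij hi hj) (hC.nonneg i j S hij hi hj)
    have hmod := modular_of_cv hC.empty h0
    have heq := deform_eq_homothet hD hD (le_refl (0 : ℝ)) (fun i => fQ Q {i}) (by
      intro S
      rw [zero_mul, zero_add]
      exact hmod S)
    rw [Set.zero_smul_set hD.1.nonempty] at heq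
    apply hpt (fun i => fQ Q {i})
    rw [zero_add] at heq
    exact heq
  · intro f₁ f₂ hf₁ hf₂ hsum
    have hB₁ := Bp_deform hf₁
    have hB₂ := Bp_deform hf₂
    have hadd : Q = Bp f₁ + Bp f₂ := deform_eq_add hD hB₁ hB₂ (by
      intro S
      rw [fQ_Bp hf₁, fQ_Bp hf₂]
      exact hsum S)
    obtain ⟨c₁, c₂, t₁, t₂, hc₁, hc₂, e₁, e₂⟩ := hsplit _ _ hB₁ hB₂ hadd
    have hval : ∀ S, f₁ S = c₁ * fQ Q S + ∑ i ∈ S, t₁ i := by
      intro S
      rw [← fQ_Bp hf₁ S, ← ind_dot'', e₁]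
      exact sp_homothet hD.1 hc₁ t₁ (ind S)
    refine ⟨c₁, ?_⟩
    intro i j S hij hi hj
    have h4 := sum_cv hij hi hj t₁
    unfold cv
    rw [hval (insert i S), hval (insert j S), hval (insert i (insert j S)), hval S]
    linarith

private theorem homothet_of_cv {G : SimpleGraph V} {f : Finset V → ℝ} (hf : InC G f)
    (hpos : ∃ i j S, i ≠ j ∧ i ∉ S ∧ j ∉ S ∧ 0 < cv f i j S) {Q₁ : Set (V → ℝ)}
    (h₁ : IsDeformation (Z G) Q₁) {c : ℝ}
    (h : ∀ i j S, i ≠ j → i ∉ S → j ∉ S → cv (fQ Q₁) i j S = c * cv f i j S) :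
    ∃ t : V → ℝ, 0 ≤ c ∧ Q₁ = c • Bp f + {t} := by
  have hC := fQ_inC h₁
  have hc : 0 ≤ c := by
    obtain ⟨i, j, S, hij, hi, hj, hp⟩ := hpos
    have h2 := hC.nonneg i j S hij hi hj
    rw [h i j S hij hi hj] at h2
    by_contra hneg
    push Not at hneg
    have := mul_neg_of_neg_of_pos hneg hp
    linarith
  refine ⟨fun i => fQ Q₁ {i} - c * f {i}, hc, ?_⟩
  refine deform_eq_homothet (Bp_deform hf) h₁ hc _ ?_
  intro S
  have h0 : fQ Q₁ ∅ - c * f ∅ = 0 := by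
    rw [hC.empty, hf.empty]
    ring
  have hcv : ∀ i j S, i ≠ j → i ∉ S → j ∉ S → cv (fun S => fQ Q₁ S - c * f S) i j S = 0 := by
    intro i j S hij hi hj
    have h3 := h i j S hij hi hj
    unfold cv at h3 ⊢
    linarith
  have hmod := modular_of_cv (f := fun S => fQ Q₁ S - c * f S) h0 hcv S
  rw [fQ_Bp hf, ← hmod]
  ring

theorem ray_of_ext {G : SimpleGraph V} {f : Finset V → ℝ} (hf : Ext G f) :
    IsRay (Z G) (Bp f) := by
  obtain ⟨hC, hpos, hsplit⟩ := hf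
  refine ⟨Bp_deform hC, ?_, ?_⟩
  · intro x hx
    obtain ⟨i, j, S, hij, hi, hj, hp⟩ := hpos
    have hval : ∀ S, f S = ∑ i ∈ S, x i := by
      intro S
      rw [← fQ_Bp hC S, fQ, sp, hx, Set.image_singleton, csSup_singleton, ind_dot'']
    have h4 := sum_cv hij hi hj x
    unfold cv at hp
    rw [hval (insert i S), hval (insert j S), hval (insert i (insert j S)), hval S] at hp
    linarith
  · intro Q₁ Q₂ h₁ h₂ hadd
    have hC₁ := fQ_inC h₁
    have hC₂ := fQ_inC h₂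
    have hsum : ∀ S, f S = fQ Q₁ S + fQ Q₂ S := by
      intro S
      rw [← fQ_Bp hC S, fQ, hadd]
      exact sp_add_set h₁.1 h₂.1 (ind S)
    obtain ⟨c₁, hc₁⟩ := hsplit _ _ hC₁ hC₂ hsum
    obtain ⟨c₂, hc₂⟩ := hsplit _ _ hC₂ hC₁ (fun S => by rw [hsum S, add_comm])
    obtain ⟨t₁, hc₁', e₁⟩ := homothet_of_cv hC hpos h₁ hc₁
    obtain ⟨t₂, hc₂', e₂⟩ := homothet_of_cv hC hpos h₂ hc₂
    exact ⟨c₁, c₂, t₁, t₂, hc₁', hc₂', e₁, e₂⟩

end MZ
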