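import Pool.Agent.MZ.Base

/-!
# MZ-8b: lower bound for the dimension
-/

open scoped Pointwise Classical
open Finset Matrix

namespace MZ

variable {V : Type} [Fintype V]

/-- If a set `L` and its complement are both tight at a point of `Bp f`, then `f` splits. -/
private theorem split_of_tight {G : SimpleGraph V} {f : Finset V → ℝ} (hf : InC G f)
    (L : Finset V) (hL : f L + f Lᶜ = f Finset.univ) (T : Finset V) :
    f T = f (T ∩ L) + f (T \ L) := by
  have h1 := hf.submod T L
  have h2 := hf.submod (T ∪ L) Lᶜ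
  have h3 := hf.submod (T ∩ L) (T \ L)
  have e1 : (T ∪ L) ∪ Lᶜ = Finset.univ := by
    ext v
    simp only [Finset.mem_union, Finset.mem_compl, Finset.mem_univ, iff_true]
    tauto
  have e2 : (T ∪ L) ∩ Lᶜ = T \ L := by
    ext v
    simp only [Finset.mem_union, Finset.mem_inter, Finset.mem_compl, Finset.mem_sdiff]
    tauto
  have e3 : (T ∩ L) ∪ (T \ L) = T := by
    ext v
    simp only [Finset.mem_union, Finset.mem_inter, Finset.mem_sdiff]
    tauto
  have e4 : (T ∩ L) ∩ (T \ L) = ∅ := by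
    ext v
    simp only [Finset.mem_inter, Finset.mem_sdiff, Finset.notMem_empty, iff_false]
    tauto
  rw [e1, e2] at h2
  rw [e3, e4, hf.empty] at h3
  linarith

private theorem cv_zero_of_split {G : SimpleGraph V} {f : Finset V → ℝ} (hf : InC G f)
    (L : Finset V) (hL : f L + f Lᶜ = f Finset.univ) {i j : V} (hi : i ∈ L) (hj : j ∉ L)
    (S : Finset V) : cv f i j S = 0 := by
  have h1 := split_of_tight hf L hL (insert i S)
  have h2 := split_of_tight hf L hL (insert j S)
  have h3 := split_of_tight hf L hL (insert i (insert j S))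
  have h4 := split_of_tight hf L hL S
  have a1 : insert i S \ L = S \ L := Finset.insert_sdiff_of_mem S hi
  have a2 : insert j S ∩ L = S ∩ L := Finset.insert_inter_of_notMem hj
  have a3 : insert i (insert j S) \ L = insert j S \ L := Finset.insert_sdiff_of_mem _ hi
  have a4 : insert i (insert j S) ∩ L = insert i S ∩ L := by
    rw [Finset.insert_inter_of_mem hi, Finset.insert_inter_of_mem hi, a2]
  rw [a1] at h1
  rw [a2] at h2
  rw [a3, a4] at h3
  unfold cv
  linarith

/-- If `u` is orthogonal to the directions of `Bp f`, it is constant on `W`. -/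
private theorem const_of_orth {G : SimpleGraph V} {f : Finset V → ℝ} (hf : InC G f)
    (W : Finset V)
    (hconn : ∀ A ⊆ W, A.Nonempty → A ≠ W →
      ∃ i ∈ A, ∃ j ∈ W \ A, ∃ S, i ∉ S ∧ j ∉ S ∧ 0 < cv f i j S)
    (u : V → ℝ) (hu : ∀ x ∈ Bp f, ∀ y ∈ Bp f, u ⬝ᵥ x = u ⬝ᵥ y)
    {a b : V} (ha : a ∈ W) (hb : b ∈ W) : u a ≤ u b := by
  by_contra hlt
  rw [not_le] at hlt
  obtain ⟨i, hi, j, hj, S, hiS, hjS, hpos⟩ := hconn (W.filter (fun v => u a ≤ u v))
    (Finset.filter_subset _ _) ⟨a, Finset.mem_filter.2 ⟨ha, le_rfl⟩⟩ (by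
      intro h
      have : b ∈ W.filter (fun v => u a ≤ u v) := by rw [h]; exact hb
      exact absurd (Finset.mem_filter.1 this).2 (not_le.2 hlt))
  obtain ⟨x, hx⟩ := (Bp_polytope hf).nonempty
  have hf1 : x ∈ face (Bp f) u := ⟨hx, fun y hy => le_of_eq (hu y hy x hx)⟩
  have hf2 : x ∈ face (Bp f) (-u) := by
    refine ⟨hx, fun y hy => le_of_eq ?_⟩
    rw [neg_dotProduct, neg_dotProduct, hu y hy x hx]
  have ht1 := ((mem_face_Bp hf).1 hf1).2 (u a)
  set L : Finset V := Finset.univ.filter (fun v => u a ≤ u v) with hLdef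
  have hiL : i ∈ L := by
    rw [hLdef, Finset.mem_filter]
    exact ⟨Finset.mem_univ _, (Finset.mem_filter.1 hi).2⟩
  have hjL : j ∉ L := by
    rw [hLdef, Finset.mem_filter]
    rintro ⟨-, h⟩
    rw [Finset.mem_sdiff] at hj
    exact hj.2 (Finset.mem_filter.2 ⟨hj.1, h⟩)
  obtain ⟨v0, hv0, hmin⟩ := Finset.exists_min_image Lᶜ (fun v => (-u) v)
    ⟨j, Finset.mem_compl.2 hjL⟩
  have ht2 := ((mem_face_Bp hf).1 hf2).2 ((-u) v0)
  have hset : Finset.univ.filter (fun v => (-u) v0 ≤ (-u) v) = Lᶜ := by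
    ext v
    rw [Finset.mem_filter]
    constructor
    · rintro ⟨-, h⟩
      rw [Finset.mem_compl]
      intro hvL
      have h1 : u a ≤ u v := (Finset.mem_filter.1 hvL).2
      have h2 : ¬ (u a ≤ u v0) := by
        intro h'
        exact (Finset.mem_compl.1 hv0) (Finset.mem_filter.2 ⟨Finset.mem_univ _, h'⟩)
      simp only [Pi.neg_apply] at h
      linarith [not_le.1 h2]
    · intro hv
      exact ⟨Finset.mem_univ _, hmin v hv⟩
  rw [hset] at ht2
  have hsum : f L + f Lᶜ = f Finset.univ := by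
    rw [← ht1, ← ht2, Finset.sum_add_sum_compl]
    exact hx.2
  have h0 := cv_zero_of_split hf L hsum hiL hjL S
  linarith

/-- If `u` is constant on `Bp f`, then all upper level sets `L` of `u` satisfy
`f L + f (V \ L) = f V` (use `mem_face_Bp` for `u` and `-u`), so (submodularity) `cv f i j S = 0`
for `i ∈ L`, `j ∉ L`; hence `u` is constant on `W`. So the annihilator of the direction space has
dimension at most `|V| - |W| + 1`. -/
theorem le_dim {G : SimpleGraph V} {f : Finset V → ℝ} (hf : InC G f) (W : Finset V)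
    (hconn : ∀ A ⊆ W, A.Nonempty → A ≠ W →
      ∃ i ∈ A, ∃ j ∈ W \ A, ∃ S, i ∉ S ∧ j ∉ S ∧ 0 < cv f i j S) :
    W.card ≤ Module.finrank ℝ (vectorSpan ℝ (Bp f)) + 1 := by
  rcases W.eq_empty_or_nonempty with hW | ⟨w0, hw0⟩
  · rw [hW]; simp
  -- every difference `e_w - e_{w0}` lies in the direction space
  have hmem : ∀ w ∈ W, (Pi.single w (1 : ℝ) - Pi.single w0 (1 : ℝ) : V → ℝ) ∈
      vectorSpan ℝ (Bp f) := by
    intro w hw
    by_contra hnot
    obtain ⟨φ, hφne, hφ⟩ := Submodule.exists_le_ker_of_notMem hnot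
    set u : V → ℝ := fun i => φ (Pi.single i 1) with hudef
    have hdot : ∀ x : V → ℝ, u ⬝ᵥ x = φ x := by
      intro x
      have hx : x = ∑ i, x i • (Pi.single i (1 : ℝ) : V → ℝ) := by
        ext k
        simp [Finset.sum_apply, Pi.single_apply]
      conv_rhs => rw [hx]
      rw [map_sum]
      simp only [map_smul, smul_eq_mul, dotProduct, hudef]
      exact Finset.sum_congr rfl fun i _ => mul_comm _ _
    have huc : ∀ x ∈ Bp f, ∀ y ∈ Bp f, u ⬝ᵥ x = u ⬝ᵥ y := by
      intro x hx y hy
      rw [hdot, hdot]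
      have h1 : x - y ∈ vectorSpan ℝ (Bp f) := by
        have := vsub_mem_vectorSpan ℝ hx hy
        rwa [vsub_eq_sub] at this
      have h2 := hφ h1
      rw [LinearMap.mem_ker, map_sub, sub_eq_zero] at h2
      exact h2
    have h1 : u w = u w0 := le_antisymm (const_of_orth hf W hconn u huc hw hw0)
      (const_of_orth hf W hconn u huc hw0 hw)
    apply hφne
    rw [map_sub]
    simp only [hudef] at h1
    rw [h1, sub_self]
  -- linear independence
  have hlin : LinearIndependent ℝ (fun w : {w // w ∈ W.erase w0} =>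
      (⟨Pi.single w.1 (1 : ℝ) - Pi.single w0 (1 : ℝ), hmem w.1 (Finset.mem_of_mem_erase w.2)⟩ :
        vectorSpan ℝ (Bp f))) := by
    rw [Fintype.linearIndependent_iff]
    intro g hg w
    have h1 := congrArg (fun z : vectorSpan ℝ (Bp f) => (z : V → ℝ) w.1) hg
    have hne : w.1 ≠ w0 := Finset.ne_of_mem_erase w.2
    simp only [Submodule.coe_sum, Submodule.coe_smul, Finset.sum_apply, Pi.smul_apply,
      Pi.sub_apply, smul_eq_mul, ZeroMemClass.coe_zero, Pi.zero_apply] at h1
    rw [Finset.sum_eq_single w] at h1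
    · rw [Pi.single_eq_same, Pi.single_eq_of_ne hne, sub_zero, mul_one] at h1
      exact h1
    · intro b _ hb
      have hb' : w.1 ≠ b.1 := fun h => hb (Subtype.ext h.symm)
      rw [Pi.single_eq_of_ne hb', Pi.single_eq_of_ne hne, sub_zero, mul_zero]
    · intro h
      exact absurd (Finset.mem_univ _) h
  have hcard := hlin.fintype_card_le_finrank
  rw [Fintype.card_coe, Finset.card_erase_of_mem hw0] at hcard
  omega

end MZ
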