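import Pool.Agent.MZ.Grid

/-!
# MZ-10: existence of extreme functions in a face
-/

open scoped Classical
open Finset

namespace MZ

variable {V : Type} [Fintype V]

omit [Fintype V] in
private theorem cv_add_mul (g h : Finset V → ℝ) (s : ℝ) (i j : V) (S : Finset V) :
    cv (fun T => g T + s * h T) i j S = cv g i j S + s * cv h i j S := by
  unfold cv; ring

/-- the valid triples at which the second difference vanishes -/
private noncomputable def zset (z : Finset V → ℝ) : Finset (V × V × Finset V) :=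
  univ.filter (fun p => p.1 ≠ p.2.1 ∧ p.1 ∉ p.2.2 ∧ p.2.1 ∉ p.2.2 ∧ cv z p.1 p.2.1 p.2.2 = 0)

/-- the improvement step -/
private theorem step_ext {G : SimpleGraph V} {z w : Finset V → ℝ} (hz : InC G z)
    (hw0 : w ∅ = 0)
    (hzw : ∀ i j S, i ≠ j → i ∉ S → j ∉ S → cv z i j S = 0 → cv w i j S = 0)
    (hneg : ∃ i j S, i ≠ j ∧ i ∉ S ∧ j ∉ S ∧ cv w i j S < 0) :
    ∃ s : ℝ, InC G (fun T => z T + s * w T) ∧
      (zset z).card < (zset (fun T => z T + s * w T)).card := by
  set B : Finset (V × V × Finset V) :=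
    univ.filter (fun p => p.1 ≠ p.2.1 ∧ p.1 ∉ p.2.2 ∧ p.2.1 ∉ p.2.2 ∧ cv w p.1 p.2.1 p.2.2 < 0)
    with hB
  have hBne : B.Nonempty := by
    obtain ⟨i, j, S, h1, h2, h3, h4⟩ := hneg
    exact ⟨(i, j, S), by simp [hB, h1, h2, h3, h4]⟩
  obtain ⟨p, hpB, hp⟩ := B.exists_min_image
    (fun p => cv z p.1 p.2.1 p.2.2 / (-cv w p.1 p.2.1 p.2.2)) hBne
  have hpB' := hpB
  rw [hB, mem_filter] at hpB'
  obtain ⟨-, hp1, hp2, hp3, hp4⟩ := hpB'
  set s : ℝ := cv z p.1 p.2.1 p.2.2 / (-cv w p.1 p.2.1 p.2.2) with hs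
  have hs0 : 0 ≤ s := div_nonneg (hz.nonneg _ _ _ hp1 hp2 hp3) (by linarith)
  refine ⟨s, ⟨?_, ?_, ?_⟩, ?_⟩
  · simp [hz.empty, hw0]
  · intro i j S h1 h2 h3
    rw [cv_add_mul]
    have hz0 := hz.nonneg i j S h1 h2 h3
    rcases le_or_gt 0 (cv w i j S) with h | h
    · have := mul_nonneg hs0 h
      linarith
    · have hmem : (i, j, S) ∈ B := by simp [hB, h1, h2, h3, h]
      have hle := hp (i, j, S) hmem
      simp only at hle
      rw [le_div_iff₀ (by linarith)] at hle
      linarith
  · intro i j S h1 h2 h3 h4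
    rw [cv_add_mul, hz.nonadj i j S h1 h2 h3 h4,
      hzw i j S h1 h2 h3 (hz.nonadj i j S h1 h2 h3 h4)]
    ring
  · apply Finset.card_lt_card
    rw [Finset.ssubset_iff_of_subset]
    · refine ⟨p, ?_, ?_⟩
      · simp only [zset, mem_filter, mem_univ, true_and]
        refine ⟨hp1, hp2, hp3, ?_⟩
        rw [cv_add_mul, hs]
        have : cv w p.1 p.2.1 p.2.2 ≠ 0 := hp4.ne
        field_simp
        ring
      · simp only [zset, mem_filter, mem_univ, true_and, not_and]
        intro _ _ _ h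
        exact hp4.ne (hzw _ _ _ hp1 hp2 hp3 h)
    · intro q hq
      simp only [zset, mem_filter, mem_univ, true_and] at hq ⊢
      obtain ⟨h1, h2, h3, h4⟩ := hq
      refine ⟨h1, h2, h3, ?_⟩
      rw [cv_add_mul, h4, hzw _ _ _ h1 h2 h3 h4]
      ring

/-- Among all `z` in the cone with `lam z = 1` and `cv f = 0 → cv z = 0` (for instance
`f / lam f`) take one with the largest number of vanishing second differences. If `z = z₁ + z₂`
and `w = z₁ - lam z₁ • z` had a nonzero second difference, then (after a sign) some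
`cv w < 0`; the largest `s` with `z + s w` in the cone gives one more vanishing second
difference. -/
theorem exists_ext {G : SimpleGraph V} {f : Finset V → ℝ} (hf : InC G f)
    (lam : (Finset V → ℝ) →ₗ[ℝ] ℝ) (hpos : 0 < lam f)
    (hmod : ∀ g, (∀ i j S, i ≠ j → i ∉ S → j ∉ S → cv g i j S = 0) → lam g = 0) :
    ∃ z, Ext G z ∧ lam z = 1 ∧
      ∀ i j S, i ≠ j → i ∉ S → j ∉ S → cv f i j S = 0 → cv z i j S = 0 := by
  set A : Set (Finset V → ℝ) := {z | InC G z ∧ lam z = 1 ∧
    ∀ i j S, i ≠ j → i ∉ S → j ∉ S → cv f i j S = 0 → cv z i j S = 0} with hA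
  have hne : ((fun z => (zset z).card) '' A).Nonempty := by
    refine ⟨_, (1 / lam f) • f, ⟨⟨?_, ?_, ?_⟩, ?_, ?_⟩, rfl⟩
    · simp [hf.empty]
    · intro i j S h1 h2 h3
      have : cv ((1 / lam f) • f) i j S = (1 / lam f) * cv f i j S := by
        simp only [cv, Pi.smul_apply, smul_eq_mul]; ring
      rw [this]
      exact mul_nonneg (by positivity) (hf.nonneg i j S h1 h2 h3)
    · intro i j S h1 h2 h3 h4
      have : cv ((1 / lam f) • f) i j S = (1 / lam f) * cv f i j S := by
        simp only [cv, Pi.smul_apply, smul_eq_mul]; ring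
      rw [this, hf.nonadj i j S h1 h2 h3 h4, mul_zero]
    · rw [map_smul, smul_eq_mul]
      field_simp
    · intro i j S h1 h2 h3 h4
      have : cv ((1 / lam f) • f) i j S = (1 / lam f) * cv f i j S := by
        simp only [cv, Pi.smul_apply, smul_eq_mul]; ring
      rw [this, h4, mul_zero]
  have hbdd : BddAbove ((fun z => (zset z).card) '' A) := by
    refine ⟨Fintype.card (V × V × Finset V), ?_⟩
    rintro n ⟨z, -, rfl⟩
    exact Finset.card_le_univ _
  obtain ⟨z, ⟨hzC, hz1, hzf⟩, hzmax⟩ := Nat.sSup_mem hne hbdd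
  have hmax : ∀ z' ∈ A, (zset z').card ≤ (zset z).card := by
    intro z' hz'
    simp only at hzmax
    rw [hzmax]
    exact le_csSup hbdd ⟨z', hz', rfl⟩
  refine ⟨z, ⟨hzC, ?_, ?_⟩, hz1, hzf⟩
  · by_contra hcon
    push Not at hcon
    have : lam z = 0 := hmod z (fun i j S h1 h2 h3 =>
      le_antisymm (hcon i j S h1 h2 h3) (hzC.nonneg i j S h1 h2 h3))
    rw [hz1] at this
    exact one_ne_zero this
  · intro z₁ z₂ hC1 hC2 hsum
    have hcvsum : ∀ i j S, cv z i j S = cv z₁ i j S + cv z₂ i j S := by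
      intro i j S
      simp only [cv, hsum]; ring
    refine ⟨lam z₁, ?_⟩
    by_contra hcon
    push Not at hcon
    obtain ⟨i0, j0, S0, h10, h20, h30, h40⟩ := hcon
    -- the perturbation
    have main : ∀ w : Finset V → ℝ, w ∅ = 0 → lam w = 0 →
        (∀ i j S, i ≠ j → i ∉ S → j ∉ S → cv z i j S = 0 → cv w i j S = 0) →
        (∃ i j S, i ≠ j ∧ i ∉ S ∧ j ∉ S ∧ cv w i j S < 0) → False := by
      intro w hw0 hlw hzw hneg
      obtain ⟨s, hs1, hs2⟩ := step_ext hzC hw0 hzw hneg
      have hA' : (fun T => z T + s * w T) ∈ A := by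
        refine ⟨hs1, ?_, ?_⟩
        · have : (fun T => z T + s * w T) = z + s • w := by
            funext T; simp
          rw [this, map_add, map_smul, hlw, hz1]
          simp
        · intro i j S h1 h2 h3 h4
          have h5 := hzf i j S h1 h2 h3 h4
          rw [cv_add_mul, h5, hzw i j S h1 h2 h3 h5]
          ring
      exact absurd (hmax _ hA') (not_le.2 hs2)
    have hzero : ∀ i j S, i ≠ j → i ∉ S → j ∉ S → cv z i j S = 0 → cv z₁ i j S = 0 := by
      intro i j S h1 h2 h3 h4
      have h5 := hC1.nonneg i j S h1 h2 h3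
      have h6 := hC2.nonneg i j S h1 h2 h3
      have h7 := hcvsum i j S
      linarith
    rcases lt_or_gt_of_ne h40 with h | h
    · refine main (fun T => z₁ T + (-lam z₁) * z T) ?_ ?_ ?_ ⟨i0, j0, S0, h10, h20, h30, ?_⟩
      · simp [hC1.empty, hzC.empty]
      · have : (fun T => z₁ T + (-lam z₁) * z T) = z₁ + (-lam z₁) • z := by
          funext T; simp
        rw [this, map_add, map_smul, hz1]
        simp
      · intro i j S h1 h2 h3 h4
        rw [cv_add_mul, h4, hzero i j S h1 h2 h3 h4]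
        ring
      · rw [cv_add_mul]; linarith
    · refine main (fun T => (lam z₁ * z T) + (-1) * z₁ T) ?_ ?_ ?_ ⟨i0, j0, S0, h10, h20, h30, ?_⟩
      · simp [hC1.empty, hzC.empty]
      · have : (fun T => (lam z₁ * z T) + (-1) * z₁ T) = (lam z₁) • z + (-1 : ℝ) • z₁ := by
          funext T; simp
        rw [this, map_add, map_smul, map_smul, hz1]
        simp
      · intro i j S h1 h2 h3 h4
        have e : cv (fun T => (lam z₁ * z T) + (-1) * z₁ T) i j S =
            lam z₁ * cv z i j S - cv z₁ i j S := by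
          simp only [cv]; ring
        rw [e, h4, hzero i j S h1 h2 h3 h4]
        ring
      · have e : cv (fun T => (lam z₁ * z T) + (-1) * z₁ T) i0 j0 S0 =
            lam z₁ * cv z i0 j0 S0 - cv z₁ i0 j0 S0 := by
          simp only [cv]; ring
        rw [e]; linarith

end MZ
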