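import Pool.Agent.MZ.T3Face
import Pool.Agent.MZ.ExtEx
import Pool.Agent.MZ.Corr
import Pool.Agent.MZ.Dim2

/-!
# MZ-17: the lower bound
-/

open scoped Pointwise Classical
open Finset

namespace MZ

variable {V : Type} [Fintype V]

private theorem mob_inv (Q : Finset V) : ∀ y : Finset V → ℝ,
    ∑ S ∈ Q.powerset, (-1 : ℝ) ^ (Q.card - S.card) * ∑ K ∈ S.powerset, y K = y Q := by
  induction Q using Finset.induction_on with
  | empty => intro y; simp
  | insert a Q ha ih =>
    intro y
    rw [Finset.sum_powerset_insert ha, card_insert_of_notMem ha]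
    have h1 : ∀ S ∈ Q.powerset,
        (-1 : ℝ) ^ (Q.card + 1 - S.card) * ∑ K ∈ S.powerset, y K =
          - ((-1 : ℝ) ^ (Q.card - S.card) * ∑ K ∈ S.powerset, y K) := by
      intro S hS
      have hc : S.card ≤ Q.card := card_le_card (mem_powerset.mp hS)
      have : Q.card + 1 - S.card = (Q.card - S.card) + 1 := by omega
      rw [this, pow_succ]; ring
    have h2 : ∀ S ∈ Q.powerset,
        (-1 : ℝ) ^ (Q.card + 1 - (insert a S).card) * ∑ K ∈ (insert a S).powerset, y K =
          (-1 : ℝ) ^ (Q.card - S.card) * ∑ K ∈ S.powerset, y K +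
          (-1 : ℝ) ^ (Q.card - S.card) * ∑ K ∈ S.powerset, y (insert a K) := by
      intro S hS
      have haS : a ∉ S := fun h => ha (mem_powerset.mp hS h)
      have : Q.card + 1 - (insert a S).card = Q.card - S.card := by
        rw [card_insert_of_notMem haS]; omega
      rw [this, Finset.sum_powerset_insert haS]; ring
    rw [Finset.sum_congr rfl h1, Finset.sum_congr rfl h2, Finset.sum_add_distrib,
      Finset.sum_neg_distrib, ih (fun K => y (insert a K))]
    ring

/-- `zc (ff ..) Q = 1` for a complete graph `Q` on four vertices inside `W`. -/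
theorem zc_ff {H : SimpleGraph V} {W : Finset V} (F : Finset V → Finset V → Prop)
    (m : Finset V → ℕ) {Q : Finset V} (hQ : Q ∈ Ks 4 H W) : zc (ff H W F m) Q = 1 := by
  have h1 : zc (ff H W F m) Q = yy H W F m Q := by
    have := mob_inv Q (yy H W F m)
    rw [← this]
    unfold zc ff
    rw [← Finset.sum_neg_distrib]
    apply Finset.sum_congr rfl
    intro S _
    ring
  have hc : Q.card = 4 := by
    have := (mem_filter.mp hQ).2
    exact this.card_eq
  have h2 : Q ∉ Ks 2 H W := by
    intro h
    have := (mem_filter.mp h).2.card_eq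
    omega
  have h3 : Q ∉ Ks 3 H W := by
    intro h
    have := (mem_filter.mp h).2.card_eq
    omega
  rw [h1]
  unfold yy
  rw [if_neg h2, if_neg h3, if_pos hQ]

/-- the dimensions of rays are bounded -/
theorem le_dimMink {P Q : Set (V → ℝ)} (hQ : IsRay P Q) :
    Module.finrank ℝ (vectorSpan ℝ Q) ≤ dimMink P := by
  unfold dimMink
  apply le_csSup
  · refine ⟨Module.finrank ℝ (V → ℝ), ?_⟩
    rintro d ⟨Q', _, rfl⟩
    exact Submodule.finrank_le _
  · exact ⟨Q, hQ, rfl⟩

private noncomputable def zcL (K : Finset V) : (Finset V → ℝ) →ₗ[ℝ] ℝ where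
  toFun z := zc z K
  map_add' z w := by
    unfold zc
    simp only [Pi.add_apply, mul_add, Finset.sum_add_distrib]
    ring
  map_smul' c z := by
    unfold zc
    simp only [Pi.smul_apply, smul_eq_mul, RingHom.id_apply, mul_neg, Finset.mul_sum]
    congr 1
    apply Finset.sum_congr rfl
    intro S _
    ring

theorem lower {G H : SimpleGraph V} {W : Finset V} (hHG : H ≤ G) (hW : IsTree3 H W)
    (ht : Thin H W) : W.card ≤ dimMink (Z G) + 1 := by
  obtain ⟨F, m, hd⟩ := exists_data hW ht
  have hf : InC G (ff H W F m) := ff_inC hHG W F m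
  have hWne : W.Nonempty := by
    rw [← Finset.card_pos]
    have := four_le_card hW
    omega
  obtain ⟨v, hv⟩ := hWne
  obtain ⟨Q₀, hQ₀, _⟩ := mem_K4 hW hv
  have hpair : ∀ Q ∈ Ks 4 H W, ∃ i ∈ Q, ∃ j ∈ Q, i ≠ j := by
    intro Q hQ
    have hc : Q.card = 4 := (mem_filter.mp hQ).2.card_eq
    have : 1 < Q.card := by omega
    obtain ⟨i, hi, j, hj, hij⟩ := Finset.one_lt_card.mp this
    exact ⟨i, hi, j, hj, hij⟩
  have hnot : ∀ (i j : V) (Q S : Finset V), S ∈ ((Q.erase i).erase j).powerset → i ∉ S ∧ j ∉ S := by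
    intro i j Q S hS
    have hS' := mem_powerset.mp hS
    constructor
    · intro h
      have := hS' h
      simp at this
    · intro h
      have := hS' h
      simp at this
  obtain ⟨z, hz, hz1, hzf⟩ := exists_ext hf (zcL Q₀) (by
      change 0 < zc (ff H W F m) Q₀
      rw [zc_ff F m hQ₀]; exact one_pos) (by
      intro g hg
      change zc g Q₀ = 0
      obtain ⟨i, hi, j, hj, hij⟩ := hpair Q₀ hQ₀
      rw [zc_eq_cv g hij hi hj]
      apply Finset.sum_eq_zero
      intro S hS
      rw [hg i j S hij (hnot i j Q₀ S hS).1 (hnot i j Q₀ S hS).2, mul_zero])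
  have hz1' : zc z Q₀ = 1 := hz1
  have hall : ∀ Q ∈ Ks 4 H W, zc z Q = 1 := by
    intro Q hQ
    rw [face_const hW hd z hzf Q hQ Q₀ hQ₀, hz1']
  have hdim := le_dim hz.1 W (by
    intro A hA hne hAW
    obtain ⟨Q, hQ, i, hi, j, hj, hiA, hjW⟩ := exists_cross hW A hA hne hAW
    refine ⟨i, hiA, j, hjW, ?_⟩
    have hij : i ≠ j := by
      rintro rfl
      exact (mem_sdiff.mp hjW).2 hiA
    by_contra hcon
    push Not at hcon
    have h0 : zc z Q = 0 := by
      rw [zc_eq_cv z hij hi hj]
      apply Finset.sum_eq_zero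
      intro S hS
      have hS1 := (hnot i j Q S hS).1
      have hS2 := (hnot i j Q S hS).2
      have : cv z i j S = 0 := le_antisymm (hcon S hS1 hS2) (hz.1.nonneg i j S hij hS1 hS2)
      rw [this, mul_zero]
    rw [hall Q hQ] at h0
    exact one_ne_zero h0)
  have hray := ray_of_ext hz
  have := le_dimMink hray
  omega

end MZ
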