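import Pool.Agent.MZ.Upper
import Pool.Agent.MZ.Dim
import Pool.Agent.MZ.Lower
import Pool.Agent.MZ.Chord
import Pool.Agent.MZ.Chord2

/-!
# MZ-20: the main theorem
-/

open scoped Pointwise Classical
open Finset

namespace MZ

variable {V : Type} [Fintype V]

/-- the function of the segment of an edge -/
private noncomputable def eF (u v : V) (S : Finset V) : ℝ := if u ∈ S ∨ v ∈ S then 1 else 0

private theorem cv_eF_of_ne {u v i j : V} {S : Finset V} (hi : i ≠ u) (hi' : i ≠ v) :
    cv (eF u v) i j S = 0 := by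
  have h1 : ∀ T : Finset V, eF u v (insert i T) = eF u v T := by
    intro T
    unfold eF
    simp only [Finset.mem_insert, Ne.symm hi, Ne.symm hi', false_or]
  unfold cv
  rw [h1, h1]
  ring

private theorem cv_swap (f : Finset V → ℝ) (i j : V) (S : Finset V) : cv f i j S = cv f j i S := by
  unfold cv
  rw [Finset.insert_comm j i]
  ring

private theorem eF_swap (u v : V) : eF u v = eF v u := by
  funext S
  unfold eF
  simp only [or_comm]

private theorem cv_eF_self {u v : V} {S : Finset V} (hu : u ∉ S) (hv : v ∉ S) :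
    cv (eF u v) u v S = 1 := by
  unfold cv eF
  simp [hu, hv]

private theorem eF_inC {G : SimpleGraph V} {u v : V} (h : G.Adj u v) : InC G (eF u v) := by
  have key : ∀ i j S, i ≠ j → i ∉ S → j ∉ S →
      cv (eF u v) i j S = 0 ∨ (cv (eF u v) i j S = 1 ∧ G.Adj i j) := by
    intro i j S hij hi hj
    by_cases h1 : i = u
    · by_cases h2 : j = v
      · right
        subst h1 h2
        exact ⟨cv_eF_self hi hj, h⟩
      · left
        rw [cv_swap]
        exact cv_eF_of_ne (fun h3 => hij (h1.trans h3.symm)) h2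
    · by_cases h1' : i = v
      · by_cases h2 : j = u
        · right
          subst h1' h2
          rw [cv_swap]
          exact ⟨cv_eF_self hj hi, h.symm⟩
        · left
          rw [cv_swap]
          exact cv_eF_of_ne h2 (fun h3 => hij (h1'.trans h3.symm))
      · left
        exact cv_eF_of_ne h1 h1'
  refine ⟨by simp [eF], ?_, ?_⟩
  · intro i j S hij hi hj
    rcases key i j S hij hi hj with h1 | ⟨h1, _⟩
    · rw [h1]
    · rw [h1]; exact zero_le_one
  · intro i j S hij hi hj hn
    rcases key i j S hij hi hj with h1 | ⟨_, h1⟩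
    · exact h1
    · exact absurd h1 hn

private theorem exists_ray {G : SimpleGraph V} (hG : G ≠ ⊥) : ∃ Q, IsRay (Z G) Q := by
  obtain ⟨u, v, huv⟩ := SimpleGraph.ne_bot_iff_exists_adj.mp hG
  let lam : (Finset V → ℝ) →ₗ[ℝ] ℝ :=
    { toFun := fun g => cv g u v ∅
      map_add' := fun g g' => by simp only [cv, Pi.add_apply]; ring
      map_smul' := fun c g => by simp only [cv, Pi.smul_apply, smul_eq_mul, RingHom.id_apply]; ring }
  have hlam : 0 < lam (eF u v) := by
    show 0 < cv (eF u v) u v ∅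
    rw [cv_eF_self (by simp) (by simp)]
    exact one_pos
  obtain ⟨z, hz, -, -⟩ := exists_ext (eF_inC huv) lam hlam
    (fun g hg => hg u v ∅ huv.ne (by simp) (by simp))
  exact ⟨Bp z, ray_of_ext hz⟩

private theorem bdd_ray (P : Set (V → ℝ)) :
    BddAbove {d | ∃ Q, IsRay P Q ∧ d = Module.finrank ℝ (vectorSpan ℝ Q)} := by
  refine ⟨Module.finrank ℝ (V → ℝ), ?_⟩
  rintro d ⟨Q, -, rfl⟩
  exact Submodule.finrank_le _

/-- The Minkowski dimension is attained and its polytope satisfies the counting condition. -/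
theorem upper_bound {G : SimpleGraph V} (hG : G ≠ ⊥) :
    ∃ W : Finset V, dimMink (Z G) + 1 ≤ W.card ∧
      ∀ X ⊆ W, comps G (W \ X) + numCl G X ≤ numFl G X + 1 := by
  obtain ⟨Q₀, hQ₀⟩ := exists_ray hG
  have hmem := Nat.sSup_mem (s := {d | ∃ Q, IsRay (Z G) Q ∧ d = Module.finrank ℝ (vectorSpan ℝ Q)})
    ⟨_, Q₀, hQ₀, rfl⟩ (bdd_ray (Z G))
  obtain ⟨Q, hQ, hd⟩ := hmem
  have hE := ext_of_ray hQ
  have hne : (supV (fQ Q)).Nonempty := by
    obtain ⟨i, j, S, hij, hi, hj, hpos⟩ := hE.2.1
    exact ⟨i, by simp only [supV, Finset.mem_filter, Finset.mem_univ, true_and]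
                 exact ⟨j, S, hij, hi, hj, hpos⟩⟩
  refine ⟨supV (fQ Q), ?_, fun X hX => upper hE X hX⟩
  have h1 := dim_le hQ.1 hne
  rw [← hd] at h1
  exact h1

theorem chordal_value {G : SimpleGraph V} (hG : Chordal G) (h5 : G.CliqueFree 5)
    (h4 : ¬ G.CliqueFree 4) :
    IsGreatest {k | ∃ W : Finset V, IsTree3 G W ∧ Thin G W ∧ k = W.card}
      (dimMink (Z G) + 1) := by
  have hub : ∀ W : Finset V, IsTree3 G W → Thin G W → W.card ≤ dimMink (Z G) + 1 :=
    fun W hW ht => lower (le_refl G) hW ht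
  constructor
  · -- a clique with four vertices
    obtain ⟨s, hs⟩ : ∃ s : Finset V, G.IsNClique 4 s := by
      by_contra hcon
      push Not at hcon
      exact h4 hcon
    have hthin : Thin G s := by
      intro T hT hT3
      have hsub : s.filter (fun v => ∀ t ∈ T, G.Adj v t) ⊆ s \ T := by
        intro v hv
        rw [Finset.mem_filter] at hv
        rw [Finset.mem_sdiff]
        exact ⟨hv.1, fun hvT => (G.loopless.irrefl v) (hv.2 v hvT)⟩
      have h1 := Finset.card_le_card hsub
      rw [Finset.card_sdiff_of_subset hT, hs.card_eq, hT3.card_eq] at h1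
      omega
    have h4le : 4 ≤ dimMink (Z G) + 1 := by
      have := hub s (IsTree3.base s hs) hthin
      rwa [hs.card_eq] at this
    have hbot : G ≠ ⊥ := by
      rintro rfl
      have h1 : 1 < s.card := by rw [hs.card_eq]; norm_num
      obtain ⟨a, ha, b, hb, hab⟩ := Finset.one_lt_card.mp h1
      exact (hs.isClique ha hb hab)
    obtain ⟨W, hW1, hW2⟩ := upper_bound hbot
    obtain ⟨hT, hTh⟩ := thin_tree3 (fun W hW => exists_simplicial hG W hW) h5 W
      (h4le.trans hW1) hW2
    exact ⟨W, hT, hTh, le_antisymm hW1 (hub W hT hTh)⟩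
  · rintro k ⟨W, hW, ht, rfl⟩
    exact hub W hW ht

end MZ
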