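import Pool.Agent.MZ.BaseP

/-!
# MZ-5c: faces of base polytopes
-/

open scoped Pointwise Classical
open Finset Matrix

namespace MZ

variable {V : Type} [Fintype V]

private theorem mz8_abel (d : V → ℝ) (h0 : ∑ i, d i = 0) :
    ∀ (n : ℕ) (u : V → ℝ), (Finset.univ.image u).card ≤ n →
      (∀ c : ℝ, 0 ≤ ∑ i ∈ Finset.univ.filter (fun i => c ≤ u i), d i) →
      0 ≤ ∑ i, u i * d i := by
  intro n
  induction n with
  | zero =>
    intro u hn _
    have h1 : Finset.univ.image u = ∅ := Finset.card_eq_zero.1 (by omega)
    have h2 : (Finset.univ : Finset V) = ∅ := Finset.image_eq_empty.1 h1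
    rw [h2]; simp
  | succ n ih =>
    intro u hn hc
    rcases (Finset.univ : Finset V).eq_empty_or_nonempty with hV | hV
    · rw [hV]; simp
    have hne : (Finset.univ.image u).Nonempty := hV.image u
    obtain ⟨M, hM⟩ : ∃ M, M = (Finset.univ.image u).max' hne := ⟨_, rfl⟩
    have hMmem : M ∈ Finset.univ.image u := hM ▸ Finset.max'_mem _ _
    have hMle : ∀ i, u i ≤ M := fun i => hM ▸ Finset.le_max' _ _ (by simp)
    rcases ((Finset.univ.image u).erase M).eq_empty_or_nonempty with hs | hs
    · have hconst : ∀ i, u i = M := by
        intro i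
        by_contra hi
        have : u i ∈ (Finset.univ.image u).erase M := by simp [hi]
        rw [hs] at this
        simp at this
      have : ∑ i, u i * d i = M * ∑ i, d i := by
        rw [Finset.mul_sum]
        exact Finset.sum_congr rfl (fun i _ => by rw [hconst i])
      rw [this, h0]; simp
    · obtain ⟨M', hM'⟩ : ∃ M', M' = ((Finset.univ.image u).erase M).max' hs := ⟨_, rfl⟩
      have hM'mem : M' ∈ (Finset.univ.image u).erase M := hM' ▸ Finset.max'_mem _ _
      have hM'lt : M' < M := by
        have h1 := Finset.mem_erase.1 hM'mem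
        obtain ⟨i, _, hi⟩ := Finset.mem_image.1 h1.2
        exact lt_of_le_of_ne (hi ▸ hMle i) h1.1
      have hle' : ∀ i, u i ≠ M → u i ≤ M' := by
        intro i hi
        rw [hM']
        exact Finset.le_max' _ _ (by simp [hi])
      have himg : Finset.univ.image (fun i => min (u i) M') ⊆ (Finset.univ.image u).erase M := by
        intro a ha
        obtain ⟨i, _, rfl⟩ := Finset.mem_image.1 ha
        by_cases hi : u i = M
        · have : min (u i) M' = M' := min_eq_right (by rw [hi]; exact hM'lt.le)
          simp only [this]
          exact hM'mem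
        · have : min (u i) M' = u i := min_eq_left (hle' i hi)
          simp only [this]
          simp [hi]
      have hcard : (Finset.univ.image (fun i => min (u i) M')).card ≤ n := by
        have h1 := Finset.card_le_card himg
        rw [Finset.card_erase_of_mem hMmem] at h1
        omega
      have hlev : ∀ c : ℝ, 0 ≤ ∑ i ∈ Finset.univ.filter (fun i => c ≤ min (u i) M'), d i := by
        intro c
        by_cases hcM : c ≤ M'
        · have : Finset.univ.filter (fun i => c ≤ min (u i) M') =
              Finset.univ.filter (fun i => c ≤ u i) := by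
            ext i
            simp [hcM]
          rw [this]
          exact hc c
        · have : Finset.univ.filter (fun i => c ≤ min (u i) M') = ∅ := by
            ext i
            simp [hcM]
          rw [this]; simp
      have h1 := ih (fun i => min (u i) M') hcard hlev
      have h2 : ∑ i, u i * d i = ∑ i, min (u i) M' * d i +
          (M - M') * ∑ i ∈ Finset.univ.filter (fun i => M ≤ u i), d i := by
        rw [Finset.sum_filter, Finset.mul_sum, ← Finset.sum_add_distrib]
        refine Finset.sum_congr rfl (fun i _ => ?_)
        by_cases hi : u i = M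
        · rw [if_pos (by rw [hi]), hi, min_eq_right hM'lt.le]
          ring
        · rw [if_neg (by intro h; exact hi (le_antisymm (hMle i) h)), min_eq_left (hle' i hi)]
          ring
      rw [h2]
      have h3 := hc M
      have h4 : 0 ≤ (M - M') * ∑ i ∈ Finset.univ.filter (fun i => M ≤ u i), d i :=
        mul_nonneg (by linarith) h3
      exact add_nonneg h1 h4

/-- The faces of the base polytope: `x` maximises `u` iff all upper level sets of `u` are tight
at `x`. (→): if `L` is an upper level set, `i ∈ L`, and the intersection `T_i` of all tight sets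
containing `i` contains `j ∉ L`, then `x + ε (e_i - e_j) ∈ Bp f` increases `u`. So `L` is the union
of the tight sets `T_i`, `i ∈ L`. (←): Abel summation: `d = x - y` has `d(L) ≥ 0` for every level
set and `d(V) = 0`, hence `u ⬝ᵥ d ≥ 0`. -/
theorem mem_face_Bp {G : SimpleGraph V} {f : Finset V → ℝ} (hf : InC G f) {u x : V → ℝ} :
    x ∈ face (Bp f) u ↔ x ∈ Bp f ∧
      ∀ c : ℝ, ∑ i ∈ Finset.univ.filter (fun i => c ≤ u i), x i =
        f (Finset.univ.filter (fun i => c ≤ u i)) := by
  constructor
  · rintro ⟨hx, hmax⟩
    refine ⟨hx, fun c => ?_⟩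
    set L : Finset V := Finset.univ.filter (fun i => c ≤ u i) with hL
    have hmod : ∀ A B : Finset V, ∑ i ∈ A ∪ B, x i + ∑ i ∈ A ∩ B, x i =
        ∑ i ∈ A, x i + ∑ i ∈ B, x i := fun A B => Finset.sum_union_inter
    have htu : ∀ A B : Finset V, ∑ i ∈ A, x i = f A → ∑ i ∈ B, x i = f B →
        ∑ i ∈ A ∪ B, x i = f (A ∪ B) := by
      intro A B hA hB
      have h1 := hmod A B
      have h2 := hf.submod A B
      have h3 := hx.1 (A ∪ B)
      have h4 := hx.1 (A ∩ B)
      linarith
    have hti : ∀ A B : Finset V, ∑ i ∈ A, x i = f A → ∑ i ∈ B, x i = f B →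
        ∑ i ∈ A ∩ B, x i = f (A ∩ B) := by
      intro A B hA hB
      have h1 := hmod A B
      have h2 := hf.submod A B
      have h3 := hx.1 (A ∪ B)
      have h4 := hx.1 (A ∩ B)
      linarith
    have hsep : ∀ i ∈ L, ∀ j, j ∉ L → ∃ T : Finset V, i ∈ T ∧ j ∉ T ∧ ∑ k ∈ T, x k = f T := by
      intro i hi j hj
      by_contra hcon
      push Not at hcon
      have hij : i ≠ j := fun h => hj (h ▸ hi)
      have hui : c ≤ u i := by simpa [hL] using hi
      have huj : u j < c := by simpa [hL] using hj
      set F : Finset (Finset V) := Finset.univ.filter (fun T : Finset V => i ∈ T ∧ j ∉ T) with hF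
      have hFne : F.Nonempty := ⟨{i}, by simp [hF, hij.symm]⟩
      obtain ⟨T0, hT0, hmin⟩ := Finset.exists_min_image F (fun T => f T - ∑ k ∈ T, x k) hFne
      have hT0' : i ∈ T0 ∧ j ∉ T0 := by simpa [hF] using hT0
      have hpos : 0 < f T0 - ∑ k ∈ T0, x k := by
        have h1 := hx.1 T0
        have h2 := hcon T0 hT0'.1 hT0'.2
        have h3 : ∑ k ∈ T0, x k < f T0 := lt_of_le_of_ne h1 h2
        linarith
      set e : ℝ := f T0 - ∑ k ∈ T0, x k with he
      set y : V → ℝ := fun k => x k + e * ((if k = i then 1 else 0) - (if k = j then 1 else 0))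
        with hy
      have hsumy : ∀ S : Finset V, ∑ k ∈ S, y k = ∑ k ∈ S, x k +
          e * ((if i ∈ S then 1 else 0) - (if j ∈ S then 1 else 0)) := by
        intro S
        rw [hy, Finset.sum_add_distrib, ← Finset.mul_sum, Finset.sum_sub_distrib,
          Finset.sum_ite_eq', Finset.sum_ite_eq']
      have hyB : y ∈ Bp f := by
        refine ⟨fun S => ?_, ?_⟩
        · rw [hsumy S]
          have h1 := hx.1 S
          by_cases hiS : i ∈ S <;> by_cases hjS : j ∈ S
          · simp only [hiS, hjS, if_true]; linarith
          · simp only [hiS, hjS, if_true, if_false]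
            have h2 : e ≤ f S - ∑ k ∈ S, x k := hmin S (by simp [hF, hiS, hjS])
            linarith
          · simp only [hiS, hjS, if_true, if_false]; linarith
          · simp only [hiS, hjS, if_false]; linarith
        · rw [hsumy Finset.univ]
          simp only [Finset.mem_univ, if_true]
          have := hx.2
          linarith
      have h5 := hmax y hyB
      have h6 : u ⬝ᵥ y = u ⬝ᵥ x + e * (u i - u j) := by
        simp only [dotProduct]
        have : ∀ k, u k * y k = u k * x k + (e * (if k = i then u k else 0) -
            e * (if k = j then u k else 0)) := by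
          intro k
          simp only [hy]
          split_ifs <;> ring
        rw [Finset.sum_congr rfl (fun k _ => this k), Finset.sum_add_distrib,
          Finset.sum_sub_distrib, ← Finset.mul_sum, ← Finset.mul_sum, Finset.sum_ite_eq',
          Finset.sum_ite_eq']
        simp only [Finset.mem_univ, if_true]
        ring
      have h7 : 0 < e * (u i - u j) := mul_pos hpos (by linarith)
      linarith
    have hT : ∀ i ∈ L, ∃ T : Finset V, i ∈ T ∧ T ⊆ L ∧ ∑ k ∈ T, x k = f T := by
      intro i hi
      have key : ∀ s : Finset V, (∀ j ∈ s, j ∉ L) →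
          ∃ T : Finset V, i ∈ T ∧ (∀ j ∈ s, j ∉ T) ∧ ∑ k ∈ T, x k = f T := by
        intro s
        induction s using Finset.induction_on with
        | empty => intro _; exact ⟨Finset.univ, Finset.mem_univ _, by simp, hx.2⟩
        | insert a s ha ihs =>
          intro hs
          obtain ⟨T, h1, h2, h3⟩ := ihs (fun j hj => hs j (Finset.mem_insert_of_mem hj))
          obtain ⟨T', h1', h2', h3'⟩ := hsep i hi a (hs a (Finset.mem_insert_self _ _))
          refine ⟨T ∩ T', Finset.mem_inter.2 ⟨h1, h1'⟩, ?_, hti T T' h3 h3'⟩
          intro j hj hjT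
          rcases Finset.mem_insert.1 hj with rfl | hj
          · exact h2' (Finset.mem_inter.1 hjT).2
          · exact h2 j hj (Finset.mem_inter.1 hjT).1
      obtain ⟨T, h1, h2, h3⟩ := key (Finset.univ.filter (fun j => j ∉ L)) (by simp)
      refine ⟨T, h1, ?_, h3⟩
      intro j hj
      by_contra hjL
      exact h2 j (by simp [hjL]) hj
    have hfin : ∀ s : Finset V, s ⊆ L →
        ∃ T : Finset V, s ⊆ T ∧ T ⊆ L ∧ ∑ k ∈ T, x k = f T := by
      intro s
      induction s using Finset.induction_on with
      | empty => intro _; exact ⟨∅, by simp, by simp, by simp [hf.empty]⟩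
      | insert a s ha ihs =>
        intro hs
        obtain ⟨T, h1, h2, h3⟩ := ihs (fun j hj => hs (Finset.mem_insert_of_mem hj))
        obtain ⟨T', h1', h2', h3'⟩ := hT a (hs (Finset.mem_insert_self _ _))
        refine ⟨T ∪ T', ?_, Finset.union_subset h2 h2', htu T T' h3 h3'⟩
        intro j hj
        rcases Finset.mem_insert.1 hj with rfl | hj
        · exact Finset.mem_union_right _ h1'
        · exact Finset.mem_union_left _ (h1 hj)
    obtain ⟨T, h1, h2, h3⟩ := hfin L (Finset.Subset.refl _)
    have : T = L := Finset.Subset.antisymm h2 h1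
    rw [← this]
    exact h3
  · rintro ⟨hx, htight⟩
    refine ⟨hx, fun y hy => ?_⟩
    have h := mz8_abel (fun i => x i - y i)
      (by rw [Finset.sum_sub_distrib, hx.2, hy.2]; ring)
      _ u le_rfl (fun c => by
        rw [Finset.sum_sub_distrib, htight c]
        have := hy.1 (Finset.univ.filter (fun i => c ≤ u i))
        linarith)
    have h2 : ∑ i, u i * (x i - y i) = u ⬝ᵥ x - u ⬝ᵥ y := by
      simp only [dotProduct]
      rw [← Finset.sum_sub_distrib]
      exact Finset.sum_congr rfl (fun i _ => by ring)
    rw [h2] at h
    linarith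

end MZ
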