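import Pool.Agent.MZ.Grid

/-!
# MZ-5a: base polytopes are nonempty
-/

open scoped Pointwise Classical
open Finset Matrix

namespace MZ

variable {V : Type} [Fintype V]

private theorem greedy {G : SimpleGraph V} {f : Finset V → ℝ} (hf : InC G f) (T : Finset V) :
    ∃ x : V → ℝ, (∀ S ⊆ T, ∑ i ∈ S, x i ≤ f S) ∧ ∑ i ∈ T, x i = f T := by
  induction T using Finset.induction_on with
  | empty =>
    refine ⟨fun _ => 0, fun S hS => ?_, ?_⟩
    · rw [Finset.subset_empty.mp hS]
      simp [hf.empty]
    · simp [hf.empty]
  | insert a T ha ih =>
    obtain ⟨x, hx, hT⟩ := ih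
    let y : V → ℝ := fun i => if i = a then f (insert a T) - f T else x i
    have hy : ∀ S : Finset V, a ∉ S → ∑ i ∈ S, y i = ∑ i ∈ S, x i := by
      intro S hS
      refine Finset.sum_congr rfl fun i hi => ?_
      have : i ≠ a := fun h => hS (h ▸ hi)
      simp [y, this]
    have hya : y a = f (insert a T) - f T := by simp [y]
    refine ⟨y, fun S hS => ?_, ?_⟩
    · by_cases haS : a ∈ S
      · have h1 : S.erase a ⊆ T := by
          intro i hi
          rw [Finset.mem_erase] at hi
          exact (Finset.mem_insert.mp (hS hi.2)).resolve_left hi.1
        have h2 : ∑ i ∈ S, y i = y a + ∑ i ∈ S.erase a, y i := by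
          rw [Finset.add_sum_erase S y haS]
        have h3 := hy (S.erase a) (Finset.notMem_erase a S)
        have h4 := hx (S.erase a) h1
        have h5 := hf.submod S T
        have h6 : S ∪ T = insert a T := by
          ext i
          simp only [Finset.mem_union, Finset.mem_insert]
          constructor
          · rintro (h | h)
            · exact Finset.mem_insert.mp (hS h)
            · exact Or.inr h
          · rintro (h | h)
            · exact Or.inl (h ▸ haS)
            · exact Or.inr h
        have h7 : S ∩ T = S.erase a := by
          ext i
          simp only [Finset.mem_inter, Finset.mem_erase]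
          constructor
          · rintro ⟨h, h'⟩
            exact ⟨fun e => ha (e ▸ h'), h⟩
          · rintro ⟨h, h'⟩
            exact ⟨h', (Finset.mem_insert.mp (hS h')).resolve_left h⟩
        rw [h6, h7] at h5
        rw [h2, h3, hya]
        linarith
      · rw [hy S haS]
        refine hx S fun i hi => ?_
        exact (Finset.mem_insert.mp (hS hi)).resolve_left (fun e => haS (e ▸ hi))
    · rw [Finset.sum_insert ha, hy T ha, hya, hT]
      ring

/-- `Bp f` is nonempty: among the points with `x(S) ≤ f S` for all `S` and `-M ≤ x i` (a nonempty
compact set for large `M`) take one maximising `x(V)`; every `i` is in a tight set (else increase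
`x i`), tight sets are closed under union by submodularity, so `V` is tight. -/
theorem Bp_nonempty {G : SimpleGraph V} {f : Finset V → ℝ} (hf : InC G f) : (Bp f).Nonempty := by
  obtain ⟨x, hx, hT⟩ := greedy hf Finset.univ
  exact ⟨x, fun S => hx S (Finset.subset_univ S), hT⟩

end MZ
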