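import Pool.Agent.MZ.Defs

/-!
# MZ-1: polytopes and support functions
-/

open scoped Pointwise Classical
open Finset Matrix

namespace MZ

variable {V : Type} [Fintype V]

theorem IsPolytope.isCompact {Q : Set (V → ℝ)} (hQ : IsPolytope Q) : IsCompact Q := by
  obtain ⟨S, -, rfl⟩ := hQ
  exact S.finite_toSet.isCompact_convexHull ℝ

theorem IsPolytope.convex {Q : Set (V → ℝ)} (hQ : IsPolytope Q) : Convex ℝ Q := by
  obtain ⟨S, -, rfl⟩ := hQ
  exact convex_convexHull ℝ _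

theorem IsPolytope.nonempty {Q : Set (V → ℝ)} (hQ : IsPolytope Q) : Q.Nonempty := by
  obtain ⟨S, hS, rfl⟩ := hQ
  obtain ⟨x, hx⟩ := hS
  exact ⟨x, subset_convexHull ℝ _ (by simpa using hx)⟩

theorem IsPolytope.add {Q₁ Q₂ : Set (V → ℝ)} (h₁ : IsPolytope Q₁) (h₂ : IsPolytope Q₂) :
    IsPolytope (Q₁ + Q₂) := by
  obtain ⟨S, hS, rfl⟩ := h₁
  obtain ⟨T, hT, rfl⟩ := h₂
  refine ⟨S + T, hS.add hT, ?_⟩
  rw [Finset.coe_add, convexHull_add]

theorem IsPolytope.homothet {Q : Set (V → ℝ)} (hQ : IsPolytope Q) (c : ℝ) (t : V → ℝ) :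
    IsPolytope (c • Q + {t}) := by
  obtain ⟨S, hS, rfl⟩ := hQ
  refine ⟨S.image (fun x => c • x) + {t}, (hS.image _).add (Finset.singleton_nonempty t), ?_⟩
  rw [Finset.coe_add, Finset.coe_image, Finset.coe_singleton, convexHull_add,
    convexHull_singleton]
  have : (fun x : V → ℝ => c • x) '' (S : Set (V → ℝ)) = c • (S : Set (V → ℝ)) := rfl
  rw [this, convexHull_smul]

private theorem cont_dot (u : V → ℝ) : Continuous (fun x : V → ℝ => u ⬝ᵥ x) := by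
  unfold dotProduct
  fun_prop

private theorem IsPolytope.bdd {Q : Set (V → ℝ)} (hQ : IsPolytope Q) (u : V → ℝ) :
    BddAbove ((fun x => u ⬝ᵥ x) '' Q) :=
  (hQ.isCompact.image (cont_dot u)).bddAbove

theorem le_sp {Q : Set (V → ℝ)} (hQ : IsPolytope Q) {x : V → ℝ} (hx : x ∈ Q) (u : V → ℝ) :
    u ⬝ᵥ x ≤ sp Q u :=
  le_csSup (hQ.bdd u) ⟨x, hx, rfl⟩

private theorem sp_le {Q : Set (V → ℝ)} (hQ : IsPolytope Q) {u : V → ℝ} {a : ℝ}
    (h : ∀ x ∈ Q, u ⬝ᵥ x ≤ a) : sp Q u ≤ a := by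
  refine csSup_le (hQ.nonempty.image _) ?_
  rintro _ ⟨x, hx, rfl⟩
  exact h x hx

theorem face_nonempty {Q : Set (V → ℝ)} (hQ : IsPolytope Q) (u : V → ℝ) : (face Q u).Nonempty := by
  obtain ⟨x, hx, hm⟩ := hQ.isCompact.exists_isMaxOn hQ.nonempty (cont_dot u).continuousOn
  exact ⟨x, hx, fun y hy => hm hy⟩

theorem mem_face_iff {Q : Set (V → ℝ)} (hQ : IsPolytope Q) {u x : V → ℝ} :
    x ∈ face Q u ↔ x ∈ Q ∧ u ⬝ᵥ x = sp Q u := by
  constructor
  · rintro ⟨hx, h⟩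
    exact ⟨hx, le_antisymm (le_sp hQ hx u) (sp_le hQ h)⟩
  · rintro ⟨hx, h⟩
    exact ⟨hx, fun y hy => h ▸ le_sp hQ hy u⟩

theorem sp_add_set {Q₁ Q₂ : Set (V → ℝ)} (h₁ : IsPolytope Q₁) (h₂ : IsPolytope Q₂) (u : V → ℝ) :
    sp (Q₁ + Q₂) u = sp Q₁ u + sp Q₂ u := by
  apply le_antisymm
  · apply sp_le (h₁.add h₂)
    rintro _ ⟨x, hx, y, hy, rfl⟩
    simp only [dotProduct_add]
    exact add_le_add (le_sp h₁ hx u) (le_sp h₂ hy u)
  · obtain ⟨x, hx⟩ := face_nonempty h₁ u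
    obtain ⟨y, hy⟩ := face_nonempty h₂ u
    rw [mem_face_iff h₁] at hx
    rw [mem_face_iff h₂] at hy
    rw [← hx.2, ← hy.2, ← dotProduct_add]
    exact le_sp (h₁.add h₂) (Set.add_mem_add hx.1 hy.1) u

theorem sp_homothet {Q : Set (V → ℝ)} (hQ : IsPolytope Q) {c : ℝ} (hc : 0 ≤ c) (t u : V → ℝ) :
    sp (c • Q + {t}) u = c * sp Q u + u ⬝ᵥ t := by
  apply le_antisymm
  · apply sp_le (hQ.homothet c t)
    rintro _ ⟨_, ⟨x, hx, rfl⟩, y, hy, rfl⟩
    have hy' : y = t := hy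
    subst hy'
    have h := le_sp hQ hx u
    simp only [dotProduct_add, dotProduct_smul, smul_eq_mul]
    nlinarith [mul_le_mul_of_nonneg_left h hc]
  · obtain ⟨x, hx⟩ := face_nonempty hQ u
    rw [mem_face_iff hQ] at hx
    have h : u ⬝ᵥ (c • x + t) ≤ sp (c • Q + {t}) u :=
      le_sp (hQ.homothet c t) (Set.add_mem_add (Set.smul_mem_smul_set hx.1) rfl) u
    simpa [dotProduct_add, dotProduct_smul, hx.2] using h

theorem sp_smul {Q : Set (V → ℝ)} (hQ : IsPolytope Q) {c : ℝ} (hc : 0 ≤ c) (u : V → ℝ) :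
    sp Q (c • u) = c * sp Q u := by
  apply le_antisymm
  · apply sp_le hQ
    intro x hx
    rw [smul_dotProduct, smul_eq_mul]
    exact mul_le_mul_of_nonneg_left (le_sp hQ hx u) hc
  · obtain ⟨x, hx⟩ := face_nonempty hQ u
    rw [mem_face_iff hQ] at hx
    rw [← hx.2]
    have h := le_sp hQ hx.1 (c • u)
    rwa [smul_dotProduct, smul_eq_mul] at h

theorem sp_add_le {Q : Set (V → ℝ)} (hQ : IsPolytope Q) (u v : V → ℝ) :
    sp Q (u + v) ≤ sp Q u + sp Q v := by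
  apply sp_le hQ
  intro x hx
  rw [add_dotProduct]
  exact add_le_add (le_sp hQ hx u) (le_sp hQ hx v)

private theorem sub_of_sp {Q₁ Q₂ : Set (V → ℝ)} (h₁ : IsPolytope Q₁) (h₂ : IsPolytope Q₂)
    (h : ∀ u, sp Q₁ u ≤ sp Q₂ u) : Q₁ ⊆ Q₂ := by
  intro x hx
  by_contra hx2
  obtain ⟨f, a, ha, hb⟩ := geometric_hahn_banach_closed_point h₂.convex h₂.isCompact.isClosed hx2
  -- represent `f` by a vector
  set u : V → ℝ := fun i => f (Pi.single i 1) with hu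
  have hf : ∀ y : V → ℝ, f y = u ⬝ᵥ y := by
    intro y
    have hy : y = ∑ i, y i • (Pi.single i (1 : ℝ) : V → ℝ) := by
      funext j
      simp [Finset.sum_apply, Pi.single_apply]
    conv_lhs => rw [hy]
    rw [map_sum]
    unfold dotProduct
    refine Finset.sum_congr rfl (fun i _ => ?_)
    rw [map_smul, smul_eq_mul, hu]
    ring
  have h1 : u ⬝ᵥ x ≤ sp Q₁ u := le_sp h₁ hx u
  have h2 : sp Q₂ u ≤ a := sp_le h₂ (fun y hy => by rw [← hf]; exact (ha y hy).le)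
  have h3 := h u
  rw [hf] at hb
  linarith

/-- A polytope is determined by its support function (separation). -/
theorem eq_of_sp {Q₁ Q₂ : Set (V → ℝ)} (h₁ : IsPolytope Q₁) (h₂ : IsPolytope Q₂)
    (h : ∀ u, sp Q₁ u = sp Q₂ u) : Q₁ = Q₂ :=
  Set.Subset.antisymm (sub_of_sp h₁ h₂ (fun u => (h u).le))
    (sub_of_sp h₂ h₁ (fun u => (h u).ge))

end MZ
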