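import Pool.Agent.MZ.BaseN
import Pool.Agent.MZ.Poly

/-!
# MZ-5b: base polytopes are polytopes
-/

open scoped Pointwise Classical
open Finset Matrix

namespace MZ

variable {V : Type} [Fintype V]

private theorem Bp_convex (f : Finset V → ℝ) : Convex ℝ (Bp f) := by
  intro x hx y hy a b ha hb hab
  obtain ⟨hx1, hx2⟩ := hx
  obtain ⟨hy1, hy2⟩ := hy
  have key : ∀ S : Finset V, ∑ i ∈ S, (a • x + b • y) i = a * ∑ i ∈ S, x i + b * ∑ i ∈ S, y i := by
    intro S
    simp only [Pi.add_apply, Pi.smul_apply, smul_eq_mul, Finset.sum_add_distrib, Finset.mul_sum]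
  refine ⟨fun S => ?_, ?_⟩
  · rw [key]
    have h1 := mul_le_mul_of_nonneg_left (hx1 S) ha
    have h2 := mul_le_mul_of_nonneg_left (hy1 S) hb
    have h3 : a * f S + b * f S = f S := by rw [← add_mul, hab, one_mul]
    linarith
  · rw [key, hx2, hy2, ← add_mul, hab, one_mul]

private theorem Bp_closed (f : Finset V → ℝ) : IsClosed (Bp f) := by
  have h1 : IsClosed {x : V → ℝ | ∀ S : Finset V, ∑ i ∈ S, x i ≤ f S} := by
    rw [Set.ofPred_forall]
    refine isClosed_iInter fun S => isClosed_le ?_ continuous_const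
    exact continuous_finsetSum _ fun i _ => continuous_apply i
  have h2 : IsClosed {x : V → ℝ | ∑ i, x i = f Finset.univ} := by
    refine isClosed_eq ?_ continuous_const
    exact continuous_finsetSum _ fun i _ => continuous_apply i
  exact h1.inter h2

private theorem Bp_compact (f : Finset V → ℝ) : IsCompact (Bp f) := by
  refine IsCompact.of_isClosed_subset
    (isCompact_univ_pi fun i => (isCompact_Icc : IsCompact (Set.Icc (f Finset.univ - f (Finset.univ.erase i)) (f {i}))))
    (Bp_closed f) ?_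
  intro x hx
  obtain ⟨hx1, hx2⟩ := hx
  rw [Set.mem_univ_pi]
  intro i
  have h1 := hx1 {i}
  have h2 := hx1 (Finset.univ.erase i)
  rw [Finset.sum_singleton] at h1
  have h3 := Finset.add_sum_erase Finset.univ x (Finset.mem_univ i)
  rw [hx2] at h3
  exact ⟨by linarith, h1⟩

/-- the tight sets of `x` -/
private noncomputable def tight (f : Finset V → ℝ) (x : V → ℝ) : Finset (Finset V) :=
  Finset.univ.filter (fun S => ∑ i ∈ S, x i = f S)

/-- An extreme point is determined by its tight sets. -/
private theorem eq_of_tight {f : Finset V → ℝ} {x y : V → ℝ} (hx : x ∈ (Bp f).extremePoints ℝ)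
    (hy : y ∈ Bp f) (h : tight f x = tight f y) : x = y := by
  by_contra hne
  have hxB : x ∈ Bp f := hx.1
  obtain ⟨hx1, hx2⟩ := hxB
  obtain ⟨hy1, hy2⟩ := hy
  set d : V → ℝ := y - x with hd
  -- `Σ_S d = 0` for tight sets
  have hd0 : ∀ S : Finset V, ∑ i ∈ S, x i = f S → ∑ i ∈ S, d i = 0 := by
    intro S hS
    have h1 : S ∈ tight f x := by simp [tight, hS]
    rw [h] at h1
    have h2 : ∑ i ∈ S, y i = f S := by simpa [tight] using h1
    simp only [hd, Pi.sub_apply, Finset.sum_sub_distrib]
    rw [h2, hS, sub_self]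
  -- a small `ε`
  obtain ⟨ε, hε, hε'⟩ : ∃ ε : ℝ, 0 < ε ∧ ∀ S : Finset V, ε * |∑ i ∈ S, d i| ≤ f S - ∑ i ∈ S, x i := by
    have hone : ∀ S : Finset V, ∃ ε : ℝ, 0 < ε ∧ ε * |∑ i ∈ S, d i| ≤ f S - ∑ i ∈ S, x i := by
      intro S
      rcases (hx1 S).eq_or_lt with hS | hS
      · exact ⟨1, one_pos, by rw [hd0 S hS, hS]; simp⟩
      · refine ⟨(f S - ∑ i ∈ S, x i) / (|∑ i ∈ S, d i| + 1), ?_, ?_⟩
        · apply div_pos (by linarith)
          positivity
        · rw [div_mul_eq_mul_div, div_le_iff₀ (by positivity)]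
          apply mul_le_mul_of_nonneg_left _ (by linarith)
          linarith
    choose e he1 he2 using hone
    have hne' : (Finset.univ : Finset (Finset V)).Nonempty := ⟨∅, Finset.mem_univ _⟩
    refine ⟨Finset.univ.inf' hne' e, ?_, fun S => ?_⟩
    · rw [Finset.lt_inf'_iff]
      exact fun S _ => he1 S
    · refine le_trans ?_ (he2 S)
      exact mul_le_mul_of_nonneg_right (Finset.inf'_le _ (Finset.mem_univ S)) (abs_nonneg _)
  have hmem : ∀ s : ℝ, |s| ≤ ε → x + s • d ∈ Bp f := by
    intro s hs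
    have key : ∀ S : Finset V, ∑ i ∈ S, (x + s • d) i = ∑ i ∈ S, x i + s * ∑ i ∈ S, d i := by
      intro S
      simp only [Pi.add_apply, Pi.smul_apply, smul_eq_mul, Finset.sum_add_distrib, Finset.mul_sum]
    refine ⟨fun S => ?_, ?_⟩
    · rw [key]
      have h1 := hε' S
      have h2 : s * ∑ i ∈ S, d i ≤ ε * |∑ i ∈ S, d i| := by
        calc s * ∑ i ∈ S, d i ≤ |s * ∑ i ∈ S, d i| := le_abs_self _
          _ = |s| * |∑ i ∈ S, d i| := abs_mul _ _
          _ ≤ ε * |∑ i ∈ S, d i| := mul_le_mul_of_nonneg_right hs (abs_nonneg _)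
      linarith
    · rw [key, hd0 Finset.univ hx2, hx2]
      simp
  have hA : x + ε • d ∈ Bp f := hmem ε (abs_of_pos hε).le
  have hB : x + (-ε) • d ∈ Bp f := hmem (-ε) (by rw [abs_neg, abs_of_pos hε])
  have hseg : x ∈ openSegment ℝ (x + ε • d) (x + (-ε) • d) := by
    refine ⟨1 / 2, 1 / 2, by norm_num, by norm_num, by norm_num, ?_⟩
    ext i
    simp only [Pi.add_apply, Pi.smul_apply, smul_eq_mul]
    ring
  have h3 := hx.2 hA hB hseg
  have h4 : x + ε • d = x := h3
  have h5 : ε • d = 0 := by simpa using h4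
  have h6 : d = 0 := by
    rcases smul_eq_zero.1 h5 with h | h
    · exact absurd h hε.ne'
    · exact h
  apply hne
  rw [hd, sub_eq_zero] at h6
  exact h6.symm

/-- `Bp f` is a polytope: it is compact and convex, and an extreme point is determined by its
family of tight sets, so there are finitely many extreme points (Krein–Milman). -/
theorem Bp_polytope {G : SimpleGraph V} {f : Finset V → ℝ} (hf : InC G f) : IsPolytope (Bp f) := by
  have hfin : ((Bp f).extremePoints ℝ).Finite := by
    apply Set.Finite.of_finite_image (f := tight f) (Set.toFinite _)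
    intro x hx y hy h
    exact eq_of_tight hx hy.1 h
  have hKM := closure_convexHull_extremePoints (Bp_compact f) (Bp_convex f)
  have hcl : IsClosed (convexHull ℝ ((Bp f).extremePoints ℝ)) :=
    (hfin.isCompact_convexHull ℝ).isClosed
  rw [hcl.closure_eq] at hKM
  refine ⟨hfin.toFinset, ?_, ?_⟩
  · rw [Set.Finite.toFinset_nonempty]
    by_contra hemp
    rw [Set.not_nonempty_iff_eq_empty] at hemp
    rw [hemp, convexHull_empty] at hKM
    have := Bp_nonempty hf
    rw [← hKM] at this
    exact Set.not_nonempty_empty this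
  · rw [hfin.coe_toFinset]
    exact hKM.symm

end MZ
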