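import Pool.Agent.MZ.Defs

/-!
# MZ-19a: small counts
-/

open scoped Classical
open Finset

namespace MZ

variable {V : Type} [Fintype V]

private theorem clique_sub {G : SimpleGraph V} {X e : Finset V} (hX : G.IsClique (X : Set V))
    (he : e ⊆ X) : G.IsClique (e : Set V) :=
  hX.subset (by exact_mod_cast he)

theorem numFl_of_small {G : SimpleGraph V} {X : Finset V} (hX : G.IsClique (X : Set V))
    (h : X.card ≤ 2) : numFl G X = numCl G X := by
  unfold numFl numCl
  have hf : X.powerset.filter (fun e : Finset V => G.IsNClique 2 e)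
      = X.powerset.filter (fun K : Finset V => 2 ≤ K.card ∧ G.IsClique (K : Set V)) := by
    apply Finset.filter_congr
    intro e he
    rw [Finset.mem_powerset] at he
    have hc := Finset.card_le_card he
    rw [SimpleGraph.isNClique_iff]
    constructor
    · rintro ⟨h1, h2⟩
      exact ⟨h2.ge, h1⟩
    · rintro ⟨h1, h2⟩
      exact ⟨h2, by omega⟩
  rw [← hf, Finset.card_eq_sum_ones]
  apply Finset.sum_congr rfl
  intro e he
  rw [Finset.mem_filter, Finset.mem_powerset, SimpleGraph.isNClique_iff] at he
  obtain ⟨h1, h2, h3⟩ := he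
  have heX : e = X := Finset.eq_of_subset_of_card_le h1 (by omega)
  have : X.filter (fun w => ∀ v ∈ e, G.Adj w v) = ∅ := by
    rw [Finset.filter_eq_empty_iff]
    intro w hw hall
    exact G.loopless.irrefl w (hall w (heX ▸ hw))
  rw [this, Finset.card_empty, pow_zero]

theorem numFl_triangle {G : SimpleGraph V} {X : Finset V} (hX : G.IsNClique 3 X) :
    numFl G X = numCl G X + 2 := by
  rw [SimpleGraph.isNClique_iff] at hX
  obtain ⟨hX, h3⟩ := hX
  unfold numFl numCl
  have hf : X.powerset.filter (fun e : Finset V => G.IsNClique 2 e) = X.powersetCard 2 := by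
    ext e
    rw [Finset.mem_filter, Finset.mem_powerset, Finset.mem_powersetCard,
      SimpleGraph.isNClique_iff]
    constructor
    · rintro ⟨h1, _, h2⟩
      exact ⟨h1, h2⟩
    · rintro ⟨h1, h2⟩
      exact ⟨h1, clique_sub hX h1, h2⟩
  have hg : X.powerset.filter (fun K : Finset V => 2 ≤ K.card ∧ G.IsClique (K : Set V))
      = X.powersetCard 2 ∪ X.powersetCard 3 := by
    ext e
    rw [Finset.mem_filter, Finset.mem_powerset, Finset.mem_union, Finset.mem_powersetCard,
      Finset.mem_powersetCard]
    constructor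
    · rintro ⟨h1, h2, _⟩
      have := Finset.card_le_card h1
      rcases (show e.card = 2 ∨ e.card = 3 by omega) with h | h
      · exact Or.inl ⟨h1, h⟩
      · exact Or.inr ⟨h1, h⟩
    · rintro (⟨h1, h2⟩ | ⟨h1, h2⟩)
      · exact ⟨h1, by omega, clique_sub hX h1⟩
      · exact ⟨h1, by omega, clique_sub hX h1⟩
  have hdisj : Disjoint (X.powersetCard 2) (X.powersetCard 3) := by
    rw [Finset.disjoint_left]
    intro e he he'
    rw [Finset.mem_powersetCard] at he he'
    omega
  rw [hf, hg, Finset.card_union_of_disjoint hdisj, Finset.card_powersetCard,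
    Finset.card_powersetCard, h3]
  have hs : ∀ e ∈ X.powersetCard 2,
      2 ^ (X.filter (fun w => ∀ v ∈ e, G.Adj w v)).card = 2 := by
    intro e he
    rw [Finset.mem_powersetCard] at he
    obtain ⟨h1, h2⟩ := he
    have : X.filter (fun w => ∀ v ∈ e, G.Adj w v) = X \ e := by
      ext w
      rw [Finset.mem_filter, Finset.mem_sdiff]
      constructor
      · rintro ⟨hw, hall⟩
        exact ⟨hw, fun hwe => G.loopless.irrefl w (hall w hwe)⟩
      · rintro ⟨hw, hwe⟩
        refine ⟨hw, fun v hv => hX (by exact_mod_cast hw) (by exact_mod_cast h1 hv) ?_⟩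
        rintro rfl
        exact hwe hv
    rw [this, Finset.card_sdiff_of_subset h1, h3, h2]
    norm_num
  rw [Finset.sum_congr rfl hs, Finset.sum_const, Finset.card_powersetCard, h3]
  decide

/-- a partition of `W` without edges between the parts gives at least two components -/
theorem two_le_comps {G : SimpleGraph V} {A B : Finset V} (hA : A.Nonempty) (hB : B.Nonempty)
    (hAB : Disjoint A B) (h : ∀ a ∈ A, ∀ b ∈ B, ¬ G.Adj a b) : 2 ≤ comps G (A ∪ B) := by
  unfold comps
  obtain ⟨a, ha⟩ := hA
  obtain ⟨b, hb⟩ := hB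
  have key : ∀ x y : ((A ∪ B : Finset V) : Set V),
      (G.induce ((A ∪ B : Finset V) : Set V)).Reachable x y → x.1 ∈ A → y.1 ∈ A := by
    intro x y hxy
    obtain ⟨p⟩ := hxy
    induction p with
    | nil => exact id
    | @cons u v w huv _ ih =>
      intro hu
      apply ih
      have hv : v.1 ∈ A ∪ B := by exact_mod_cast v.2
      rcases Finset.mem_union.1 hv with hv | hv
      · exact hv
      · exact absurd huv (h u.1 hu v.1 hv)
  have haU : a ∈ ((A ∪ B : Finset V) : Set V) := by
    exact_mod_cast Finset.mem_union_left B ha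
  have hbU : b ∈ ((A ∪ B : Finset V) : Set V) := by
    exact_mod_cast Finset.mem_union_right A hb
  have hne : (G.induce ((A ∪ B : Finset V) : Set V)).connectedComponentMk ⟨a, haU⟩
      ≠ (G.induce ((A ∪ B : Finset V) : Set V)).connectedComponentMk ⟨b, hbU⟩ := by
    intro hh
    have := key _ _ (SimpleGraph.ConnectedComponent.eq.1 hh) ha
    exact (Finset.disjoint_left.1 hAB) this hb
  haveI : Nontrivial (G.induce ((A ∪ B : Finset V) : Set V)).ConnectedComponent := ⟨_, _, hne⟩
  exact Finite.one_lt_card

end MZ
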