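import Pool.Agent.MZ.Defs

/-!
# MZ-4b: comonotone additive functions
-/

open scoped Classical
open Finset

namespace MZ

variable {V : Type} [Fintype V]

private theorem eq_of_ind_nonneg (h₁ h₂ : (V → ℝ) → ℝ)
    (a₁ : ∀ u v : V → ℝ, (∀ i j, ¬ (u j < u i ∧ v i < v j)) → h₁ (u + v) = h₁ u + h₁ v)
    (a₂ : ∀ u v : V → ℝ, (∀ i j, ¬ (u j < u i ∧ v i < v j)) → h₂ (u + v) = h₂ u + h₂ v)
    (s₁ : ∀ (c : ℝ), 0 ≤ c → ∀ u, h₁ (c • u) = c * h₁ u)
    (s₂ : ∀ (c : ℝ), 0 ≤ c → ∀ u, h₂ (c • u) = c * h₂ u)
    (h : ∀ S : Finset V, h₁ (ind S) = h₂ (ind S)) :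
    ∀ (n : ℕ) (u : V → ℝ), (∀ i, 0 ≤ u i) → (Finset.univ.filter (fun i => 0 < u i)).card ≤ n →
      h₁ u = h₂ u := by
  intro n
  induction n with
  | zero =>
    intro u hu hc
    have hz : u = (0 : ℝ) • u := by
      have he : (Finset.univ.filter (fun i => 0 < u i)) = ∅ := Finset.card_eq_zero.mp (by omega)
      funext i
      have hi : ¬ 0 < u i := by
        intro hi
        have : i ∈ (Finset.univ.filter (fun i => 0 < u i)) := by simp [hi]
        rw [he] at this
        simp at this
      have := hu i
      simp only [Pi.smul_apply, smul_eq_mul, zero_mul]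
      linarith [not_lt.mp hi]
    rw [hz, s₁ 0 le_rfl, s₂ 0 le_rfl]
    simp
  | succ n ih =>
    intro u hu hc
    by_cases hne : (Finset.univ.filter (fun i => 0 < u i)).Nonempty
    · set S := Finset.univ.filter (fun i => 0 < u i) with hS
      obtain ⟨k, hk, hmin⟩ := Finset.exists_min_image S u hne
      have hkS : 0 < u k := by
        have := hk
        rw [hS, Finset.mem_filter] at this
        exact this.2
      set v : V → ℝ := fun i => u i - u k * ind S i with hv
      have hsum : u = v + u k • ind S := by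
        funext i
        simp [hv]
      have hout : ∀ i, i ∉ S → u i = 0 := by
        intro i hi
        rw [hS, Finset.mem_filter] at hi
        have h1 := hu i
        have h2 : ¬ 0 < u i := fun h' => hi ⟨Finset.mem_univ _, h'⟩
        linarith [not_lt.mp h2]
      have hv0 : ∀ i, 0 ≤ v i := by
        intro i
        by_cases hi : i ∈ S
        · have := hmin i hi
          simp [hv, ind, hi]
          exact this
        · simp [hv, ind, hi]
          exact hu i
      have hcomo : ∀ i j, ¬ (v j < v i ∧ (u k • ind S) i < (u k • ind S) j) := by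
        rintro i j ⟨h1, h2⟩
        by_cases hi : i ∈ S
        · by_cases hj : j ∈ S
          · simp [ind, hi, hj] at h2
          · simp [ind, hi, hj] at h2
            linarith
        · have h3 : v i = 0 := by
            simp [hv, ind, hi]
            exact hout i hi
          have := hv0 j
          linarith
      have hcard : (Finset.univ.filter (fun i => 0 < v i)).card ≤ n := by
        have hsub : (Finset.univ.filter (fun i => 0 < v i)) ⊂ S := by
          refine ⟨?_, ?_⟩
          · intro i hi
            rw [Finset.mem_filter] at hi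
            by_contra hiS
            have h3 : v i = 0 := by
              simp [hv, ind, hiS]
              exact hout i hiS
            linarith [hi.2]
          · intro hsub
            have := hsub hk
            rw [Finset.mem_filter] at this
            have h3 : v k = 0 := by
              simp [hv, ind, hk]
            linarith [this.2]
        have := Finset.card_lt_card hsub
        omega
      have e := ih v hv0 hcard
      calc h₁ u = h₁ (v + u k • ind S) := by rw [← hsum]
        _ = h₁ v + h₁ (u k • ind S) := a₁ _ _ hcomo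
        _ = h₂ v + h₂ (u k • ind S) := by
            rw [e, s₁ _ hkS.le, s₂ _ hkS.le, h S]
        _ = h₂ (v + u k • ind S) := (a₂ _ _ hcomo).symm
        _ = h₂ u := by rw [← hsum]
    · exact ih u hu (by
        rw [Finset.not_nonempty_iff_eq_empty] at hne
        rw [hne]; simp)

/-- Two positively homogeneous functions that are additive on comonotone pairs and agree on
indicator vectors are equal. (`u = m • 1 + u'` with `min u' = 0`, then induction on the size of the
support of `u'`: subtract `δ • ind (supp u')` with `δ` the smallest positive value.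
`h (-1) = -h 1` because `1, -1` are comonotone and `h 0 = 0`.) -/
theorem eq_of_ind (h₁ h₂ : (V → ℝ) → ℝ)
    (a₁ : ∀ u v : V → ℝ, (∀ i j, ¬ (u j < u i ∧ v i < v j)) → h₁ (u + v) = h₁ u + h₁ v)
    (a₂ : ∀ u v : V → ℝ, (∀ i j, ¬ (u j < u i ∧ v i < v j)) → h₂ (u + v) = h₂ u + h₂ v)
    (s₁ : ∀ (c : ℝ), 0 ≤ c → ∀ u, h₁ (c • u) = c * h₁ u)
    (s₂ : ∀ (c : ℝ), 0 ≤ c → ∀ u, h₂ (c • u) = c * h₂ u)
    (h : ∀ S : Finset V, h₁ (ind S) = h₂ (ind S)) (u : V → ℝ) : h₁ u = h₂ u := by
  have hc0 : 0 ≤ ∑ j, |u j| := Finset.sum_nonneg (fun j _ => abs_nonneg _)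
  have hcomo : ∀ i j, ¬ (u j < u i ∧
      ((∑ j, |u j|) • ind (Finset.univ : Finset V)) i <
        ((∑ j, |u j|) • ind (Finset.univ : Finset V)) j) := by
    rintro i j ⟨-, h2⟩
    simp [ind] at h2
  have hpos : ∀ i, 0 ≤ (u + (∑ j, |u j|) • ind (Finset.univ : Finset V)) i := by
    intro i
    have h1 : |u i| ≤ ∑ j, |u j| :=
      Finset.single_le_sum (f := fun j => |u j|) (fun j _ => abs_nonneg _) (Finset.mem_univ i)
    have h2 := neg_abs_le (u i)
    simp [ind]
    linarith
  have e := eq_of_ind_nonneg h₁ h₂ a₁ a₂ s₁ s₂ h _ _ hpos le_rfl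
  rw [a₁ _ _ hcomo, a₂ _ _ hcomo, s₁ _ hc0, s₂ _ hc0, h Finset.univ] at e
  linarith

end MZ
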