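import Mathlib

/-!
# Graphical zonotopes, deformations, Minkowski dimension: definitions

`V` is the (finite) vertex set of the graph, the ambient space is `V → ℝ`.
-/

open scoped Pointwise Classical
open Finset Matrix

namespace MZ

variable {V : Type} [Fintype V]

/-! ## Polytopes and deformations -/

/-- A polytope: the convex hull of a nonempty finite set of points of `ℝ^V`. -/
def IsPolytope (P : Set (V → ℝ)) : Prop :=
  ∃ S : Finset (V → ℝ), S.Nonempty ∧ P = convexHull ℝ (S : Set (V → ℝ))

/-- The face of `P` on which the linear functional `x ↦ u ⬝ᵥ x` is maximal. -/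
def face (P : Set (V → ℝ)) (u : V → ℝ) : Set (V → ℝ) :=
  {x | x ∈ P ∧ ∀ y ∈ P, u ⬝ᵥ y ≤ u ⬝ᵥ x}

/-- The (outer) normal fan of `P`: the set of its closed cones. The cone of the face `face P w`
consists of all `u` that are maximal on all of that face. -/
def normalFan (P : Set (V → ℝ)) : Set (Set (V → ℝ)) :=
  {C | ∃ w, C = {u | face P w ⊆ face P u}}

/-- `Q` is a deformation of `P`: a polytope each cone of whose normal fan is a union of cones of
the normal fan of `P`. -/
def IsDeformation (P Q : Set (V → ℝ)) : Prop :=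
  IsPolytope Q ∧ ∀ C ∈ normalFan Q, ∃ D ⊆ normalFan P, C = ⋃₀ D

/-- `Q` is the polytope associated to a ray of the deformation cone of `P`: a deformation of `P`
that is not a point, and whenever it is the Minkowski sum of two deformations of `P`, both are
translates of nonnegative dilates of `Q`. -/
def IsRay (P Q : Set (V → ℝ)) : Prop :=
  IsDeformation P Q ∧ (∀ x, Q ≠ {x}) ∧
    ∀ Q₁ Q₂, IsDeformation P Q₁ → IsDeformation P Q₂ → Q = Q₁ + Q₂ →
      ∃ (c₁ c₂ : ℝ) (t₁ t₂ : V → ℝ), 0 ≤ c₁ ∧ 0 ≤ c₂ ∧
        Q₁ = c₁ • Q + {t₁} ∧ Q₂ = c₂ • Q + {t₂}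

/-- The Minkowski dimension of `P`: the largest dimension of a polytope associated to a ray of
the deformation cone of `P`. -/
noncomputable def dimMink (P : Set (V → ℝ)) : ℕ :=
  sSup {d | ∃ Q, IsRay P Q ∧ d = Module.finrank ℝ (vectorSpan ℝ Q)}

/-- The segment `[e_i, e_j]` for the edge `s = {i, j}`. -/
def seg (s : Sym2 V) : Set (V → ℝ) :=
  convexHull ℝ {x | ∃ i ∈ s, x = Pi.single i 1}

/-- The graphical zonotope: the Minkowski sum of the segments `[e_i, e_j]` over all edges. -/
noncomputable def Z (G : SimpleGraph V) : Set (V → ℝ) :=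
  ∑ s ∈ (Set.toFinite G.edgeSet).toFinset, seg s

/-! ## Combinatorics -/

/-- The number of connected components of the subgraph induced on `W`. -/
noncomputable def comps (G : SimpleGraph V) (W : Finset V) : ℕ :=
  Nat.card (G.induce (W : Set V)).ConnectedComponent

/-- `D(X)`: the number of cliques with at least two vertices contained in `X`. -/
noncomputable def numCl (G : SimpleGraph V) (X : Finset V) : ℕ :=
  (X.powerset.filter (fun K : Finset V => 2 ≤ K.card ∧ G.IsClique (K : Set V))).card

/-- `N(X)`: the sum over all edges `e` contained in `X` of `2 ^ (number of common neighbours of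
the two ends of `e` inside `X`)`. -/
noncomputable def numFl (G : SimpleGraph V) (X : Finset V) : ℕ :=
  ∑ e ∈ X.powerset.filter (fun e : Finset V => G.IsNClique 2 e),
    2 ^ (X.filter (fun w => ∀ v ∈ e, G.Adj w v)).card

/-- `H` induces a 3-tree on `W`: start with a complete graph on four vertices, then repeatedly
add a vertex whose neighbours are exactly the three vertices of a triangle. -/
inductive IsTree3 (H : SimpleGraph V) : Finset V → Prop
  | base (s : Finset V) : H.IsNClique 4 s → IsTree3 H s
  | step (W T : Finset V) (v : V) : IsTree3 H W → T ⊆ W → H.IsNClique 3 T → v ∉ W →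
      (∀ w ∈ W, H.Adj v w ↔ w ∈ T) → IsTree3 H (insert v W)

/-- Every triangle inside `W` is contained in at most three complete graphs on four vertices
inside `W`. -/
def Thin (H : SimpleGraph V) (W : Finset V) : Prop :=
  ∀ T ⊆ W, H.IsNClique 3 T → (W.filter (fun v => ∀ t ∈ T, H.Adj v t)).card ≤ 3

/-- Chordal graphs: every cycle with at least four vertices has a chord. -/
def Chordal (G : SimpleGraph V) : Prop :=
  ∀ (v : V) (c : G.Walk v v), c.IsCycle → 4 ≤ c.length →
    ∃ x ∈ c.support, ∃ y ∈ c.support, G.Adj x y ∧ s(x, y) ∉ c.edges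

/-! ## Functions on sets -/

/-- the curvature (second difference with the sign of submodularity) -/
noncomputable def cv (f : Finset V → ℝ) (i j : V) (S : Finset V) : ℝ :=
  f (insert i S) + f (insert j S) - f (insert i (insert j S)) - f S

/-- the cone of submodular functions that are modular across the non-edges of `G` -/
structure InC (G : SimpleGraph V) (f : Finset V → ℝ) : Prop where
  empty : f ∅ = 0
  nonneg : ∀ i j S, i ≠ j → i ∉ S → j ∉ S → 0 ≤ cv f i j S
  nonadj : ∀ i j S, i ≠ j → i ∉ S → j ∉ S → ¬ G.Adj i j → cv f i j S = 0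

/-- extreme elements of the cone (modulo modular functions) -/
def Ext (G : SimpleGraph V) (f : Finset V → ℝ) : Prop :=
  InC G f ∧ (∃ i j S, i ≠ j ∧ i ∉ S ∧ j ∉ S ∧ 0 < cv f i j S) ∧
    ∀ f₁ f₂, InC G f₁ → InC G f₂ → (∀ S, f S = f₁ S + f₂ S) →
      ∃ c : ℝ, ∀ i j S, i ≠ j → i ∉ S → j ∉ S → cv f₁ i j S = c * cv f i j S

/-- the vertices at which the function is not modular -/
noncomputable def supV (f : Finset V → ℝ) : Finset V :=
  Finset.univ.filter (fun i => ∃ j S, i ≠ j ∧ i ∉ S ∧ j ∉ S ∧ 0 < cv f i j S)

/-- the support function of `Q` -/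
noncomputable def sp (Q : Set (V → ℝ)) (u : V → ℝ) : ℝ := sSup ((fun x => u ⬝ᵥ x) '' Q)

/-- the indicator vector of `S` -/
noncomputable def ind (S : Finset V) : V → ℝ := fun i => if i ∈ S then 1 else 0

/-- the function on sets given by the support function -/
noncomputable def fQ (Q : Set (V → ℝ)) (S : Finset V) : ℝ := sp Q (ind S)

/-- the base polytope of a function on sets -/
def Bp (f : Finset V → ℝ) : Set (V → ℝ) :=
  {x | (∀ S : Finset V, ∑ i ∈ S, x i ≤ f S) ∧ ∑ i, x i = f Finset.univ}

end MZ
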