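import Pool.Agent.MZ.Defs

/-!
# MZ-3: from elementary second differences to general ones
-/

open scoped Classical
open Finset

namespace MZ

variable {V : Type} [Fintype V]

/-- one element against a set -/
private lemma grid_aux1 {f : Finset V → ℝ} (i : V) (M Y : Finset V) (hiY : i ∉ Y) (hiM : i ∉ M)
    (hd : Disjoint M Y)
    (h : ∀ j ∈ Y, ∀ S, M ⊆ S → S ⊆ M ∪ Y → i ∉ S → j ∉ S → 0 ≤ cv f i j S) :
    f (insert i (M ∪ Y)) + f M ≤ f (insert i M) + f (M ∪ Y) := by
  induction Y using Finset.induction_on with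
  | empty => simp
  | insert j Y hj ih =>
    have hiY' : i ∉ Y := fun hh => hiY (Finset.mem_insert_of_mem hh)
    have hij : i ≠ j := by rintro rfl; exact hiY (Finset.mem_insert_self _ _)
    have hd' : Disjoint M Y := Finset.disjoint_of_subset_right (Finset.subset_insert j Y) hd
    have hjM : j ∉ M := fun hh =>
      (Finset.disjoint_left.1 hd hh) (Finset.mem_insert_self _ _)
    have h1 := ih hiY' hd' (fun j' hj' S hS1 hS2 hS3 hS4 =>
      h j' (Finset.mem_insert_of_mem hj') S hS1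
        (hS2.trans (Finset.union_subset_union_right (Finset.subset_insert j Y))) hS3 hS4)
    have h2 := h j (Finset.mem_insert_self _ _) (M ∪ Y) Finset.subset_union_left
      (Finset.union_subset_union_right (Finset.subset_insert j Y))
      (by simp [hiM, hiY']) (by simp [hjM, hj])
    have h3 : M ∪ insert j Y = insert j (M ∪ Y) := Finset.union_insert j M Y
    rw [h3]
    unfold cv at h2
    linarith

/-- a set against a set -/
private lemma grid_aux2 {f : Finset V → ℝ} (M X Y : Finset V) (hXY : Disjoint X Y)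
    (hMX : Disjoint M X) (hMY : Disjoint M Y)
    (h : ∀ i ∈ X, ∀ j ∈ Y, ∀ S, M ⊆ S → S ⊆ M ∪ X ∪ Y → i ∉ S → j ∉ S → 0 ≤ cv f i j S) :
    f (M ∪ X ∪ Y) + f M ≤ f (M ∪ X) + f (M ∪ Y) := by
  induction X using Finset.induction_on with
  | empty => simp [add_comm]
  | insert i X hi ih =>
    have hiY : i ∉ Y := Finset.disjoint_left.1 hXY (Finset.mem_insert_self _ _)
    have hiM : i ∉ M := fun hh => (Finset.disjoint_left.1 hMX hh) (Finset.mem_insert_self _ _)
    have hXY' : Disjoint X Y := Finset.disjoint_of_subset_left (Finset.subset_insert i X) hXY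
    have hMX' : Disjoint M X := Finset.disjoint_of_subset_right (Finset.subset_insert i X) hMX
    have hsub : M ∪ X ∪ Y ⊆ M ∪ insert i X ∪ Y :=
      Finset.union_subset_union_left (Finset.union_subset_union_right (Finset.subset_insert i X))
    have h1 := ih hXY' hMX' (fun i' hi' j hj S hS1 hS2 hS3 hS4 =>
      h i' (Finset.mem_insert_of_mem hi') j hj S hS1 (hS2.trans hsub) hS3 hS4)
    have h2 := grid_aux1 (f := f) i (M ∪ X) Y hiY (by simp [hiM, hi])
      (Finset.disjoint_union_left.2 ⟨hMY, hXY'⟩)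
      (fun j hj S hS1 hS2 hS3 hS4 => h i (Finset.mem_insert_self _ _) j hj S
        (Finset.subset_union_left.trans hS1) (hS2.trans hsub) hS3 hS4)
    have h3 : M ∪ insert i X ∪ Y = insert i (M ∪ X ∪ Y) := by
      rw [Finset.union_insert, Finset.insert_union]
    have h4 : M ∪ insert i X = insert i (M ∪ X) := Finset.union_insert i M X
    rw [h3, h4]
    linarith

private lemma grid_eq {f : Finset V → ℝ} (A B : Finset V)
    (h1 : ∀ {f : Finset V → ℝ} (A B : Finset V),
      (∀ i ∈ A \ B, ∀ j ∈ B \ A, ∀ S, A ∩ B ⊆ S → S ⊆ A ∪ B → i ∉ S → j ∉ S → 0 ≤ cv f i j S) →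
        f (A ∪ B) + f (A ∩ B) ≤ f A + f B)
    (h : ∀ i ∈ A \ B, ∀ j ∈ B \ A, ∀ S, i ∉ S → j ∉ S → cv f i j S = 0) :
    f (A ∪ B) + f (A ∩ B) = f A + f B := by
  refine le_antisymm (h1 A B fun i hi j hj S _ _ h3 h4 => (h i hi j hj S h3 h4).ge) ?_
  have h2 := h1 (f := fun S => - f S) A B (fun i hi j hj S _ _ h3 h4 => by
    have h5 := h i hi j hj S h3 h4
    unfold cv at h5 ⊢
    linarith)
  linarith

/-- If all elementary second differences between `A \ B` and `B \ A` (over sets between `A ∩ B`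
and `A ∪ B`) are nonnegative, then `f (A ∪ B) + f (A ∩ B) ≤ f A + f B`. (Induction on
`(A \ B).card + (B \ A).card`, or telescoping.) -/
theorem grid {f : Finset V → ℝ} (A B : Finset V)
    (h : ∀ i ∈ A \ B, ∀ j ∈ B \ A, ∀ S, A ∩ B ⊆ S → S ⊆ A ∪ B → i ∉ S → j ∉ S → 0 ≤ cv f i j S) :
    f (A ∪ B) + f (A ∩ B) ≤ f A + f B := by
  have hA : A ∩ B ∪ A \ B = A := by
    ext x; simp only [Finset.mem_union, Finset.mem_inter, Finset.mem_sdiff]; tauto
  have hB : A ∩ B ∪ B \ A = B := by
    ext x; simp only [Finset.mem_union, Finset.mem_inter, Finset.mem_sdiff]; tauto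
  have hAB : A ∩ B ∪ A \ B ∪ B \ A = A ∪ B := by
    ext x; simp only [Finset.mem_union, Finset.mem_inter, Finset.mem_sdiff]; tauto
  have h1 := grid_aux2 (f := f) (A ∩ B) (A \ B) (B \ A)
    (by
      rw [Finset.disjoint_left]; intro x hx hx'
      exact (Finset.mem_sdiff.1 hx').2 (Finset.mem_sdiff.1 hx).1)
    (by
      rw [Finset.disjoint_left]; intro x hx hx'
      exact (Finset.mem_sdiff.1 hx').2 (Finset.mem_inter.1 hx).2)
    (by
      rw [Finset.disjoint_left]; intro x hx hx'
      exact (Finset.mem_sdiff.1 hx').2 (Finset.mem_inter.1 hx).1)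
    (fun i hi j hj S hS1 hS2 hS3 hS4 => h i hi j hj S hS1 (by rwa [hAB] at hS2) hS3 hS4)
  rw [hA, hB] at h1
  rw [show A ∪ B \ A = A ∪ B from Finset.union_sdiff_self_eq_union] at h1
  exact h1

theorem InC.submod {G : SimpleGraph V} {f : Finset V → ℝ} (hf : InC G f) (A B : Finset V) :
    f (A ∪ B) + f (A ∩ B) ≤ f A + f B := by
  refine grid A B fun i hi j hj S _ _ h1 h2 => hf.nonneg i j S ?_ h1 h2
  rintro rfl
  exact (Finset.mem_sdiff.1 hj).2 (Finset.mem_sdiff.1 hi).1

theorem InC.modular {G : SimpleGraph V} {f : Finset V → ℝ} (hf : InC G f) (A B : Finset V)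
    (h : ∀ i ∈ A \ B, ∀ j ∈ B \ A, ¬ G.Adj i j) :
    f (A ∪ B) + f (A ∩ B) = f A + f B := by
  refine grid_eq A B (fun A B h => grid A B h) fun i hi j hj S h1 h2 =>
    hf.nonadj i j S ?_ h1 h2 (h i hi j hj)
  rintro rfl
  exact (Finset.mem_sdiff.1 hj).2 (Finset.mem_sdiff.1 hi).1

theorem modular_of_cv {f : Finset V → ℝ} (h0 : f ∅ = 0)
    (h : ∀ i j S, i ≠ j → i ∉ S → j ∉ S → cv f i j S = 0) (S : Finset V) :
    f S = ∑ i ∈ S, f {i} := by
  induction S using Finset.induction_on with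
  | empty => simp [h0]
  | insert i S hi ih =>
    rw [Finset.sum_insert hi, ← ih]
    have h1 := grid_eq (f := f) {i} S (fun A B h => grid A B h) (fun a ha b hb T h1 h2 =>
      h a b T (by
        rintro rfl
        exact (Finset.mem_sdiff.1 hb).2 (Finset.mem_sdiff.1 ha).1) h1 h2)
    have h2 : {i} ∩ S = ∅ := Finset.singleton_inter_of_notMem hi
    rw [h2, h0, add_zero] at h1
    rw [← h1, Finset.insert_eq]

end MZ
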