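import Pool.Agent.MZ.Zon
import Pool.Agent.MZ.Grid
import Pool.Agent.MZ.Como

/-!
# MZ-4: the support function of a deformation of the graphical zonotope
-/

open scoped Pointwise Classical
open Finset Matrix

namespace MZ

variable {V : Type} [Fintype V]

/-- Additivity of the support function on compatible vectors: `face (Z G) (u + v)` is contained in
`face (Z G) u` and in `face (Z G) v` by `faceZ_iff`, hence the same for `Q` by `deform_iff`. -/
theorem sp_add_of_compat {G : SimpleGraph V} {Q : Set (V → ℝ)} (hQ : IsDeformation (Z G) Q)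
    (u v : V → ℝ) (h : ∀ i j, G.Adj i j → ¬ (u j < u i ∧ v i < v j)) :
    sp Q (u + v) = sp Q u + sp Q v := by
  obtain ⟨hP, hf⟩ := deform_iff.1 hQ
  have h1 : face (Z G) (u + v) ⊆ face (Z G) u := by
    rw [faceZ_iff]
    intro i j hij hle
    by_contra hc
    push Not at hc
    have h2 := h j i hij.symm
    have h3 : v i ≤ v j := by
      by_contra h4
      push Not at h4
      exact h2 ⟨hc, h4⟩
    simp only [Pi.add_apply] at hle
    linarith
  have h1' : face (Z G) (u + v) ⊆ face (Z G) v := by
    rw [faceZ_iff]
    intro i j hij hle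
    by_contra hc
    push Not at hc
    have h2 := h i j hij
    have h3 : u i ≤ u j := by
      by_contra h4
      push Not at h4
      exact h2 ⟨h4, hc⟩
    simp only [Pi.add_apply] at hle
    linarith
  obtain ⟨x, hx⟩ := face_nonempty hP (u + v)
  have e1 := ((mem_face_iff hP).1 hx).2
  have e2 := ((mem_face_iff hP).1 (hf _ _ h1 hx)).2
  have e3 := ((mem_face_iff hP).1 (hf _ _ h1' hx)).2
  rw [← e1, ← e2, ← e3, add_dotProduct]

private theorem lov_ind_zero : (ind (∅ : Finset V)) = 0 := by
  funext i
  simp [ind]

private theorem lov_ind_add {i j : V} {S : Finset V} (hij : i ≠ j) (hi : i ∉ S) (hj : j ∉ S) :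
    ind (insert i S) + ind (insert j S) = ind (insert i (insert j S)) + ind S := by
  funext a
  simp only [Pi.add_apply, ind, Finset.mem_insert]
  by_cases hai : a = i
  · subst hai
    simp [hij, hi]
  · by_cases haj : a = j
    · subst haj
      simp [hj, hai]
    · by_cases haS : a ∈ S
      · simp [haS]
      · simp [haS, hai, haj]

/-- `ind A + ind B = ind (A ∪ B) + ind (A ∩ B)` and `sp_add_of_compat`, `sp_add_le`. -/
theorem fQ_inC {G : SimpleGraph V} {Q : Set (V → ℝ)} (hQ : IsDeformation (Z G) Q) :
    InC G (fQ Q) := by
  obtain ⟨hP, -⟩ := deform_iff.1 hQ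
  have hbase : ∀ (i j : V) (S : Finset V),
      sp Q (ind (insert i (insert j S)) + ind S) =
        sp Q (ind (insert i (insert j S))) + sp Q (ind S) := by
    intro i j S
    apply sp_add_of_compat hQ
    rintro a b - ⟨h1, h2⟩
    simp only [ind, Finset.mem_insert] at h1 h2
    by_cases hb : b ∈ S
    · simp only [hb, or_true, if_true] at h1
      split_ifs at h1 <;> linarith
    · simp only [hb, if_false] at h2
      split_ifs at h2 <;> linarith
  refine ⟨?_, ?_, ?_⟩
  · unfold fQ
    rw [lov_ind_zero]
    have h := sp_smul hP (le_refl (0 : ℝ)) (0 : V → ℝ)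
    rw [zero_smul, zero_mul] at h
    exact h
  · intro i j S hij hi hj
    unfold cv fQ
    have h1 := sp_add_le hP (ind (insert i S)) (ind (insert j S))
    rw [lov_ind_add hij hi hj, hbase] at h1
    linarith
  · intro i j S hij hi hj hadj
    unfold cv fQ
    have h1 : sp Q (ind (insert i S) + ind (insert j S)) =
        sp Q (ind (insert i S)) + sp Q (ind (insert j S)) := by
      apply sp_add_of_compat hQ
      rintro a b hab ⟨h1, h2⟩
      simp only [ind, Finset.mem_insert] at h1 h2
      have ha : a = i ∨ a ∈ S := by
        by_contra hc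
        rw [if_neg hc] at h1
        split_ifs at h1 <;> linarith
      have hb : ¬ (b = i ∨ b ∈ S) := by
        intro hc
        rw [if_pos hc] at h1
        split_ifs at h1 <;> linarith
      have ha' : ¬ (a = j ∨ a ∈ S) := by
        intro hc
        rw [if_pos hc] at h2
        split_ifs at h2 <;> linarith
      have hb' : b = j ∨ b ∈ S := by
        by_contra hc
        rw [if_neg hc] at h2
        split_ifs at h2 <;> linarith
      have hai : a = i := ha.resolve_right (fun h => ha' (Or.inr h))
      have hbj : b = j := hb'.resolve_right (fun h => hb (Or.inr h))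
      subst hai
      subst hbj
      exact hadj hab
    rw [lov_ind_add hij hi hj, hbase] at h1
    linarith

end MZ
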