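import Pool.Agent.MZ.T3Defs

/-!
# MZ-16a: Möbius inversion
-/

open scoped Classical
open Finset

namespace MZ

variable {V : Type} [Fintype V]

private theorem neg_one_pow_sub_succ {a b : ℕ} (h : b ≤ a) :
    (-1 : ℝ) ^ (a + 1 - b) = - (-1 : ℝ) ^ (a - b) := by
  rw [Nat.succ_sub h, pow_succ]
  ring

/-- Möbius inversion on the Boolean lattice. -/
theorem mobius_sum (S : Finset V) : ∀ g : Finset V → ℝ,
    ∑ M ∈ S.powerset, ∑ R ∈ M.powerset, (-1 : ℝ) ^ (M.card - R.card) * g R = g S := by
  induction S using Finset.induction_on with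
  | empty => intro g; simp
  | insert a S ha ih =>
    intro g
    rw [Finset.sum_powerset_insert ha, ← Finset.sum_add_distrib, ← ih (fun R => g (insert a R))]
    refine Finset.sum_congr rfl fun M hM => ?_
    have haM : a ∉ M := fun h => ha (Finset.mem_powerset.1 hM h)
    rw [Finset.sum_powerset_insert haM, Finset.card_insert_of_notMem haM]
    have h1 : ∑ R ∈ M.powerset, (-1 : ℝ) ^ (M.card + 1 - R.card) * g R =
        - ∑ R ∈ M.powerset, (-1 : ℝ) ^ (M.card - R.card) * g R := by
      rw [← Finset.sum_neg_distrib]
      refine Finset.sum_congr rfl fun R hR => ?_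
      rw [neg_one_pow_sub_succ (Finset.card_le_card (Finset.mem_powerset.1 hR))]
      ring
    have h2 : ∑ R ∈ M.powerset, (-1 : ℝ) ^ (M.card + 1 - (insert a R).card) * g (insert a R) =
        ∑ R ∈ M.powerset, (-1 : ℝ) ^ (M.card - R.card) * g (insert a R) := by
      refine Finset.sum_congr rfl fun R hR => ?_
      rw [Finset.card_insert_of_notMem (fun h => haM (Finset.mem_powerset.1 hR h)),
        Nat.add_sub_add_right]
    rw [h1, h2]
    ring

/-- ... and conversely the coefficients are alternating sums of second differences. -/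
theorem zc_eq_cv (z : Finset V → ℝ) {i j : V} {K : Finset V} (hij : i ≠ j) (hi : i ∈ K)
    (hj : j ∈ K) :
    zc z K = ∑ S ∈ ((K.erase i).erase j).powerset,
      (-1 : ℝ) ^ (K.card - 2 - S.card) * cv z i j S := by
  set M := (K.erase i).erase j with hM
  have hjM : j ∉ M := by simp [hM]
  have hiM : i ∉ insert j M := by simp [hM, hij]
  have hK : K = insert i (insert j M) := by
    rw [hM, Finset.insert_erase (Finset.mem_erase.2 ⟨hij.symm, hj⟩), Finset.insert_erase hi]
  have hc : K.card = M.card + 2 := by
    rw [hK, Finset.card_insert_of_notMem hiM, Finset.card_insert_of_notMem hjM]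
  unfold zc
  rw [hc, hK, Finset.sum_powerset_insert hiM, Finset.sum_powerset_insert hjM,
    Finset.sum_powerset_insert hjM, ← Finset.sum_add_distrib, ← Finset.sum_add_distrib,
    ← Finset.sum_add_distrib, ← Finset.sum_neg_distrib]
  refine Finset.sum_congr rfl fun S hS => ?_
  have hSM := Finset.mem_powerset.1 hS
  have hle := Finset.card_le_card hSM
  have hjS : j ∉ S := fun h => hjM (hSM h)
  have hiS : i ∉ S := fun h => hiM (Finset.mem_insert_of_mem (hSM h))
  have hiS' : i ∉ insert j S := by
    rw [Finset.mem_insert, not_or]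
    exact ⟨hij, hiS⟩
  rw [Finset.card_insert_of_notMem hiS', Finset.card_insert_of_notMem hjS,
    Finset.card_insert_of_notMem hiS]
  have e0 : (-1 : ℝ) ^ (M.card + 2 - S.card) = (-1 : ℝ) ^ (M.card - S.card) := by
    rw [show M.card + 2 - S.card = (M.card + 1) + 1 - S.card from rfl,
      neg_one_pow_sub_succ (by omega), neg_one_pow_sub_succ hle, neg_neg]
  have e1 : (-1 : ℝ) ^ (M.card + 2 - (S.card + 1)) = - (-1 : ℝ) ^ (M.card - S.card) := by
    rw [show M.card + 2 - (S.card + 1) = M.card + 1 - S.card by omega,
      neg_one_pow_sub_succ hle]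
  have e2 : M.card + 2 - (S.card + 1 + 1) = M.card - S.card := by omega
  have e3 : M.card + 2 - 2 - S.card = M.card - S.card := by omega
  rw [e0, e1, e2, e3]
  unfold cv
  ring

/-- Möbius inversion: `cv z` is the sum of the coefficients. -/
theorem cv_eq_zc (z : Finset V → ℝ) {i j : V} {S : Finset V} (hij : i ≠ j) (hi : i ∉ S)
    (hj : j ∉ S) :
    cv z i j S =
      ∑ K ∈ (insert i (insert j S)).powerset.filter (fun K : Finset V => i ∈ K ∧ j ∈ K),
        zc z K := by
  have hi' : i ∉ insert j S := by
    rw [Finset.mem_insert, not_or]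
    exact ⟨hij, hi⟩
  have hbij : ∑ K ∈ (insert i (insert j S)).powerset.filter (fun K : Finset V => i ∈ K ∧ j ∈ K),
      zc z K = ∑ M ∈ S.powerset, zc z (insert i (insert j M)) := by
    symm
    refine Finset.sum_bij (fun M _ => insert i (insert j M)) ?_ ?_ ?_ ?_
    · intro M hM
      rw [Finset.mem_filter, Finset.mem_powerset]
      refine ⟨Finset.insert_subset_insert i (Finset.insert_subset_insert j (Finset.mem_powerset.1 hM)),
        Finset.mem_insert_self _ _, Finset.mem_insert_of_mem (Finset.mem_insert_self _ _)⟩
    · intro M hM M' hM' h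
      have a1 : ∀ N : Finset V, N ∈ S.powerset → ((insert i (insert j N)).erase i).erase j = N := by
        intro N hN
        have hNS := Finset.mem_powerset.1 hN
        rw [Finset.erase_insert (fun h => hi' (Finset.insert_subset_insert j hNS h)),
          Finset.erase_insert (fun h => hj (hNS h))]
      rw [← a1 M hM, ← a1 M' hM', h]
    · intro K hK
      rw [Finset.mem_filter, Finset.mem_powerset] at hK
      obtain ⟨hKs, hiK, hjK⟩ := hK
      refine ⟨(K.erase i).erase j, ?_, ?_⟩
      · rw [Finset.mem_powerset]
        intro x hx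
        rw [Finset.mem_erase, Finset.mem_erase] at hx
        have := hKs hx.2.2
        rw [Finset.mem_insert, Finset.mem_insert] at this
        rcases this with h | h | h
        · exact absurd h hx.2.1
        · exact absurd h hx.1
        · exact h
      · rw [Finset.insert_erase (Finset.mem_erase.2 ⟨hij.symm, hjK⟩), Finset.insert_erase hiK]
    · intro M hM
      rfl
  rw [hbij, ← mobius_sum S (fun R => cv z i j R)]
  refine Finset.sum_congr rfl fun M hM => ?_
  have hMS := Finset.mem_powerset.1 hM
  have hjM : j ∉ M := fun h => hj (hMS h)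
  have hiM : i ∉ insert j M := fun h => hi' (Finset.insert_subset_insert j hMS h)
  rw [zc_eq_cv z hij (Finset.mem_insert_self _ _)
    (Finset.mem_insert_of_mem (Finset.mem_insert_self _ _)), Finset.erase_insert hiM,
    Finset.erase_insert hjM, Finset.card_insert_of_notMem hiM, Finset.card_insert_of_notMem hjM]
  refine Finset.sum_congr rfl fun R hR => ?_
  rw [show M.card + 1 + 1 - 2 - R.card = M.card - R.card by omega]

end MZ
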