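import Pool.Agent.MZ.T3Defs

/-!
# MZ-11a: elementary combinatorics of 3-trees
-/

open scoped Classical
open Finset

namespace MZ

variable {V : Type} [Fintype V]

theorem four_le_card {H : SimpleGraph V} {W : Finset V} (h : IsTree3 H W) : 4 ≤ W.card := by
  induction h with
  | base s hs => exact hs.card_eq.ge
  | step W T v hW hTW hT hv hN ih =>
    rw [Finset.card_insert_of_notMem hv]
    omega

/-- The cliques of `insert v W` for a new vertex `v` with neighbourhood the triangle `T`. -/
theorem Ks_insert {H : SimpleGraph V} {W T : Finset V} {v : V} (hTW : T ⊆ W)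
    (hT : H.IsNClique 3 T) (hv : v ∉ W) (hN : ∀ w ∈ W, H.Adj v w ↔ w ∈ T) (k : ℕ) :
    Ks (k + 1) H (insert v W) =
      Ks (k + 1) H W ∪ (T.powerset.filter (fun A => A.card = k)).image (insert v) := by
  ext K
  simp only [Ks, Finset.mem_union, Finset.mem_filter, Finset.mem_powerset, Finset.mem_image]
  constructor
  · rintro ⟨hK, hKc⟩
    by_cases hvK : v ∈ K
    · right
      refine ⟨K.erase v, ⟨?_, ?_⟩, Finset.insert_erase hvK⟩
      · intro w hw
        have hw' := Finset.mem_erase.1 hw
        have hwW : w ∈ W := by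
          have := hK hw'.2
          rcases Finset.mem_insert.1 this with h | h
          · exact absurd h hw'.1
          · exact h
        exact (hN w hwW).1 (hKc.isClique (by exact_mod_cast hvK) (by exact_mod_cast hw'.2)
          (Ne.symm hw'.1))
      · rw [Finset.card_erase_of_mem hvK, hKc.card_eq]
        rfl
    · left
      refine ⟨?_, hKc⟩
      intro w hw
      rcases Finset.mem_insert.1 (hK hw) with h | h
      · exact absurd (h ▸ hw) hvK
      · exact h
  · rintro (⟨hK, hKc⟩ | ⟨A, ⟨hA, hAc⟩, rfl⟩)
    · exact ⟨hK.trans (Finset.subset_insert _ _), hKc⟩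
    · refine ⟨Finset.insert_subset_insert _ (hA.trans hTW), ?_⟩
      have hAcl : H.IsNClique k A := by
        refine ⟨?_, hAc⟩
        exact hT.isClique.subset (by exact_mod_cast hA)
      exact hAcl.insert (fun b hb => (hN b (hTW (hA hb))).2 (hA hb))

theorem Ks5_empty {H : SimpleGraph V} {W : Finset V} (h : IsTree3 H W) : Ks 5 H W = ∅ := by
  induction h with
  | base s hs =>
    rw [Ks, Finset.filter_eq_empty_iff]
    intro K hK hKc
    have h1 := Finset.card_le_card (Finset.mem_powerset.1 hK)
    rw [hKc.card_eq, hs.card_eq] at h1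
    omega
  | step W T v hW hTW hT hv hN ih =>
    rw [Ks_insert hTW hT hv hN 4, ih, Finset.empty_union, Finset.image_eq_empty,
      Finset.filter_eq_empty_iff]
    intro A hA hAc
    have h1 := Finset.card_le_card (Finset.mem_powerset.1 hA)
    rw [hAc, hT.card_eq] at h1
    omega

/-- the sides of `T` correspond to the vertices adjacent to all of `T` -/
theorem card_sides {H : SimpleGraph V} {W : Finset V} {T : Finset V} (hT : T ∈ Ks 3 H W) :
    (sides H W T).card = (W.filter (fun v => ∀ t ∈ T, H.Adj v t)).card := by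
  have hT' := Finset.mem_filter.1 hT
  have hTW : T ⊆ W := Finset.mem_powerset.1 hT'.1
  have hTc : H.IsNClique 3 T := hT'.2
  symm
  apply Finset.card_bij (fun v _ => insert v T)
  · intro v hv
    have hv' := Finset.mem_filter.1 hv
    simp only [sides, Ks, Finset.mem_filter, Finset.mem_powerset]
    refine ⟨⟨Finset.insert_subset hv'.1 hTW, hTc.insert hv'.2⟩, Finset.subset_insert _ _⟩
  · intro v hv w hw hvw
    have hv' := (Finset.mem_filter.1 hv).2
    have hvT : v ∉ T := fun h => H.irrefl (hv' v h)
    have hmem : v ∈ insert w T := hvw ▸ Finset.mem_insert_self v T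
    rcases Finset.mem_insert.1 hmem with h | h
    · exact h
    · exact absurd h hvT
  · intro Q hQ
    simp only [sides, Ks, Finset.mem_filter, Finset.mem_powerset] at hQ
    obtain ⟨⟨hQW, hQc⟩, hTQ⟩ := hQ
    have hcard : (Q \ T).card = 1 := by
      rw [Finset.card_sdiff_of_subset hTQ, hQc.card_eq, hTc.card_eq]
    obtain ⟨v, hv⟩ := Finset.card_eq_one.1 hcard
    have hvQ : v ∈ Q \ T := hv ▸ Finset.mem_singleton_self v
    have hvQ' := Finset.mem_sdiff.1 hvQ
    refine ⟨v, ?_, ?_⟩
    · rw [Finset.mem_filter]
      refine ⟨hQW hvQ'.1, fun t ht => ?_⟩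
      exact hQc.isClique (by exact_mod_cast hvQ'.1) (by exact_mod_cast hTQ ht)
        (fun h => hvQ'.2 (h ▸ ht))
    · ext w
      rw [Finset.mem_insert]
      constructor
      · rintro (h | h)
        · exact h ▸ hvQ'.1
        · exact hTQ h
      · intro hw
        by_cases hwT : w ∈ T
        · exact Or.inr hwT
        · left
          have : w ∈ Q \ T := Finset.mem_sdiff.2 ⟨hw, hwT⟩
          rw [hv] at this
          exact Finset.mem_singleton.1 this

end MZ
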