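import Pool.Agent.MZ.T3Comb

/-!
# MZ-11b: connectivity of 3-trees
-/

open scoped Classical
open Finset

namespace MZ

variable {V : Type} [Fintype V]

private theorem mem_Ks' {k : ℕ} {H : SimpleGraph V} {W K : Finset V} :
    K ∈ Ks k H W ↔ K ⊆ W ∧ H.IsNClique k K := by
  unfold Ks
  rw [Finset.mem_filter, Finset.mem_powerset]

private theorem mem_sides' {H : SimpleGraph V} {W T Q : Finset V} :
    Q ∈ sides H W T ↔ Q ∈ Ks 4 H W ∧ T ⊆ Q := by
  unfold sides
  rw [Finset.mem_filter]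

private theorem Ks_mono' {k : ℕ} {H : SimpleGraph V} {W W' K : Finset V} (h : W ⊆ W')
    (hK : K ∈ Ks k H W) : K ∈ Ks k H W' := by
  rw [mem_Ks'] at hK ⊢
  exact ⟨hK.1.trans h, hK.2⟩

private theorem insert_mem_Ks4 {H : SimpleGraph V} {W T : Finset V} {v : V} (hTW : T ⊆ W)
    (hT : H.IsNClique 3 T) (hv : v ∉ W) (hN : ∀ w ∈ W, H.Adj v w ↔ w ∈ T) :
    insert v T ∈ Ks 4 H (insert v W) := by
  rw [Ks_insert hTW hT hv hN 3, Finset.mem_union]
  right
  rw [Finset.mem_image]
  refine ⟨T, ?_, rfl⟩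
  rw [Finset.mem_filter, Finset.mem_powerset]
  exact ⟨Finset.Subset.refl _, hT.card_eq⟩

/-- every triangle is in a complete graph on four vertices -/
theorem sides_nonempty {H : SimpleGraph V} {W : Finset V} (h : IsTree3 H W) {T : Finset V}
    (hT : T ∈ Ks 3 H W) : (sides H W T).Nonempty := by
  induction h generalizing T with
  | base s hs =>
    refine ⟨s, ?_⟩
    rw [mem_sides', mem_Ks']
    rw [mem_Ks'] at hT
    exact ⟨⟨Finset.Subset.refl _, hs⟩, hT.1⟩
  | step W T₀ v hW hTW hT₀ hv hN ih =>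
    rw [Ks_insert hTW hT₀ hv hN 2, Finset.mem_union] at hT
    rcases hT with hT | hT
    · obtain ⟨Q, hQ⟩ := ih hT
      rw [mem_sides'] at hQ
      refine ⟨Q, ?_⟩
      rw [mem_sides']
      exact ⟨Ks_mono' (Finset.subset_insert _ _) hQ.1, hQ.2⟩
    · rw [Finset.mem_image] at hT
      obtain ⟨A, hA, rfl⟩ := hT
      rw [Finset.mem_filter, Finset.mem_powerset] at hA
      refine ⟨insert v T₀, ?_⟩
      rw [mem_sides']
      exact ⟨insert_mem_Ks4 hTW hT₀ hv hN, Finset.insert_subset_insert _ hA.1⟩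

theorem mem_K4 {H : SimpleGraph V} {W : Finset V} (h : IsTree3 H W) {v : V} (hv : v ∈ W) :
    ∃ Q ∈ Ks 4 H W, v ∈ Q := by
  induction h generalizing v with
  | base s hs =>
    refine ⟨s, ?_, hv⟩
    rw [mem_Ks']
    exact ⟨Finset.Subset.refl _, hs⟩
  | step W T₀ u hW hTW hT₀ hu hN ih =>
    rw [Finset.mem_insert] at hv
    rcases hv with rfl | hv
    · exact ⟨insert v T₀, insert_mem_Ks4 hTW hT₀ hu hN, Finset.mem_insert_self _ _⟩
    · obtain ⟨Q, hQ, hvQ⟩ := ih hv
      exact ⟨Q, Ks_mono' (Finset.subset_insert _ _) hQ, hvQ⟩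

/-- Connectivity through triangles: a function on the complete graphs on four vertices which is
constant on the sides of every triangle is constant. -/
theorem const_of_link {H : SimpleGraph V} {W : Finset V} (h : IsTree3 H W) (z : Finset V → ℝ)
    (hz : ∀ T ∈ Ks 3 H W, ∀ Q ∈ sides H W T, ∀ Q' ∈ sides H W T, z Q = z Q') :
    ∀ Q ∈ Ks 4 H W, ∀ Q' ∈ Ks 4 H W, z Q = z Q' := by
  induction h with
  | base s hs =>
    have key : ∀ Q ∈ Ks 4 H s, Q = s := by
      intro Q hQ
      rw [mem_Ks'] at hQ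
      exact Finset.eq_of_subset_of_card_le hQ.1 (by rw [hs.card_eq, hQ.2.card_eq])
    intro Q hQ Q' hQ'
    rw [key Q hQ, key Q' hQ']
  | step W T₀ v hW hTW hT₀ hv hN ih =>
    have hz' : ∀ T ∈ Ks 3 H W, ∀ Q ∈ sides H W T, ∀ Q' ∈ sides H W T, z Q = z Q' := by
      intro T hT Q hQ Q' hQ'
      rw [mem_sides'] at hQ hQ'
      refine hz T (Ks_mono' (Finset.subset_insert _ _) hT) Q ?_ Q' ?_
      · rw [mem_sides']
        exact ⟨Ks_mono' (Finset.subset_insert _ _) hQ.1, hQ.2⟩
      · rw [mem_sides']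
        exact ⟨Ks_mono' (Finset.subset_insert _ _) hQ'.1, hQ'.2⟩
    have ih' := ih hz'
    have hT₀W : T₀ ∈ Ks 3 H W := by
      rw [mem_Ks']
      exact ⟨hTW, hT₀⟩
    obtain ⟨Q₀, hQ₀⟩ := sides_nonempty hW hT₀W
    rw [mem_sides'] at hQ₀
    have key : ∀ Q ∈ Ks 4 H (insert v W), z Q = z Q₀ := by
      intro Q hQ
      rw [Ks_insert hTW hT₀ hv hN 3, Finset.mem_union] at hQ
      rcases hQ with hQ | hQ
      · exact ih' Q hQ Q₀ hQ₀.1
      · rw [Finset.mem_image] at hQ
        obtain ⟨A, hA, rfl⟩ := hQ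
        rw [Finset.mem_filter, Finset.mem_powerset] at hA
        have hAT : A = T₀ :=
          Finset.eq_of_subset_of_card_le hA.1 (by rw [hT₀.card_eq, hA.2])
        subst hAT
        refine hz A (Ks_mono' (Finset.subset_insert _ _) hT₀W) _ ?_ _ ?_
        · rw [mem_sides']
          exact ⟨insert_mem_Ks4 hTW hT₀ hv hN, Finset.subset_insert _ _⟩
        · rw [mem_sides']
          exact ⟨Ks_mono' (Finset.subset_insert _ _) hQ₀.1, hQ₀.2⟩
    intro Q hQ Q' hQ'
    rw [key Q hQ, key Q' hQ']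

/-- Connectivity of `W` through complete graphs on four vertices. -/
theorem exists_cross {H : SimpleGraph V} {W : Finset V} (h : IsTree3 H W) (A : Finset V)
    (hA : A ⊆ W) (hne : A.Nonempty) (hAW : A ≠ W) :
    ∃ Q ∈ Ks 4 H W, ∃ i ∈ Q, ∃ j ∈ Q, i ∈ A ∧ j ∈ W \ A := by
  induction h generalizing A with
  | base s hs =>
    obtain ⟨i, hi⟩ := hne
    have hss : ∃ j ∈ s, j ∉ A := by
      by_contra hcon
      push Not at hcon
      exact hAW (Finset.Subset.antisymm hA hcon)
    obtain ⟨j, hj, hjA⟩ := hss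
    refine ⟨s, ?_, i, hA hi, j, hj, hi, ?_⟩
    · rw [mem_Ks']
      exact ⟨Finset.Subset.refl _, hs⟩
    · rw [Finset.mem_sdiff]
      exact ⟨hj, hjA⟩
  | step W T₀ v hW hTW hT₀ hv hN ih =>
    have hT₀ne : T₀.Nonempty := by
      rw [← Finset.card_pos, hT₀.card_eq]
      norm_num
    obtain ⟨t, ht⟩ := hT₀ne
    have htW : t ∈ W := hTW ht
    have htv : t ≠ v := fun h => hv (h ▸ htW)
    by_cases h1 : A ∩ W = ∅
    · have hAv : ∀ a ∈ A, a = v := by
        intro a ha
        have := hA ha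
        rw [Finset.mem_insert] at this
        rcases this with h | h
        · exact h
        · exfalso
          have : a ∈ A ∩ W := Finset.mem_inter.mpr ⟨ha, h⟩
          rw [h1] at this
          exact absurd this (Finset.notMem_empty _)
      obtain ⟨a, ha⟩ := hne
      have hva : v ∈ A := (hAv a ha) ▸ ha
      refine ⟨insert v T₀, insert_mem_Ks4 hTW hT₀ hv hN, v, Finset.mem_insert_self _ _, t,
        Finset.mem_insert_of_mem ht, hva, ?_⟩
      rw [Finset.mem_sdiff]
      exact ⟨Finset.mem_insert_of_mem htW, fun hh => htv (hAv t hh)⟩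
    · by_cases h2 : A ∩ W = W
      · have hWA : W ⊆ A := by
          rw [← h2]
          exact Finset.inter_subset_left
        have hvA : v ∉ A := by
          intro hvA
          apply hAW
          exact Finset.Subset.antisymm hA (Finset.insert_subset hvA hWA)
        refine ⟨insert v T₀, insert_mem_Ks4 hTW hT₀ hv hN, t, Finset.mem_insert_of_mem ht, v,
          Finset.mem_insert_self _ _, hWA htW, ?_⟩
        rw [Finset.mem_sdiff]
        exact ⟨Finset.mem_insert_self _ _, hvA⟩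
      · obtain ⟨Q, hQ, i, hi, j, hj, hiA, hjA⟩ := ih (A ∩ W) Finset.inter_subset_right
          (Finset.nonempty_iff_ne_empty.mpr h1) h2
        refine ⟨Q, Ks_mono' (Finset.subset_insert _ _) hQ, i, hi, j, hj,
          (Finset.mem_inter.mp hiA).1, ?_⟩
        rw [Finset.mem_sdiff] at hjA ⊢
        exact ⟨Finset.mem_insert_of_mem hjA.1,
          fun hh => hjA.2 (Finset.mem_inter.mpr ⟨hh, hjA.1⟩)⟩

end MZ
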