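import Mathlib

/-!
# The local step in the construction of the marking
-/

namespace MZ

/-- The local step. `b₁ b₂ b₃` say whether the edges `uv, uw, vw` of the triangle `T = uvw` are
marked in the new complete graph `Q = T + a`; `I₁ I₂ I₃` say whether the triangles
`uva, uwa, vwa` will get further sides; `p q r` say whether `ua, va, wa` are marked;
`n₁ n₂ n₃` are the multiplicities (0 or 1) of those of the three triangles that stay external. -/
theorem local_step (b₁ b₂ b₃ I₁ I₂ I₃ : Bool) (hb : ¬ (b₁ = b₂ ∧ b₂ = b₃)) :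
    ∃ p q r n₁ n₂ n₃ : Bool,
      (I₁ = true → ¬ (b₁ = p ∧ p = q)) ∧ (I₂ = true → ¬ (b₂ = p ∧ p = r)) ∧
      (I₃ = true → ¬ (b₃ = q ∧ q = r)) ∧
      (I₁ = false → b₁ = n₁ ∧ (I₂ = true → p = n₁) ∧ (I₃ = true → q = n₁)) ∧
      (I₂ = false → b₂ = n₂ ∧ (I₁ = true → p = n₂) ∧ (I₃ = true → r = n₂)) ∧
      (I₃ = false → b₃ = n₃ ∧ (I₁ = true → q = n₃) ∧ (I₂ = true → r = n₃)) := by
  cases b₁ <;> cases b₂ <;> cases b₃ <;> (try exact absurd ⟨rfl, rfl⟩ hb) <;>
    cases I₁ <;> cases I₂ <;> cases I₃ <;> simp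

end MZ
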