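import Pool.Agent.MZ.T3Con
import Pool.Agent.MZ.T3Local

/-!
# MZ-12: existence of the marking
-/

open scoped Classical
open Finset

namespace MZ

variable {V : Type} [Fintype V]

theorem two_sub_T3D {a b c : V} {e : Finset V} (he : e ⊆ {a, b, c}) (h2 : e.card = 2) :
    e = {a, b} ∨ e = {a, c} ∨ e = {b, c} := by
  obtain ⟨s, t, hst, rfl⟩ := Finset.card_eq_two.mp h2
  have hs : s ∈ ({a, b, c} : Finset V) := he (by simp)
  have ht : t ∈ ({a, b, c} : Finset V) := he (by simp)
  simp only [Finset.mem_insert, Finset.mem_singleton] at hs ht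
  rcases hs with rfl | rfl | rfl <;> rcases ht with rfl | rfl | rfl
  · exact absurd rfl hst
  · exact Or.inl rfl
  · exact Or.inr (Or.inl rfl)
  · exact Or.inl (Finset.pair_comm _ _)
  · exact absurd rfl hst
  · exact Or.inr (Or.inr rfl)
  · exact Or.inr (Or.inl (Finset.pair_comm _ _))
  · exact Or.inr (Or.inr (Finset.pair_comm _ _))
  · exact absurd rfl hst

theorem three_sub_T3D {v x y z : V} {T : Finset V} (hT : T ⊆ insert v {x, y, z}) (hv : v ∈ T)
    (h3 : T.card = 3) : T = {v, x, y} ∨ T = {v, x, z} ∨ T = {v, y, z} := by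
  have h1 : T.erase v ⊆ {x, y, z} := by
    intro w hw
    rw [Finset.mem_erase] at hw
    have := hT hw.2
    rw [Finset.mem_insert] at this
    exact this.resolve_left hw.1
  have h2 : (T.erase v).card = 2 := by
    rw [Finset.card_erase_of_mem hv, h3]
  have h4 : insert v (T.erase v) = T := Finset.insert_erase hv
  rcases two_sub_T3D h1 h2 with h | h | h <;> rw [h] at h4 <;> simp [← h4]

theorem key_mark (μ : Finset V → Prop) (T e1 e2 e3 : Finset V) (b1 b2 b3 : Bool) (s1 : e1 ⊆ T)
    (s2 : e2 ⊆ T) (s3 : e3 ⊆ T) (k1 : e1.card = 2) (k2 : e2.card = 2) (k3 : e3.card = 2)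
    (m1 : μ e1 ↔ b1 = true) (m2 : μ e2 ↔ b2 = true) (m3 : μ e3 ↔ b3 = true)
    (hb : ¬ (b1 = b2 ∧ b2 = b3)) :
    (∃ e ⊆ T, e.card = 2 ∧ μ e) ∧ (∃ e ⊆ T, e.card = 2 ∧ ¬ μ e) := by
  cases b1 <;> cases b2 <;> cases b3 <;> simp at hb m1 m2 m3
  all_goals
    refine ⟨?_, ?_⟩
  all_goals first
    | exact ⟨e1, s1, k1, m1⟩
    | exact ⟨e2, s2, k2, m2⟩
    | exact ⟨e3, s3, k3, m3⟩

theorem bn_mark (b : Bool) (k : Bool) (P : Prop) (h1 : P ↔ b = true) (h2 : b = k) :
    (P ↔ k.toNat = 1) := by
  subst h2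
  rw [h1]
  cases b <;> simp

/-- the local step in terms of sets -/
theorem local_mark (v : V) (T0 : Finset V) (hv : v ∉ T0) (hc : T0.card = 3) (B : Finset V → Prop)
    (hB1 : ∃ e ⊆ T0, e.card = 2 ∧ B e) (hB2 : ∃ e ⊆ T0, e.card = 2 ∧ ¬ B e)
    (I : Finset V → Prop) :
    ∃ (μ : Finset V → Prop) (n : Finset V → ℕ),
      (∀ e ⊆ T0, e.card = 2 → (μ e ↔ B e)) ∧
      (∀ T ⊆ insert v T0, T.card = 3 → v ∈ T → I T →
        (∃ e ⊆ T, e.card = 2 ∧ μ e) ∧ (∃ e ⊆ T, e.card = 2 ∧ ¬ μ e)) ∧
      (∀ T ⊆ insert v T0, T.card = 3 → v ∈ T → ¬ I T → n T ≤ 1 ∧ ∀ e ⊆ T, e.card = 2 →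
        (e ⊆ T0 ∨ ∃ T' ⊆ insert v T0, T'.card = 3 ∧ v ∈ T' ∧ e ⊆ T' ∧ I T') →
          (μ e ↔ n T = 1)) := by
  obtain ⟨x, y, z, hxy, hxz, hyz, rfl⟩ := Finset.card_eq_three.mp hc
  have hvx : v ≠ x := by rintro rfl; simp at hv
  have hvy : v ≠ y := by rintro rfl; simp at hv
  have hvz : v ≠ z := by rintro rfl; simp at hv
  have hne : ¬ (decide (B {x, y}) = decide (B {x, z}) ∧
      decide (B {x, z}) = decide (B {y, z})) := by
    rintro ⟨h1, h2⟩
    simp only [decide_eq_decide] at h1 h2
    obtain ⟨e, he, h2e, hBe⟩ := hB1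
    obtain ⟨e', he', h2e', hBe'⟩ := hB2
    apply hBe'
    rcases two_sub_T3D he h2e with rfl | rfl | rfl <;> rcases two_sub_T3D he' h2e' with rfl | rfl | rfl <;>
      tauto
  obtain ⟨p, q, r, n₁, n₂, n₃, a1, a2, a3, c1, c2, c3⟩ := local_step (decide (B {x, y}))
    (decide (B {x, z})) (decide (B {y, z})) (decide (I {v, x, y})) (decide (I {v, x, z}))
    (decide (I {v, y, z})) hne
  obtain ⟨μ, hμ⟩ : ∃ μ : Finset V → Prop, ∀ e, μ e ↔ ((x ∈ e ∧ y ∈ e ∧ B {x, y}) ∨
    (x ∈ e ∧ z ∈ e ∧ B {x, z}) ∨
    (y ∈ e ∧ z ∈ e ∧ B {y, z}) ∨ (x ∈ e ∧ v ∈ e ∧ p = true) ∨ (y ∈ e ∧ v ∈ e ∧ q = true) ∨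
    (z ∈ e ∧ v ∈ e ∧ r = true)) := ⟨_, fun _ => Iff.rfl⟩
  obtain ⟨n, hn⟩ : ∃ n : Finset V → ℕ, ∀ T, n T = if z ∉ T then n₁.toNat else
    if y ∉ T then n₂.toNat else n₃.toNat := ⟨_, fun _ => rfl⟩
  have mxy : μ {x, y} ↔ B {x, y} := by
    rw [hμ]
    simp [hxy, hxz, hyz, hxy.symm, hxz.symm, hyz.symm, hvx, hvy, hvz, hvx.symm, hvy.symm,
        hvz.symm]
  have mxz : μ {x, z} ↔ B {x, z} := by
    rw [hμ]
    simp [hxy, hxz, hyz, hxy.symm, hxz.symm, hyz.symm, hvx, hvy, hvz, hvx.symm, hvy.symm,
        hvz.symm]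
  have myz : μ {y, z} ↔ B {y, z} := by
    rw [hμ]
    simp [hxy, hxz, hyz, hxy.symm, hxz.symm, hyz.symm, hvx, hvy, hvz, hvx.symm, hvy.symm,
        hvz.symm]
  have mvx : μ {v, x} ↔ p = true := by
    rw [hμ]
    simp [hxy, hxz, hyz, hxy.symm, hxz.symm, hyz.symm, hvx, hvy, hvz, hvx.symm, hvy.symm,
        hvz.symm]
  have mvy : μ {v, y} ↔ q = true := by
    rw [hμ]
    simp [hxy, hxz, hyz, hxy.symm, hxz.symm, hyz.symm, hvx, hvy, hvz, hvx.symm, hvy.symm,
        hvz.symm]
  have mvz : μ {v, z} ↔ r = true := by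
    rw [hμ]
    simp [hxy, hxz, hyz, hxy.symm, hxz.symm, hyz.symm, hvx, hvy, hvz, hvx.symm, hvy.symm,
        hvz.symm]
  have n1' : n {v, x, y} = n₁.toNat := by
    rw [hn]; simp [hvz.symm, hxz.symm, hyz.symm]
  have n2' : n {v, x, z} = n₂.toNat := by
    rw [hn]; simp [hvy.symm, hxy.symm, hyz]
  have n3' : n {v, y, z} = n₃.toNat := by
    rw [hn]; simp
  have cxy : ({x, y} : Finset V).card = 2 := Finset.card_pair hxy
  have cxz : ({x, z} : Finset V).card = 2 := Finset.card_pair hxz
  have cyz : ({y, z} : Finset V).card = 2 := Finset.card_pair hyz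
  have cvx : ({v, x} : Finset V).card = 2 := Finset.card_pair hvx
  have cvy : ({v, y} : Finset V).card = 2 := Finset.card_pair hvy
  have cvz : ({v, z} : Finset V).card = 2 := Finset.card_pair hvz
  have hun : ∀ n : Bool, n.toNat ≤ 1 := by intro n; cases n <;> simp
  refine ⟨μ, n, ?_, ?_, ?_⟩
  · intro e he h2
    rcases two_sub_T3D he h2 with rfl | rfl | rfl
    · exact mxy
    · exact mxz
    · exact myz
  · intro T hT h3 hvT hIT
    rcases three_sub_T3D hT hvT h3 with rfl | rfl | rfl
    · refine key_mark μ _ {x, y} {v, x} {v, y} (decide (B {x, y})) p q ?_ ?_ ?_ cxy cvx cvy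
        (by simpa using mxy) mvx mvy (a1 (by simpa using hIT))
      all_goals simp [Finset.insert_subset_iff]
    · refine key_mark μ _ {x, z} {v, x} {v, z} (decide (B {x, z})) p r ?_ ?_ ?_ cxz cvx cvz
        (by simpa using mxz) mvx mvz (a2 (by simpa using hIT))
      all_goals simp [Finset.insert_subset_iff]
    · refine key_mark μ _ {y, z} {v, y} {v, z} (decide (B {y, z})) q r ?_ ?_ ?_ cyz cvy cvz
        (by simpa using myz) mvy mvz (a3 (by simpa using hIT))
      all_goals simp [Finset.insert_subset_iff]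
  · intro T hT h3 hvT hIT
    rcases three_sub_T3D hT hvT h3 with rfl | rfl | rfl
    · rw [n1']
      obtain ⟨d0, d1, d2⟩ := c1 (by simpa using hIT)
      refine ⟨hun _, fun e he h2 hcond => ?_⟩
      have he' : e ⊆ {v, x, y} := he
      rcases two_sub_T3D he' h2 with rfl | rfl | rfl
      · refine bn_mark p n₁ _ mvx (d1 ?_)
        rcases hcond with h | ⟨T', hT', h3', hv', heT', hI'⟩
        · exact absurd (h (by simp)) hv
        · rcases three_sub_T3D hT' hv' h3' with rfl | rfl | rfl
          · exact absurd hI' hIT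
          · simpa using hI'
          · exact absurd (heT' (by simp : x ∈ ({v, x} : Finset V)))
              (by simp [hvx.symm, hxy, hxz])
      · refine bn_mark q n₁ _ mvy (d2 ?_)
        rcases hcond with h | ⟨T', hT', h3', hv', heT', hI'⟩
        · exact absurd (h (by simp)) hv
        · rcases three_sub_T3D hT' hv' h3' with rfl | rfl | rfl
          · exact absurd hI' hIT
          · exact absurd (heT' (by simp : y ∈ ({v, y} : Finset V)))
              (by simp [hvy.symm, hxy.symm, hyz])
          · simpa using hI'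
      · exact bn_mark _ n₁ _ (by simpa using mxy) d0
    · rw [n2']
      obtain ⟨d0, d1, d2⟩ := c2 (by simpa using hIT)
      refine ⟨hun _, fun e he h2 hcond => ?_⟩
      have he' : e ⊆ {v, x, z} := he
      rcases two_sub_T3D he' h2 with rfl | rfl | rfl
      · refine bn_mark p n₂ _ mvx (d1 ?_)
        rcases hcond with h | ⟨T', hT', h3', hv', heT', hI'⟩
        · exact absurd (h (by simp)) hv
        · rcases three_sub_T3D hT' hv' h3' with rfl | rfl | rfl
          · simpa using hI'
          · exact absurd hI' hIT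
          · exact absurd (heT' (by simp : x ∈ ({v, x} : Finset V)))
              (by simp [hvx.symm, hxy, hxz])
      · refine bn_mark r n₂ _ mvz (d2 ?_)
        rcases hcond with h | ⟨T', hT', h3', hv', heT', hI'⟩
        · exact absurd (h (by simp)) hv
        · rcases three_sub_T3D hT' hv' h3' with rfl | rfl | rfl
          · exact absurd (heT' (by simp : z ∈ ({v, z} : Finset V)))
              (by simp [hvz.symm, hxz.symm, hyz.symm])
          · exact absurd hI' hIT
          · simpa using hI'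
      · exact bn_mark _ n₂ _ (by simpa using mxz) d0
    · rw [n3']
      obtain ⟨d0, d1, d2⟩ := c3 (by simpa using hIT)
      refine ⟨hun _, fun e he h2 hcond => ?_⟩
      have he' : e ⊆ {v, y, z} := he
      rcases two_sub_T3D he' h2 with rfl | rfl | rfl
      · refine bn_mark q n₃ _ mvy (d1 ?_)
        rcases hcond with h | ⟨T', hT', h3', hv', heT', hI'⟩
        · exact absurd (h (by simp)) hv
        · rcases three_sub_T3D hT' hv' h3' with rfl | rfl | rfl
          · simpa using hI'
          · exact absurd (heT' (by simp : y ∈ ({v, y} : Finset V)))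
              (by simp [hvy.symm, hxy.symm, hyz])
          · exact absurd hI' hIT
      · refine bn_mark r n₃ _ mvz (d2 ?_)
        rcases hcond with h | ⟨T', hT', h3', hv', heT', hI'⟩
        · exact absurd (h (by simp)) hv
        · rcases three_sub_T3D hT' hv' h3' with rfl | rfl | rfl
          · exact absurd (heT' (by simp : z ∈ ({v, z} : Finset V)))
              (by simp [hvz.symm, hxz.symm, hyz.symm])
          · simpa using hI'
          · exact absurd hI' hIT
      · exact bn_mark _ n₃ _ (by simpa using myz) d0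

/-- the edges of `T` -/
noncomputable def P2 (T : Finset V) : Finset (Finset V) :=
  T.powerset.filter (fun e : Finset V => e.card = 2)

theorem mem_P2 {T e : Finset V} : e ∈ P2 T ↔ e ⊆ T ∧ e.card = 2 := by
  unfold P2
  rw [Finset.mem_filter, Finset.mem_powerset]

theorem card_P2 {T : Finset V} (h : T.card = 3) : (P2 T).card = 3 := by
  have : P2 T = T.powersetCard 2 := by
    ext e
    rw [mem_P2, Finset.mem_powersetCard]
  rw [this, Finset.card_powersetCard, h]
  rfl

theorem pick_mark {T : Finset V} (h : T.card = 3) (k : ℕ) (hk : k = 1 ∨ k = 2)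
    (U : Finset (Finset (Finset V))) (hU : U.card ≤ 2) :
    ∃ S ⊆ P2 T, S.card = k ∧ S ∉ U := by
  have h3 : ((P2 T).powersetCard k).card = 3 := by
    rw [Finset.card_powersetCard, card_P2 h]
    rcases hk with rfl | rfl <;> rfl
  have : ∃ S ∈ (P2 T).powersetCard k, S ∉ U := by
    by_contra hcon
    push Not at hcon
    have := Finset.card_le_card (show (P2 T).powersetCard k ⊆ U from hcon)
    omega
  obtain ⟨S, hS, hSU⟩ := this
  rw [Finset.mem_powersetCard] at hS
  exact ⟨S, hS.1, hS.2, hSU⟩

theorem nonconst_of_card {T : Finset V} (h : T.card = 3) {S : Finset (Finset V)} (hS : S ⊆ P2 T)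
    (hk : S.card = 1 ∨ S.card = 2) :
    (∃ e ⊆ T, e.card = 2 ∧ e ∈ S) ∧ (∃ e ⊆ T, e.card = 2 ∧ e ∉ S) := by
  constructor
  · have : S.Nonempty := by
      rw [← Finset.card_pos]; omega
    obtain ⟨e, he⟩ := this
    have := mem_P2.mp (hS he)
    exact ⟨e, this.1, this.2, he⟩
  · have h3 := card_P2 h
    have : ∃ e ∈ P2 T, e ∉ S := by
      by_contra hcon
      push Not at hcon
      have := Finset.card_le_card (show P2 T ⊆ S from hcon)
      omega
    obtain ⟨e, he, heS⟩ := this
    rw [mem_P2] at he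
    exact ⟨e, he.1, he.2, heS⟩

theorem mark_count {T : Finset V} (h : T.card = 3) {μ : Finset V → Prop}
    (h1 : ∃ e ⊆ T, e.card = 2 ∧ μ e) (h2 : ∃ e ⊆ T, e.card = 2 ∧ ¬ μ e) :
    ((P2 T).filter μ).card = 1 ∨ ((P2 T).filter μ).card = 2 := by
  obtain ⟨e, he, he2, hμ⟩ := h1
  obtain ⟨e', he', he2', hμ'⟩ := h2
  have a1 : 0 < ((P2 T).filter μ).card := by
    rw [Finset.card_pos]
    exact ⟨e, Finset.mem_filter.mpr ⟨mem_P2.mpr ⟨he, he2⟩, hμ⟩⟩
  have a2 : ((P2 T).filter μ).card < (P2 T).card := by
    apply Finset.card_lt_card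
    rw [Finset.filter_ssubset]
    exact ⟨e', mem_P2.mpr ⟨he', he2'⟩, hμ'⟩
  rw [card_P2 h] at a2
  omega

/-- the conclusion of `data_ind`, for one triangle -/
structure GoodT (H : SimpleGraph V) (W : Finset V) (ρ : Finset V → ℕ)
    (F : Finset V → Finset V → Prop) (m : Finset V → ℕ) (T : Finset V) : Prop where
  one : ρ T = 1 → m T ≤ 1 ∧ ∀ e ⊆ T, e.card = 2 →
        (∃ T' ∈ Ks 3 H W, e ⊆ T' ∧ 2 ≤ ρ T') → ∀ Q ∈ sides H W T, (F Q e ↔ m T = 1)
  two : ρ T = 2 → m T = 1 ∧
        (∀ Q ∈ sides H W T, (∃ e ⊆ T, e.card = 2 ∧ F Q e) ∧ (∃ e ⊆ T, e.card = 2 ∧ ¬ F Q e)) ∧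
        ∀ Q ∈ sides H W T, ∀ Q' ∈ sides H W T, Q ≠ Q' → ∀ e ⊆ T, e.card = 2 →
          (F Q e ↔ ¬ F Q' e)
  three : ρ T = 3 → (m T = 1 ∨ m T = 2) ∧
        (∀ Q ∈ sides H W T, ((P2 T).filter (F Q)).card = m T) ∧
        ∀ Q ∈ sides H W T, ∀ Q' ∈ sides H W T, Q ≠ Q' → ∃ e ⊆ T, e.card = 2 ∧
          ¬ (F Q e ↔ F Q' e)

theorem mem_Ks_T3D {k : ℕ} {H : SimpleGraph V} {W K : Finset V} :
    K ∈ Ks k H W ↔ K ⊆ W ∧ H.IsNClique k K := by
  unfold Ks
  rw [Finset.mem_filter, Finset.mem_powerset]

theorem mem_sides_T3D {H : SimpleGraph V} {W T Q : Finset V} :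
    Q ∈ sides H W T ↔ Q ∈ Ks 4 H W ∧ T ⊆ Q := by
  unfold sides
  rw [Finset.mem_filter]

/-- the new triangles -/
theorem goodT_new {H : SimpleGraph V} {W' : Finset V} {ρ : Finset V → ℕ}
    {F : Finset V → Finset V → Prop} {m n : Finset V → ℕ} {T T0 : Finset V} {v : V}
    {μ : Finset V → Prop} (hT : T ⊆ insert v T0) (h3 : T.card = 3) (hv : v ∈ T)
    (hs : ∀ Q' ∈ sides H W' T, Q' = insert v T0)
    (p1 : 2 ≤ ρ T → (∃ e ⊆ T, e.card = 2 ∧ μ e) ∧ (∃ e ⊆ T, e.card = 2 ∧ ¬ μ e))
    (p2 : ¬ 2 ≤ ρ T → n T ≤ 1 ∧ ∀ e ⊆ T, e.card = 2 →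
        (e ⊆ T0 ∨ ∃ T' ⊆ insert v T0, T'.card = 3 ∧ v ∈ T' ∧ e ⊆ T' ∧ 2 ≤ ρ T') →
          (μ e ↔ n T = 1))
    (hW' : ∀ T' ∈ Ks 3 H W', ∀ e ⊆ T, e ⊆ T' → 2 ≤ ρ T' →
      (e ⊆ T0 ∨ ∃ T' ⊆ insert v T0, T'.card = 3 ∧ v ∈ T' ∧ e ⊆ T' ∧ 2 ≤ ρ T')) :
    GoodT H W' ρ (fun Q e => if Q = insert v T0 then μ e else F Q e)
      (fun T => if v ∈ T then (if ρ T = 1 then n T else if ρ T = 2 then 1 else
        ((P2 T).filter μ).card) else m T) T := by
  constructor
  · intro hρ
    obtain ⟨q1, q2⟩ := p2 (by omega)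
    simp only [hv, if_true, hρ]
    refine ⟨q1, fun e he h2 hT' Q hQ => ?_⟩
    obtain ⟨T', hT', heT', hρT'⟩ := hT'
    rw [hs Q hQ, if_pos rfl]
    exact q2 e he h2 (hW' T' hT' e he heT' hρT')
  · intro hρ
    have q := p1 (by omega)
    simp only [hv, if_true, hρ]
    refine ⟨by norm_num, fun Q hQ => ?_, fun Q hQ Q' hQ' hne => ?_⟩
    · rw [hs Q hQ]
      simpa using q
    · exact absurd ((hs Q hQ).trans (hs Q' hQ').symm) hne
  · intro hρ
    have q := p1 (by omega)
    simp only [hv, if_true, hρ]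
    refine ⟨by simpa using mark_count h3 q.1 q.2, fun Q hQ => ?_, fun Q hQ Q' hQ' hne => ?_⟩
    · rw [hs Q hQ]
      simp
    · exact absurd ((hs Q hQ).trans (hs Q' hQ').symm) hne

/-- The inductive statement; `ρ T` is the number of sides the triangle `T` will have in the end.
In the step `insert v W` with triangle `T` (so `ρ T ≥ 2`) use the statement for `W` with the same
`ρ`, choose the marked edges of `T` in `Q = insert v T` (the complement of those of the other side
if `ρ T = 2`; a set of `m T` edges different from the at most two sets already used if `ρ T = 3`),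
then `local_step` for the three new triangles. -/
theorem data_ind {H : SimpleGraph V} {W : Finset V} (hW : IsTree3 H W) (ρ : Finset V → ℕ)
    (hρ : ∀ T ∈ Ks 3 H W, (sides H W T).card ≤ ρ T ∧ ρ T ≤ 3) :
    ∃ (F : Finset V → Finset V → Prop) (m : Finset V → ℕ),
      (∀ T ∈ Ks 3 H W, ρ T = 1 → m T ≤ 1 ∧ ∀ e ⊆ T, e.card = 2 →
        (∃ T' ∈ Ks 3 H W, e ⊆ T' ∧ 2 ≤ ρ T') → ∀ Q ∈ sides H W T, (F Q e ↔ m T = 1)) ∧
      (∀ T ∈ Ks 3 H W, ρ T = 2 → m T = 1 ∧
        (∀ Q ∈ sides H W T, (∃ e ⊆ T, e.card = 2 ∧ F Q e) ∧ (∃ e ⊆ T, e.card = 2 ∧ ¬ F Q e)) ∧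
        ∀ Q ∈ sides H W T, ∀ Q' ∈ sides H W T, Q ≠ Q' → ∀ e ⊆ T, e.card = 2 →
          (F Q e ↔ ¬ F Q' e)) ∧
      (∀ T ∈ Ks 3 H W, ρ T = 3 → (m T = 1 ∨ m T = 2) ∧
        (∀ Q ∈ sides H W T,
          ((T.powerset.filter (fun e : Finset V => e.card = 2)).filter (F Q)).card = m T) ∧
        ∀ Q ∈ sides H W T, ∀ Q' ∈ sides H W T, Q ≠ Q' → ∃ e ⊆ T, e.card = 2 ∧
          ¬ (F Q e ↔ F Q' e)) := by
  suffices h : ∃ F m, ∀ T ∈ Ks 3 H W, GoodT H W ρ F m T by
    obtain ⟨F, m, h⟩ := h
    exact ⟨F, m, fun T hT => (h T hT).one, fun T hT => (h T hT).two, fun T hT => (h T hT).three⟩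
  induction hW with
  | base s hs =>
    have hs4 : s.card = 4 := hs.card_eq
    have hsides : ∀ T, ∀ Q ∈ sides H s T, Q = s := by
      intro T Q hQ
      rw [mem_sides_T3D, mem_Ks_T3D] at hQ
      exact Finset.eq_of_subset_of_card_le hQ.1.1 (by rw [hs4, hQ.1.2.card_eq])
    by_cases hex : ∃ T0 ∈ Ks 3 H s, 2 ≤ ρ T0
    · obtain ⟨T0, hT0, hρ0⟩ := hex
      have hT0' := mem_Ks_T3D.mp hT0
      have h3 : T0.card = 3 := hT0'.2.card_eq
      obtain ⟨a, ha, hsa⟩ : ∃ a ∉ T0, insert a T0 = s :=
        Finset.exists_eq_insert_iff.mpr ⟨hT0'.1, by rw [h3, hs4]⟩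
      obtain ⟨S, hS, hSc, -⟩ := pick_mark h3 1 (Or.inl rfl) ∅ (by simp)
      obtain ⟨c1, c2⟩ := nonconst_of_card h3 hS (Or.inl hSc)
      obtain ⟨μ, n, l1, l2, l3⟩ := local_mark a T0 ha h3 (fun e => e ∈ S) c1 c2
        (fun T => 2 ≤ ρ T)
      refine ⟨fun Q e => if Q = insert a T0 then μ e else False, fun T => if a ∈ T then
        (if ρ T = 1 then n T else if ρ T = 2 then 1 else ((P2 T).filter μ).card) else 1, ?_⟩
      intro T hT
      have hT' := mem_Ks_T3D.mp hT
      have hTc : T.card = 3 := hT'.2.card_eq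
      by_cases haT : a ∈ T
      · have hTs : T ⊆ insert a T0 := by rw [hsa]; exact hT'.1
        refine goodT_new (F := fun _ _ => False) (m := fun _ => 1) hTs hTc haT ?_ ?_ ?_ ?_
        · intro Q' hQ'
          rw [hsa]
          exact hsides T Q' hQ'
        · exact l2 T hTs hTc haT
        · exact l3 T hTs hTc haT
        · intro T' hT' e heT heT' hρT'
          have hT'' := mem_Ks_T3D.mp hT'
          by_cases haT' : a ∈ T'
          · exact Or.inr ⟨T', by rw [hsa]; exact hT''.1, hT''.2.card_eq, haT', heT', hρT'⟩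
          · left
            intro w hw
            have h1 := hT''.1 (heT' hw)
            rw [← hsa, Finset.mem_insert] at h1
            rcases h1 with h1 | h1
            · subst h1
              exact absurd (heT' hw) haT'
            · exact h1
      · have hTT0 : T = T0 := by
          apply Finset.eq_of_subset_of_card_le _ (by rw [hTc, h3])
          intro w hw
          have h1 := hT'.1 hw
          rw [← hsa, Finset.mem_insert] at h1
          rcases h1 with h1 | h1
          · subst h1
            exact absurd hw haT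
          · exact h1
        subst hTT0
        have hcount : ((P2 T).filter μ).card = 1 := by
          rw [← hSc]
          congr 1
          ext e
          rw [Finset.mem_filter]
          constructor
          · rintro ⟨h1, h2⟩
            rw [mem_P2] at h1
            exact (l1 e h1.1 h1.2).mp h2
          · intro he
            have h1 := mem_P2.mp (hS he)
            exact ⟨hS he, (l1 e h1.1 h1.2).mpr he⟩
        have hnc : (∃ e ⊆ T, e.card = 2 ∧ μ e) ∧ (∃ e ⊆ T, e.card = 2 ∧ ¬ μ e) := by
          obtain ⟨e, he, he2, heS⟩ := c1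
          obtain ⟨e', he', he2', heS'⟩ := c2
          exact ⟨⟨e, he, he2, (l1 e he he2).mpr heS⟩,
            ⟨e', he', he2', fun h => heS' ((l1 e' he' he2').mp h)⟩⟩
        constructor
        · intro h; omega
        · intro _
          simp only [haT, if_false]
          refine ⟨trivial, fun Q hQ => ?_, fun Q hQ Q' hQ' hne => ?_⟩
          · rw [hsides T Q hQ, ← hsa]
            simpa using hnc
          · exact absurd ((hsides T Q hQ).trans (hsides T Q' hQ').symm) hne
        · intro _
          simp only [haT, if_false]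
          refine ⟨Or.inl trivial, fun Q hQ => ?_, fun Q hQ Q' hQ' hne => ?_⟩
          · rw [hsides T Q hQ, ← hsa]
            simpa using hcount
          · exact absurd ((hsides T Q hQ).trans (hsides T Q' hQ').symm) hne
    · push Not at hex
      refine ⟨fun _ _ => False, fun _ => 0, fun T hT => ?_⟩
      constructor
      · intro _
        refine ⟨by simp, fun e he h2 h => ?_⟩
        obtain ⟨T', hT', _, h⟩ := h
        have := hex T' hT'
        omega
      · intro h
        have := hex T hT
        omega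
      · intro h
        have := hex T hT
        omega
  | step W T0 v hW hTW hT hv hN ih =>
    have h3 : T0.card = 3 := hT.card_eq
    have hvT0 : v ∉ T0 := fun h => hv (hTW h)
    have hK3 : ∀ T, T ∈ Ks 3 H (insert v W) ↔ T ∈ Ks 3 H W ∨
        ∃ e ⊆ T0, e.card = 2 ∧ insert v e = T := by
      intro T
      rw [Ks_insert hTW hT hv hN 2, Finset.mem_union, Finset.mem_image]
      simp only [Finset.mem_filter, Finset.mem_powerset, and_assoc]
    have hK4 : ∀ Q, Q ∈ Ks 4 H (insert v W) ↔ Q ∈ Ks 4 H W ∨ Q = insert v T0 := by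
      intro Q
      rw [Ks_insert hTW hT hv hN 3, Finset.mem_union, Finset.mem_image]
      simp only [Finset.mem_filter, Finset.mem_powerset, and_assoc]
      constructor
      · rintro (h | ⟨a, h1, h2, rfl⟩)
        · exact Or.inl h
        · right
          rw [Finset.eq_of_subset_of_card_le h1 (by rw [h2, h3])]
      · rintro (h | rfl)
        · exact Or.inl h
        · exact Or.inr ⟨T0, Finset.Subset.refl _, h3, rfl⟩
    have hvK : ∀ k, ∀ K ∈ Ks k H W, v ∉ K := fun k K hK h => hv ((mem_Ks_T3D.mp hK).1 h)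
    have hmono : ∀ T, sides H W T ⊆ sides H (insert v W) T := by
      intro T Q hQ
      rw [mem_sides_T3D] at hQ ⊢
      exact ⟨(hK4 Q).mpr (Or.inl hQ.1), hQ.2⟩
    have hT0K : T0 ∈ Ks 3 H W := mem_Ks_T3D.mpr ⟨hTW, hT⟩
    have hT0K' : T0 ∈ Ks 3 H (insert v W) := (hK3 T0).mpr (Or.inl hT0K)
    have hQK : insert v T0 ∈ sides H (insert v W) T0 :=
      mem_sides_T3D.mpr ⟨(hK4 _).mpr (Or.inr rfl), Finset.subset_insert _ _⟩
    have hQK' : ∀ T, insert v T0 ∉ sides H W T := by
      intro T h
      exact hvK 4 _ (mem_sides_T3D.mp h).1 (Finset.mem_insert_self _ _)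
    obtain ⟨F, m, hgood⟩ := ih (fun T hT => by
      have h1 := hρ T ((hK3 T).mpr (Or.inl hT))
      exact ⟨(Finset.card_le_card (hmono T)).trans h1.1, h1.2⟩)
    have hcard : (sides H W T0).card + 1 ≤ ρ T0 := by
      have h1 := (hρ T0 hT0K').1
      have h2 : (insert (insert v T0) (sides H W T0)).card ≤ (sides H (insert v W) T0).card := by
        apply Finset.card_le_card
        rw [Finset.insert_subset_iff]
        exact ⟨hQK, hmono T0⟩
      rw [Finset.card_insert_of_notMem (hQK' T0)] at h2
      omega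
    have hne0 := sides_nonempty hW hT0K
    have hpos : 0 < (sides H W T0).card := Finset.card_pos.mpr hne0
    have hρ3 := (hρ T0 hT0K').2
    -- the marks of `T0` in the new complete graph
    obtain ⟨B, hB1, hB2, hB3, hB4⟩ : ∃ B : Finset V → Prop,
        (∃ e ⊆ T0, e.card = 2 ∧ B e) ∧ (∃ e ⊆ T0, e.card = 2 ∧ ¬ B e) ∧
        (ρ T0 = 2 → ∀ Q ∈ sides H W T0, ∀ e ⊆ T0, e.card = 2 → (B e ↔ ¬ F Q e)) ∧
        (ρ T0 = 3 → ((P2 T0).filter B).card = m T0 ∧
          ∀ Q ∈ sides H W T0, ∃ e ⊆ T0, e.card = 2 ∧ ¬ (B e ↔ F Q e)) := by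
      have hρ2 : ρ T0 = 2 ∨ ρ T0 = 3 := by omega
      rcases hρ2 with h2 | h2
      · have hone : (sides H W T0).card = 1 := by omega
        obtain ⟨Q0, hQ0⟩ := Finset.card_eq_one.mp hone
        obtain ⟨g1, g2, g3⟩ := (hgood T0 hT0K).two h2
        obtain ⟨⟨e, he, he2, heF⟩, ⟨e', he', he2', heF'⟩⟩ := g2 Q0 (by rw [hQ0]; simp)
        refine ⟨fun e => ¬ F Q0 e, ⟨e', he', he2', heF'⟩, ⟨e, he, he2, fun h => h heF⟩, ?_, ?_⟩
        · intro _ Q hQ e he he2
          rw [hQ0, Finset.mem_singleton] at hQ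
          rw [hQ]
        · intro h; omega
      · obtain ⟨g1, g2, g3⟩ := (hgood T0 hT0K).three h2
        obtain ⟨S, hS, hSc, hSU⟩ := pick_mark h3 (m T0) g1
          ((sides H W T0).image (fun Q => (P2 T0).filter (F Q)))
          (Finset.card_image_le.trans (by omega))
        obtain ⟨c1, c2⟩ := nonconst_of_card h3 hS (by rw [hSc]; exact g1)
        refine ⟨fun e => e ∈ S, c1, c2, ?_, ?_⟩
        · intro h; omega
        · intro _
          constructor
          · rw [← hSc]
            congr 1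
            ext e
            simp only [Finset.mem_filter]
            exact ⟨fun h => h.2, fun h => ⟨hS h, h⟩⟩
          · intro Q hQ
            by_contra hcon
            push Not at hcon
            apply hSU
            rw [Finset.mem_image]
            refine ⟨Q, hQ, ?_⟩
            ext e
            rw [Finset.mem_filter]
            constructor
            · rintro ⟨h1, h2⟩
              rw [mem_P2] at h1
              exact (hcon e h1.1 h1.2).mpr h2
            · intro h
              have h1 := mem_P2.mp (hS h)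
              exact ⟨hS h, (hcon e h1.1 h1.2).mp h⟩
    obtain ⟨μ, n, l1, l2, l3⟩ := local_mark v T0 hvT0 h3 B hB1 hB2 (fun T => 2 ≤ ρ T)
    refine ⟨fun Q e => if Q = insert v T0 then μ e else F Q e, fun T => if v ∈ T then
        (if ρ T = 1 then n T else if ρ T = 2 then 1 else ((P2 T).filter μ).card) else m T, ?_⟩
    intro T hT'
    by_cases hvT : v ∈ T
    · -- a new triangle
      have hTn : ∃ e ⊆ T0, e.card = 2 ∧ insert v e = T := by
        rcases (hK3 T).mp hT' with h | h
        · exact absurd hvT (hvK 3 T h)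
        · exact h
      have hTs : T ⊆ insert v T0 := by
        obtain ⟨e, he, _, rfl⟩ := hTn
        exact Finset.insert_subset_insert _ he
      have hTc : T.card = 3 := (mem_Ks_T3D.mp hT').2.card_eq
      refine goodT_new hTs hTc hvT ?_ ?_ ?_ ?_
      · intro Q' hQ'
        rw [mem_sides_T3D, hK4] at hQ'
        rcases hQ'.1 with h | h
        · exact absurd (hQ'.2 hvT) (hvK 4 Q' h)
        · exact h
      · exact l2 T hTs hTc hvT
      · exact l3 T hTs hTc hvT
      · intro T' hT'' e heT heT' hρT'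
        rcases (hK3 T').mp hT'' with h | ⟨e', he', _, hee'⟩
        · left
          have hve : v ∉ e := fun hh => hvK 3 T' h (heT' hh)
          intro w hw
          have := hTs (heT hw)
          rw [Finset.mem_insert] at this
          rcases this with rfl | h1
          · exact absurd hw hve
          · exact h1
        · right
          refine ⟨T', ?_, (mem_Ks_T3D.mp hT'').2.card_eq, ?_, heT', hρT'⟩
          · rw [← hee']
            exact Finset.insert_subset_insert _ he'
          · rw [← hee']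
            exact Finset.mem_insert_self _ _
    · have hTW' : T ∈ Ks 3 H W := by
        rcases (hK3 T).mp hT' with h | ⟨e, _, _, rfl⟩
        · exact h
        · exact absurd (Finset.mem_insert_self _ _) hvT
      have hTc : T.card = 3 := (mem_Ks_T3D.mp hT').2.card_eq
      have hg := hgood T hTW'
      have hcond : ∀ e ⊆ T, (∃ T' ∈ Ks 3 H (insert v W), e ⊆ T' ∧ 2 ≤ ρ T') →
          ∃ T' ∈ Ks 3 H W, e ⊆ T' ∧ 2 ≤ ρ T' := by
        rintro e he ⟨T', hT'', heT', hρT'⟩
        rcases (hK3 T').mp hT'' with h | ⟨e', he', _, rfl⟩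
        · exact ⟨T', h, heT', hρT'⟩
        · refine ⟨T0, hT0K, ?_, by omega⟩
          intro w hw
          have := heT' hw
          rw [Finset.mem_insert] at this
          rcases this with rfl | h1
          · exact absurd (he hw) hvT
          · exact he' h1
      have hQne : ∀ T, ∀ Q ∈ sides H W T, Q ≠ insert v T0 := by
        rintro T Q hQ rfl
        exact hQK' T hQ
      by_cases hTT0 : T = T0
      · subst hTT0
        have hsd : ∀ Q, Q ∈ sides H (insert v W) T ↔ Q ∈ sides H W T ∨ Q = insert v T := by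
          intro Q
          rw [mem_sides_T3D, mem_sides_T3D, hK4]
          constructor
          · rintro ⟨h1 | h1, h2⟩
            · exact Or.inl ⟨h1, h2⟩
            · exact Or.inr h1
          · rintro (h1 | rfl)
            · exact ⟨Or.inl h1.1, h1.2⟩
            · exact ⟨Or.inr rfl, Finset.subset_insert _ _⟩
        have hnc : (∃ e ⊆ T, e.card = 2 ∧ μ e) ∧ (∃ e ⊆ T, e.card = 2 ∧ ¬ μ e) := by
          obtain ⟨e, he, he2, heS⟩ := hB1
          obtain ⟨e', he', he2', heS'⟩ := hB2
          exact ⟨⟨e, he, he2, (l1 e he he2).mpr heS⟩,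
            ⟨e', he', he2', fun h => heS' ((l1 e' he' he2').mp h)⟩⟩
        constructor
        · intro h; omega
        · intro h2
          obtain ⟨g1, g2, g3⟩ := hg.two h2
          simp only [hvT, if_false]
          refine ⟨g1, fun Q hQ => ?_, fun Q hQ Q' hQ' hne e he he2 => ?_⟩
          · rcases (hsd Q).mp hQ with h | rfl
            · simp only [hQne T Q h, if_false]
              exact g2 Q h
            · simpa using hnc
          · rcases (hsd Q).mp hQ with h | rfl <;> rcases (hsd Q').mp hQ' with h' | rfl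
            · simp only [hQne T Q h, hQne T Q' h', if_false]
              exact g3 Q h Q' h' hne e he he2
            · simp only [hQne T Q h, if_false, if_true]
              rw [l1 e he he2, hB3 h2 Q h e he he2]
              tauto
            · simp only [hQne T Q' h', if_false, if_true]
              rw [l1 e he he2, hB3 h2 Q' h' e he he2]
            · exact absurd rfl hne
        · intro h2
          obtain ⟨g1, g2, g3⟩ := hg.three h2
          obtain ⟨k1, k2⟩ := hB4 h2
          simp only [hvT, if_false]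
          refine ⟨g1, fun Q hQ => ?_, fun Q hQ Q' hQ' hne => ?_⟩
          · rcases (hsd Q).mp hQ with h | rfl
            · simp only [hQne T Q h, if_false]
              exact g2 Q h
            · simp only [if_true]
              rw [← k1]
              congr 1
              ext e
              rw [Finset.mem_filter, Finset.mem_filter]
              constructor
              · rintro ⟨q1, q2⟩
                have q3 := mem_P2.mp q1
                exact ⟨q1, (l1 e q3.1 q3.2).mp q2⟩
              · rintro ⟨q1, q2⟩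
                have q3 := mem_P2.mp q1
                exact ⟨q1, (l1 e q3.1 q3.2).mpr q2⟩
          · rcases (hsd Q).mp hQ with h | rfl <;> rcases (hsd Q').mp hQ' with h' | rfl
            · simp only [hQne T Q h, hQne T Q' h', if_false]
              exact g3 Q h Q' h' hne
            · simp only [hQne T Q h, if_false, if_true]
              obtain ⟨e, he, he2, hee⟩ := k2 Q h
              refine ⟨e, he, he2, ?_⟩
              rw [l1 e he he2]
              tauto
            · simp only [hQne T Q' h', if_false, if_true]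
              obtain ⟨e, he, he2, hee⟩ := k2 Q' h'
              refine ⟨e, he, he2, ?_⟩
              rw [l1 e he he2]
              exact hee
            · exact absurd rfl hne
      · have hsd : sides H (insert v W) T = sides H W T := by
          ext Q
          rw [mem_sides_T3D, mem_sides_T3D, hK4]
          constructor
          · rintro ⟨h1 | h1, h2⟩
            · exact ⟨h1, h2⟩
            · exfalso
              apply hTT0
              apply Finset.eq_of_subset_of_card_le _ (by rw [hTc, h3])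
              intro w hw
              have := h2 hw
              rw [h1, Finset.mem_insert] at this
              rcases this with rfl | h4
              · exact absurd hw hvT
              · exact h4
          · rintro ⟨h1, h2⟩
            exact ⟨Or.inl h1, h2⟩
        constructor
        · intro h1
          obtain ⟨g1, g2⟩ := hg.one h1
          simp only [hvT, if_false]
          refine ⟨g1, fun e he he2 hT'' Q hQ => ?_⟩
          rw [hsd] at hQ
          simp only [hQne T Q hQ, if_false]
          exact g2 e he he2 (hcond e he hT'') Q hQ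
        · intro h1
          obtain ⟨g1, g2, g3⟩ := hg.two h1
          simp only [hvT, if_false]
          rw [hsd]
          refine ⟨g1, fun Q hQ => ?_, fun Q hQ Q' hQ' hne e he he2 => ?_⟩
          · simp only [hQne T Q hQ, if_false]
            exact g2 Q hQ
          · simp only [hQne T Q hQ, hQne T Q' hQ', if_false]
            exact g3 Q hQ Q' hQ' hne e he he2
        · intro h1
          obtain ⟨g1, g2, g3⟩ := hg.three h1
          simp only [hvT, if_false]
          rw [hsd]
          refine ⟨g1, fun Q hQ => ?_, fun Q hQ Q' hQ' hne => ?_⟩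
          · simp only [hQne T Q hQ, if_false]
            exact g2 Q hQ
          · simp only [hQne T Q hQ, hQne T Q' hQ', if_false]
            exact g3 Q hQ Q' hQ' hne

end MZ
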