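import Pool.Agent.MZ.T3Data

/-!
# MZ-13: the data
-/

open scoped Classical
open Finset

namespace MZ

variable {V : Type} [Fintype V]

/-- If every `Q ∈ S` is related to exactly one element of `E`, distinct `Q` to distinct elements,
and `E` and `S` have the same number of elements, then the relation is a bijection. -/
theorem bij_of_one {α β : Type} (S : Finset α) (E : Finset β) (hc : E.card ≤ S.card)
    (R : α → β → Prop) (h1 : ∀ Q ∈ S, (E.filter (R Q)).card = 1)
    (h2 : ∀ Q ∈ S, ∀ Q' ∈ S, Q ≠ Q' → ∃ e ∈ E, ¬ (R Q e ↔ R Q' e)) :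
    (∀ e ∈ E, (S.filter (fun Q => R Q e)).card = 1) ∧
      ∀ Q ∈ S, ∃ e ∈ E, S.filter (fun Q' => R Q' e) = {Q} := by
  have h3 : ∀ Q (hQ : Q ∈ S), ∃ e, E.filter (R Q) = {e} := fun Q hQ =>
    Finset.card_eq_one.1 (h1 Q hQ)
  choose f hf using h3
  have hfE : ∀ Q (hQ : Q ∈ S), f Q hQ ∈ E ∧ R Q (f Q hQ) := by
    intro Q hQ
    have : f Q hQ ∈ E.filter (R Q) := by
      rw [hf Q hQ]
      exact Finset.mem_singleton_self _
    exact Finset.mem_filter.1 this
  have hfu : ∀ Q (hQ : Q ∈ S), ∀ e ∈ E, R Q e → e = f Q hQ := by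
    intro Q hQ e he hR
    have : e ∈ E.filter (R Q) := Finset.mem_filter.2 ⟨he, hR⟩
    rw [hf Q hQ] at this
    exact Finset.mem_singleton.1 this
  have hinj : ∀ Q Q' (hQ : Q ∈ S) (hQ' : Q' ∈ S), f Q hQ = f Q' hQ' → Q = Q' := by
    intro Q Q' hQ hQ' h
    by_contra hne
    obtain ⟨e, he, hne'⟩ := h2 Q hQ Q' hQ' hne
    apply hne'
    constructor
    · intro hR
      rw [hfu Q hQ e he hR, h]
      exact (hfE Q' hQ').2
    · intro hR
      rw [hfu Q' hQ' e he hR, ← h]
      exact (hfE Q hQ).2
  have hsing : ∀ Q (hQ : Q ∈ S), S.filter (fun Q' => R Q' (f Q hQ)) = {Q} := by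
    intro Q hQ
    ext Q'
    rw [Finset.mem_filter, Finset.mem_singleton]
    constructor
    · rintro ⟨hQ', hR⟩
      exact (hinj Q Q' hQ hQ' (hfu Q' hQ' _ (hfE Q hQ).1 hR)).symm
    · rintro rfl
      exact ⟨hQ, (hfE Q' hQ).2⟩
  refine ⟨?_, fun Q hQ => ⟨f Q hQ, (hfE Q hQ).1, hsing Q hQ⟩⟩
  intro e he
  obtain ⟨Q, hQ, heq⟩ := Finset.surj_on_of_inj_on_of_card_le (fun Q hQ => f Q hQ)
    (fun Q hQ => (hfE Q hQ).1) (fun Q Q' hQ hQ' h => hinj Q Q' hQ hQ' h) hc e he
  rw [heq, hsing Q hQ, Finset.card_singleton]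

/-- `data_ind` with `ρ T` the number of sides of `T` (1, 2 or 3). -/
theorem exists_data {H : SimpleGraph V} {W : Finset V} (hW : IsTree3 H W) (ht : Thin H W) :
    ∃ F m, Dat H W F m := by
  have hρ : ∀ T ∈ Ks 3 H W, (sides H W T).card ≤ (sides H W T).card ∧ (sides H W T).card ≤ 3 := by
    intro T hT
    refine ⟨le_refl _, ?_⟩
    rw [card_sides hT]
    have h := Finset.mem_filter.1 hT
    exact ht T (Finset.mem_powerset.1 h.1) h.2
  obtain ⟨F, m, hA, hB, hC⟩ := data_ind hW (fun T => (sides H W T).card) hρ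
  have hpos : ∀ T ∈ Ks 3 H W, 1 ≤ (sides H W T).card := fun T hT =>
    Finset.card_pos.2 (sides_nonempty hW hT)
  -- the edges of a triangle
  have hE : ∀ T ∈ Ks 3 H W, (T.powerset.filter (fun e : Finset V => e.card = 2)).card = 3 := by
    intro T hT
    have h3 : T.card = 3 := (Finset.mem_filter.1 hT).2.card_eq
    rw [← Finset.powersetCard_eq_filter, Finset.card_powersetCard, h3]
    rfl
  have hmemE : ∀ (T e : Finset V), e ∈ T.powerset.filter (fun e : Finset V => e.card = 2) ↔
      e ⊆ T ∧ e.card = 2 := by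
    intro T e
    rw [Finset.mem_filter, Finset.mem_powerset]
  -- the negation of `F`
  obtain ⟨G, hG⟩ : ∃ G : Finset V → Finset V → Prop, ∀ Q e, G Q e ↔ ¬ F Q e :=
    ⟨fun Q e => ¬ F Q e, fun _ _ => Iff.rfl⟩
  -- the case of three sides
  have key3 : ∀ T ∈ Ks 3 H W, (sides H W T).card = 3 →
      (∀ e ⊆ T, e.card = 2 → ((sides H W T).filter (fun Q => F Q e)).card = m T) ∧
      ((∀ Q ∈ sides H W T, ∃ e ⊆ T, e.card = 2 ∧
          (sides H W T).filter (fun Q' => F Q' e) = {Q}) ∨
        (∀ Q ∈ sides H W T, ∃ e ⊆ T, e.card = 2 ∧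
          (sides H W T).filter (fun Q' => G Q' e) = {Q})) := by
    intro T hT h3
    obtain ⟨hm, hcount, hdiff⟩ := hC T hT h3
    have hcE : (T.powerset.filter (fun e : Finset V => e.card = 2)).card ≤ (sides H W T).card := by
      rw [hE T hT, h3]
    rcases hm with hm | hm
    · obtain ⟨h1, h2⟩ := bij_of_one (sides H W T)
        (T.powerset.filter (fun e : Finset V => e.card = 2)) hcE F
        (fun Q hQ => by rw [hcount Q hQ, hm])
        (fun Q hQ Q' hQ' hne => by
          obtain ⟨e, heT, he2, hne'⟩ := hdiff Q hQ Q' hQ' hne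
          exact ⟨e, (hmemE T e).2 ⟨heT, he2⟩, hne'⟩)
      refine ⟨fun e heT he2 => by rw [h1 e ((hmemE T e).2 ⟨heT, he2⟩), hm], Or.inl ?_⟩
      intro Q hQ
      obtain ⟨e, he, hf⟩ := h2 Q hQ
      exact ⟨e, ((hmemE T e).1 he).1, ((hmemE T e).1 he).2, hf⟩
    · obtain ⟨h1, h2⟩ := bij_of_one (sides H W T)
        (T.powerset.filter (fun e : Finset V => e.card = 2)) hcE G
        (fun Q hQ => by
          have h4 := Finset.card_filter_add_card_filter_not
            (s := T.powerset.filter (fun e : Finset V => e.card = 2)) (F Q)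
          rw [hcount Q hQ, hE T hT, hm, Finset.filter_congr (q := G Q)
            (fun e _ => (hG Q e).symm)] at h4
          omega)
        (fun Q hQ Q' hQ' hne => by
          obtain ⟨e, heT, he2, hne'⟩ := hdiff Q hQ Q' hQ' hne
          refine ⟨e, (hmemE T e).2 ⟨heT, he2⟩, fun h => hne' ?_⟩
          rw [hG, hG] at h
          exact not_iff_not.1 h)
      refine ⟨fun e heT he2 => ?_, Or.inr ?_⟩
      · have h4 := Finset.card_filter_add_card_filter_not (s := sides H W T) (fun Q => F Q e)
        rw [Finset.filter_congr (q := fun Q => G Q e) (fun Q _ => (hG Q e).symm),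
          h1 e ((hmemE T e).2 ⟨heT, he2⟩), h3] at h4
        omega
      · intro Q hQ
        obtain ⟨e, he, hf⟩ := h2 Q hQ
        exact ⟨e, ((hmemE T e).1 he).1, ((hmemE T e).1 he).2, hf⟩
  refine ⟨F, m, ?_, ?_⟩
  · -- slack
    intro e T T' he2 heT heT' hT hT' hs
    have hle := (hρ T hT).2
    have hge := hpos T hT
    have hcases : (sides H W T).card = 1 ∨ (sides H W T).card = 2 ∨ (sides H W T).card = 3 := by
      omega
    rcases hcases with h | h | h
    · obtain ⟨hm, hF⟩ := hA T hT h
      obtain ⟨Q, hQ⟩ := Finset.card_eq_one.1 h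
      have hF' := hF e heT he2 ⟨T', hT', heT', hs⟩ Q (by rw [hQ]; exact Finset.mem_singleton_self _)
      rw [hQ, Finset.filter_singleton]
      by_cases hFQ : F Q e
      · rw [if_pos hFQ, Finset.card_singleton, hF'.1 hFQ]
      · rw [if_neg hFQ, Finset.card_empty]
        have : m T ≠ 1 := fun h => hFQ (hF'.2 h)
        omega
    · obtain ⟨hm, -, hcomp⟩ := hB T hT h
      obtain ⟨Q, Q', hne, hQ⟩ := Finset.card_eq_two.1 h
      have hQm : Q ∈ sides H W T := by rw [hQ]; simp
      have hQm' : Q' ∈ sides H W T := by rw [hQ]; simp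
      have h1 := hcomp Q hQm Q' hQm' hne e heT he2
      rw [hQ, hm, Finset.filter_insert, Finset.filter_singleton]
      by_cases hFQ : F Q e
      · rw [if_pos hFQ, if_neg (h1.1 hFQ)]
        rfl
      · have hFQ' : F Q' e := by
          by_contra hcon
          exact hFQ (h1.2 hcon)
        rw [if_neg hFQ, if_pos hFQ', Finset.card_singleton]
    · exact (key3 T hT h).1 e heT he2
  · -- link
    intro T hT z a hz Q hQ Q' hQ'
    by_cases hQQ : Q = Q'
    · rw [hQQ]
    have hle := (hρ T hT).2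
    have hge := hpos T hT
    have hcases : (sides H W T).card = 1 ∨ (sides H W T).card = 2 ∨ (sides H W T).card = 3 := by
      omega
    rcases hcases with h | h | h
    · obtain ⟨Q0, hQ0⟩ := Finset.card_eq_one.1 h
      rw [hQ0, Finset.mem_singleton] at hQ hQ'
      exact absurd (hQ.trans hQ'.symm) hQQ
    · obtain ⟨-, hex, hcomp⟩ := hB T hT h
      have hpair : sides H W T = {Q, Q'} := by
        symm
        apply Finset.eq_of_subset_of_card_le
        · intro R hR
          rcases Finset.mem_insert.1 hR with rfl | hR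
          · exact hQ
          · rw [Finset.mem_singleton.1 hR]
            exact hQ'
        · rw [h, Finset.card_pair hQQ]
      obtain ⟨⟨e, heT, he2, hFe⟩, ⟨e', heT', he2', hFe'⟩⟩ := hex Q hQ
      have h1 := hz e heT he2
      have h2 := hz e' heT' he2'
      have hn : ¬ F Q' e := (hcomp Q hQ Q' hQ' hQQ e heT he2).1 hFe
      have hy : F Q' e' := by
        by_contra hcon
        exact hFe' ((hcomp Q hQ Q' hQ' hQQ e' heT' he2').2 hcon)
      rw [hpair, Finset.filter_insert, Finset.filter_singleton, if_pos hFe, if_neg hn] at h1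
      rw [hpair, Finset.filter_insert, Finset.filter_singleton, if_neg hFe', if_pos hy,
        Finset.sum_singleton] at h2
      rw [show insert Q (∅ : Finset (Finset V)) = {Q} from rfl, Finset.sum_singleton] at h1
      linarith
    · rcases (key3 T hT h).2 with h1 | h1
      · have h2 : ∀ R ∈ sides H W T, z R = -a := by
          intro R hR
          obtain ⟨e, heT, he2, hf⟩ := h1 R hR
          have h3 := hz e heT he2
          rw [hf, Finset.sum_singleton] at h3
          linarith
        rw [h2 Q hQ, h2 Q' hQ']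
      · have h2 : ∀ R ∈ sides H W T, z R = a + ∑ P ∈ sides H W T, z P := by
          intro R hR
          obtain ⟨e, heT, he2, hf⟩ := h1 R hR
          have h3 := hz e heT he2
          have h4 := Finset.sum_filter_add_sum_filter_not (sides H W T) (fun Q' => F Q' e) z
          rw [Finset.filter_congr (p := fun Q' => ¬ F Q' e) (q := fun Q => G Q e)
            (fun Q _ => (hG Q e).symm), hf, Finset.sum_singleton] at h4
          linarith
        rw [h2 Q hQ, h2 Q' hQ']

end MZ
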