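import Pool.Agent.MZ.Defs

/-!
# Thin 3-trees: definitions
-/

open scoped Classical
open Finset

namespace MZ

variable {V : Type} [Fintype V]

/-- the cliques with `k` vertices inside `W` -/
noncomputable def Ks (k : ℕ) (H : SimpleGraph V) (W : Finset V) : Finset (Finset V) :=
  W.powerset.filter (fun K : Finset V => H.IsNClique k K)

/-- the complete graphs on four vertices inside `W` that contain `T` -/
noncomputable def sides (H : SimpleGraph V) (W T : Finset V) : Finset (Finset V) :=
  (Ks 4 H W).filter (fun Q => T ⊆ Q)

/-- the combinatorial data: `F Q e` means that the edge `e` is marked in `Q`, `m T` is the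
multiplicity of the triangle `T` -/
structure Dat (H : SimpleGraph V) (W : Finset V) (F : Finset V → Finset V → Prop)
    (m : Finset V → ℕ) : Prop where
  /-- if the edge `e` lies in a triangle `T'` with at least two sides, then for every triangle
  `T` containing `e` exactly `m T` of its sides mark `e` -/
  slack : ∀ e T T', e.card = 2 → e ⊆ T → e ⊆ T' → T ∈ Ks 3 H W → T' ∈ Ks 3 H W →
    2 ≤ (sides H W T').card → ((sides H W T).filter (fun Q => F Q e)).card = m T
  /-- the three linear equations at a triangle tie its sides together -/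
  link : ∀ T ∈ Ks 3 H W, ∀ (z : Finset V → ℝ) (a : ℝ),
    (∀ e ⊆ T, e.card = 2 → a + ∑ Q ∈ (sides H W T).filter (fun Q => F Q e), z Q = 0) →
    ∀ Q ∈ sides H W T, ∀ Q' ∈ sides H W T, z Q = z Q'

/-- the coefficients -/
noncomputable def yy (H : SimpleGraph V) (W : Finset V) (F : Finset V → Finset V → Prop)
    (m : Finset V → ℕ) (K : Finset V) : ℝ :=
  if K ∈ Ks 2 H W then
    (((Ks 4 H W).filter (fun Q => K ⊆ Q ∧ F Q K)).card : ℝ) +
      ∑ T ∈ (Ks 3 H W).filter (fun T => K ⊆ T),
        (((m T) - ((sides H W T).filter (fun Q => F Q K)).card : ℕ) : ℝ)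
  else if K ∈ Ks 3 H W then - (m K : ℝ)
  else if K ∈ Ks 4 H W then 1 else 0

/-- the function on sets: minus the sum of the coefficients of the subsets -/
noncomputable def ff (H : SimpleGraph V) (W : Finset V) (F : Finset V → Finset V → Prop)
    (m : Finset V → ℕ) (S : Finset V) : ℝ :=
  - ∑ K ∈ S.powerset, yy H W F m K

/-- the coefficient of `K` in a function on sets (Möbius inversion), with a minus sign -/
noncomputable def zc (z : Finset V → ℝ) (K : Finset V) : ℝ :=
  - ∑ S ∈ K.powerset, (-1 : ℝ) ^ (K.card - S.card) * z S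

end MZ
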