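import Pool.Agent.MZ.T3Con

/-!
# MZ-14: toggling sets in the link of an edge
-/

open scoped Classical
open Finset

namespace MZ

variable {V : Type} [Fintype V]

private theorem tgMem {k : ℕ} {H : SimpleGraph V} {W K : Finset V} :
    K ∈ Ks k H W ↔ K ⊆ W ∧ H.IsNClique k K := by
  simp [Ks]

/-- the remaining vertex of a complete graph on four vertices -/
private theorem tgOther {Q e : Finset V} {w₀ : V} (hQ : Q.card = 4) (he : e.card = 2)
    (heQ : e ⊆ Q) (hw : w₀ ∈ Q) (hne : w₀ ∉ e) :
    ∃ x ∈ Q, x ∉ e ∧ x ≠ w₀ ∧ ∀ y ∈ Q, y ∉ e → y ≠ w₀ → y = x := by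
  have hsub : insert w₀ e ⊆ Q := by
    intro y hy
    rcases Finset.mem_insert.mp hy with rfl | hy
    · exact hw
    · exact heQ hy
  have hc : (Q \ insert w₀ e).card = 1 := by
    rw [Finset.card_sdiff_of_subset hsub, Finset.card_insert_of_notMem hne, hQ, he]
  obtain ⟨x, hx⟩ := Finset.card_eq_one.mp hc
  have hx' : x ∈ Q \ insert w₀ e := by rw [hx]; exact Finset.mem_singleton_self x
  simp only [Finset.mem_sdiff, Finset.mem_insert, not_or] at hx'
  refine ⟨x, hx'.1, hx'.2.2, hx'.2.1, ?_⟩
  intro y hy hye hyw
  have : y ∈ Q \ insert w₀ e := by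
    simp only [Finset.mem_sdiff, Finset.mem_insert, not_or]
    exact ⟨hy, hyw, hye⟩
  rw [hx] at this
  exact Finset.mem_singleton.mp this

private theorem tgTri {H : SimpleGraph V} {W Q e : Finset V} (hQ : Q ∈ Ks 4 H W)
    (he : e.card = 2) (heQ : e ⊆ Q) {x : V} (hx : x ∈ Q) (hxe : x ∉ e) :
    insert x e ∈ Ks 3 H W := by
  rw [tgMem] at hQ ⊢
  have hsub : insert x e ⊆ Q := by
    intro y hy
    rcases Finset.mem_insert.mp hy with rfl | hy
    · exact hx
    · exact heQ hy
  refine ⟨hsub.trans hQ.1, ?_⟩
  rw [SimpleGraph.isNClique_iff]
  refine ⟨?_, ?_⟩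
  · exact hQ.2.isClique.subset (by exact_mod_cast hsub)
  · rw [Finset.card_insert_of_notMem hxe, he]

/-- the conclusion -/
private def TG (H : SimpleGraph V) (W : Finset V) (F : Finset V → Finset V → Prop)
    (e : Finset V) (w₀ : V) (S : Finset V) : Prop :=
  w₀ ∉ S ∧ Disjoint S e ∧ (∀ x ∈ S, insert x e ∈ Ks 3 H W) ∧
      (∀ Q ∈ Ks 4 H W, e ⊆ Q → w₀ ∈ Q → ∀ x ∈ Q, x ∉ e → x ≠ w₀ → (x ∈ S ↔ F Q e)) ∧
      (∀ Q ∈ Ks 4 H W, e ⊆ Q → w₀ ∉ Q → F Q e → ∃ x ∈ Q, x ∈ S) ∧
      (∀ Q ∈ Ks 4 H W, e ⊆ Q → w₀ ∉ Q → ¬ F Q e → ∃ x ∈ Q, x ∉ e ∧ x ∉ S)

private theorem tgSingle {H : SimpleGraph V} {W : Finset V}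
    (F : Finset V → Finset V → Prop) (e : Finset V) (he : e.card = 2) (w₀ : V)
    (hne : w₀ ∉ e) {Q : Finset V} (hQ : Q ∈ Ks 4 H W) (heQ : e ⊆ Q) (hw : w₀ ∈ Q)
    (hall : ∀ Q' ∈ Ks 4 H W, e ⊆ Q' → Q' = Q) :
    ∃ S ⊆ W, TG H W F e w₀ S := by
  have hQ' := tgMem.mp hQ
  obtain ⟨x, hxQ, hxe, hxw, hxu⟩ := tgOther hQ'.2.card_eq he heQ hw hne
  by_cases hF : F Q e
  · refine ⟨{x}, ?_, ?_, ?_, ?_, ?_, ?_, ?_⟩
    · rw [Finset.singleton_subset_iff]; exact hQ'.1 hxQ
    · rw [Finset.mem_singleton]; exact fun h => hxw h.symm
    · rw [Finset.disjoint_singleton_left]; exact hxe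
    · intro y hy
      rw [Finset.mem_singleton] at hy
      subst hy
      exact tgTri hQ he heQ hxQ hxe
    · intro Q' hQ'' he' hw' y hy hye hyw
      have := hall Q' hQ'' he'
      subst this
      rw [Finset.mem_singleton]
      exact ⟨fun _ => hF, fun _ => hxu y hy hye hyw⟩
    · intro Q' hQ'' he' hw'
      have := hall Q' hQ'' he'
      subst this
      exact absurd hw hw'
    · intro Q' hQ'' he' hw'
      have := hall Q' hQ'' he'
      subst this
      exact absurd hw hw'
  · refine ⟨∅, Finset.empty_subset _, by simp, by simp, by simp, ?_, ?_, ?_⟩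
    · intro Q' hQ'' he' hw' y hy hye hyw
      have := hall Q' hQ'' he'
      subst this
      exact ⟨fun h => absurd h (Finset.notMem_empty _), fun h => absurd h hF⟩
    · intro Q' hQ'' he' hw'
      have := hall Q' hQ'' he'
      subst this
      exact absurd hw hw'
    · intro Q' hQ'' he' hw'
      have := hall Q' hQ'' he'
      subst this
      exact absurd hw hw'

private theorem tgOld {H : SimpleGraph V} {W T : Finset V} {v : V} (hTW : T ⊆ W)
    (hT : H.IsNClique 3 T) (hv : v ∉ W) (hN : ∀ w ∈ W, H.Adj v w ↔ w ∈ T)
    {Q : Finset V} (hQ : Q ∈ Ks 4 H (insert v W)) :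
    (Q ∈ Ks 4 H W ∧ v ∉ Q) ∨ Q = insert v T := by
  rw [tgMem] at hQ
  by_cases hvQ : v ∈ Q
  · right
    have h1 : Q.erase v ⊆ T := by
      intro y hy
      rw [Finset.mem_erase] at hy
      have hyW : y ∈ W := by
        rcases Finset.mem_insert.mp (hQ.1 hy.2) with h | h
        · exact absurd h hy.1
        · exact h
      exact (hN y hyW).mp (hQ.2.isClique (by exact_mod_cast hvQ) (by exact_mod_cast hy.2)
        (fun h => hy.1 h.symm))
    have h2 : Q.erase v = T := by
      apply Finset.eq_of_subset_of_card_le h1
      rw [Finset.card_erase_of_mem hvQ, hQ.2.card_eq, hT.card_eq]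
    rw [← h2, Finset.insert_erase hvQ]
  · left
    refine ⟨?_, hvQ⟩
    rw [tgMem]
    refine ⟨?_, hQ.2⟩
    intro y hy
    rcases Finset.mem_insert.mp (hQ.1 hy) with h | h
    · subst h; exact absurd hy hvQ
    · exact h

private theorem tgNew {H : SimpleGraph V} {W T : Finset V} {v : V} (hTW : T ⊆ W)
    (hT : H.IsNClique 3 T) (hv : v ∉ W) (hN : ∀ w ∈ W, H.Adj v w ↔ w ∈ T) :
    insert v T ∈ Ks 4 H (insert v W) := by
  rw [tgMem]
  refine ⟨Finset.insert_subset_insert v hTW, ?_⟩
  exact hT.insert (fun b hb => (hN b (hTW hb)).mpr hb)

private theorem tgMono {k : ℕ} {H : SimpleGraph V} {W W' K : Finset V} (h : W ⊆ W')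
    (hK : K ∈ Ks k H W) : K ∈ Ks k H W' := by
  rw [tgMem] at hK ⊢
  exact ⟨hK.1.trans h, hK.2⟩

/-- In the link tree of the edge `e`, rooted at `w₀`, let `S` be the set of all `x ≠ w₀` whose
link edge towards `w₀` (a complete graph on four vertices `e ∪ {x, parent x}`) is marked.
By induction on the 3-tree. Step `insert v W`, triangle `T`, new `Q = insert v T`:
* `e ⊆ T`, `w₀ ≠ v`: `T = e ∪ {x₀}`, take the old `S`, and add `v` iff `F Q e`;
* `e ⊆ T`, `w₀ = v`: take the old `S` for the root `x₀`, and add `x₀` iff `F Q e`;
* `v ∈ e`: `e ∪ {w₀, x} = Q`, take `{x}` or `∅`;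
* otherwise nothing changes. -/
theorem toggle {H : SimpleGraph V} {W : Finset V} (hW : IsTree3 H W)
    (F : Finset V → Finset V → Prop) (e : Finset V) (he : e ∈ Ks 2 H W) (w₀ : V)
    (hw₀ : insert w₀ e ∈ Ks 3 H W) (hne : w₀ ∉ e) :
    ∃ S ⊆ W, w₀ ∉ S ∧ Disjoint S e ∧ (∀ x ∈ S, insert x e ∈ Ks 3 H W) ∧
      (∀ Q ∈ Ks 4 H W, e ⊆ Q → w₀ ∈ Q → ∀ x ∈ Q, x ∉ e → x ≠ w₀ → (x ∈ S ↔ F Q e)) ∧
      (∀ Q ∈ Ks 4 H W, e ⊆ Q → w₀ ∉ Q → F Q e → ∃ x ∈ Q, x ∈ S) ∧
      (∀ Q ∈ Ks 4 H W, e ⊆ Q → w₀ ∉ Q → ¬ F Q e → ∃ x ∈ Q, x ∉ e ∧ x ∉ S) := by
  change ∃ S ⊆ W, TG H W F e w₀ S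
  induction hW generalizing e w₀ with
  | base s hs =>
    rw [tgMem] at he hw₀
    refine tgSingle F e he.2.card_eq w₀ hne (Q := s) ?_ he.1
      (hw₀.1 (Finset.mem_insert_self _ _)) ?_
    · rw [tgMem]; exact ⟨Finset.Subset.refl _, hs⟩
    · intro Q' hQ' _
      rw [tgMem] at hQ'
      apply Finset.eq_of_subset_of_card_le hQ'.1
      rw [hQ'.2.card_eq, hs.card_eq]
  | step W T v hW hTW hT hv hN ih =>
    have hmono : W ⊆ insert v W := Finset.subset_insert v W
    have hnew := tgNew hTW hT hv hN
    have he' := tgMem.mp he
    have hw' := tgMem.mp hw₀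
    have hec : e.card = 2 := he'.2.card_eq
    have hvT : v ∉ T := fun h => hv (hTW h)
    by_cases hve : v ∈ e
    · -- the new vertex is in `e`
      have hwW : w₀ ∈ W := by
        rcases Finset.mem_insert.mp (hw'.1 (Finset.mem_insert_self _ _)) with h | h
        · subst h; exact absurd hve hne
        · exact h
      have hwT : w₀ ∈ T := by
        rw [← hN w₀ hwW]
        refine hw'.2.isClique ?_ ?_ ?_
        · exact_mod_cast Finset.mem_insert_of_mem hve
        · exact_mod_cast Finset.mem_insert_self _ _
        · intro h; subst h; exact hne hve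
      have heT : e ⊆ insert v T := by
        intro y hy
        by_cases hyv : y = v
        · subst hyv; exact Finset.mem_insert_self _ _
        · have hyW : y ∈ W := by
            rcases Finset.mem_insert.mp (he'.1 hy) with h | h
            · exact absurd h hyv
            · exact h
          refine Finset.mem_insert_of_mem ?_
          rw [← hN y hyW]
          exact he'.2.isClique (by exact_mod_cast hve) (by exact_mod_cast hy)
            (fun h => hyv h.symm)
      refine tgSingle F e hec w₀ hne hnew heT (Finset.mem_insert_of_mem hwT) ?_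
      intro Q' hQ' heQ'
      rcases tgOld hTW hT hv hN hQ' with h | h
      · exact absurd (heQ' hve) h.2
      · exact h
    · have heW : e ⊆ W := by
        intro y hy
        rcases Finset.mem_insert.mp (he'.1 hy) with h | h
        · subst h; exact absurd hy hve
        · exact h
      have heK : e ∈ Ks 2 H W := tgMem.mpr ⟨heW, he'.2⟩
      by_cases hwv : w₀ = v
      · -- the root is the new vertex
        subst hwv
        have heT : e ⊆ T := by
          intro y hy
          rw [← hN y (heW hy)]
          refine hw'.2.isClique ?_ ?_ ?_
          · exact_mod_cast Finset.mem_insert_self _ _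
          · exact_mod_cast Finset.mem_insert_of_mem hy
          · intro h; subst h; exact hne hy
        have hc : (T \ e).card = 1 := by
          rw [Finset.card_sdiff_of_subset heT, hT.card_eq, hec]
        obtain ⟨x₀, hx₀⟩ := Finset.card_eq_one.mp hc
        have hx₀' : x₀ ∈ T \ e := by rw [hx₀]; exact Finset.mem_singleton_self _
        rw [Finset.mem_sdiff] at hx₀'
        have hTe : insert x₀ e = T := by
          apply Finset.eq_of_subset_of_card_le
          · intro y hy
            rcases Finset.mem_insert.mp hy with rfl | hy
            · exact hx₀'.1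
            · exact heT hy
          · rw [Finset.card_insert_of_notMem hx₀'.2, hec, hT.card_eq]
        have hTK : insert x₀ e ∈ Ks 3 H W := by
          rw [hTe]; exact tgMem.mpr ⟨hTW, hT⟩
        obtain ⟨S, hSW, h1, h2, h3, h4, h5, h6⟩ := ih e heK x₀ hTK hx₀'.2
        have hwS : w₀ ∉ S := fun h => hv (hSW h)
        have hx₀w : x₀ ≠ w₀ := by
          intro h; subst h; exact hvT hx₀'.1
        -- the possible sets
        have key : ∀ S' : Finset V, (∀ y, y ∈ S' ↔ (y ∈ S ∨ (y = x₀ ∧ F (insert w₀ T) e))) →
            S' ⊆ insert w₀ W ∧ TG H (insert w₀ W) F e w₀ S' := by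
          intro S' hS'
          refine ⟨?_, ?_, ?_, ?_, ?_, ?_, ?_⟩
          · intro y hy
            rcases (hS' y).mp hy with h | h
            · exact hmono (hSW h)
            · rw [h.1]; exact hmono (hTW hx₀'.1)
          · intro h
            rcases (hS' w₀).mp h with h | h
            · exact hwS h
            · exact hx₀w h.1.symm
          · rw [Finset.disjoint_left]
            intro y hy
            rcases (hS' y).mp hy with h | h
            · exact Finset.disjoint_left.mp h2 h
            · rw [h.1]; exact hx₀'.2
          · intro y hy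
            rcases (hS' y).mp hy with h | h
            · exact tgMono hmono (h3 y h)
            · rw [h.1]; exact tgMono hmono hTK
          · intro Q hQ heQ hwQ x hx hxe hxw
            rcases tgOld hTW hT hv hN hQ with h | h
            · exact absurd hwQ h.2
            · subst h
              have hxx : x = x₀ := by
                have hxT : x ∈ T := by
                  rcases Finset.mem_insert.mp hx with h | h
                  · exact absurd h hxw
                  · exact h
                have : x ∈ T \ e := Finset.mem_sdiff.mpr ⟨hxT, hxe⟩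
                rw [hx₀] at this
                exact Finset.mem_singleton.mp this
              subst hxx
              rw [hS']
              exact ⟨fun h => h.elim (fun h => absurd h h1) (fun h => h.2),
                fun h => Or.inr ⟨rfl, h⟩⟩
          · intro Q hQ heQ hwQ hF
            rcases tgOld hTW hT hv hN hQ with h | h
            · by_cases hxQ : x₀ ∈ Q
              · obtain ⟨x, hxQ', hxe, hxw, _⟩ :=
                  tgOther (tgMem.mp h.1).2.card_eq hec heQ hxQ hx₀'.2
                refine ⟨x, hxQ', (hS' x).mpr (Or.inl ?_)⟩
                exact (h4 Q h.1 heQ hxQ x hxQ' hxe hxw).mpr hF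
              · obtain ⟨x, hx, hxS⟩ := h5 Q h.1 heQ hxQ hF
                exact ⟨x, hx, (hS' x).mpr (Or.inl hxS)⟩
            · subst h
              exact absurd (Finset.mem_insert_self _ _) hwQ
          · intro Q hQ heQ hwQ hF
            rcases tgOld hTW hT hv hN hQ with h | h
            · by_cases hxQ : x₀ ∈ Q
              · obtain ⟨x, hxQ', hxe, hxw, _⟩ :=
                  tgOther (tgMem.mp h.1).2.card_eq hec heQ hxQ hx₀'.2
                refine ⟨x, hxQ', hxe, ?_⟩
                intro hx
                rcases (hS' x).mp hx with h' | h'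
                · exact hF ((h4 Q h.1 heQ hxQ x hxQ' hxe hxw).mp h')
                · exact hxw h'.1
              · obtain ⟨x, hx, hxe, hxS⟩ := h6 Q h.1 heQ hxQ hF
                refine ⟨x, hx, hxe, ?_⟩
                intro hx'
                rcases (hS' x).mp hx' with h' | h'
                · exact hxS h'
                · rw [h'.1] at hx; exact hxQ hx
            · subst h
              exact absurd (Finset.mem_insert_self _ _) hwQ
        by_cases hF : F (insert w₀ T) e
        · refine ⟨insert x₀ S, key _ ?_⟩
          intro y
          rw [Finset.mem_insert]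
          constructor
          · rintro (h | h)
            · exact Or.inr ⟨h, hF⟩
            · exact Or.inl h
          · rintro (h | h)
            · exact Or.inr h
            · exact Or.inl h.1
        · refine ⟨S, key _ ?_⟩
          intro y
          constructor
          · exact fun h => Or.inl h
          · rintro (h | h)
            · exact h
            · exact absurd h.2 hF
      · -- the root is old
        have hwW : w₀ ∈ W := by
          rcases Finset.mem_insert.mp (hw'.1 (Finset.mem_insert_self _ _)) with h | h
          · exact absurd h hwv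
          · exact h
        have hwK : insert w₀ e ∈ Ks 3 H W := by
          refine tgMem.mpr ⟨?_, hw'.2⟩
          intro y hy
          rcases Finset.mem_insert.mp hy with rfl | hy
          · exact hwW
          · exact heW hy
        obtain ⟨S, hSW, h1, h2, h3, h4, h5, h6⟩ := ih e heK w₀ hwK hne
        have hvS : v ∉ S := fun h => hv (hSW h)
        by_cases heT : e ⊆ T
        · have key : ∀ S' : Finset V, (∀ y, y ∈ S' ↔ (y ∈ S ∨ (y = v ∧ F (insert v T) e))) →
              S' ⊆ insert v W ∧ TG H (insert v W) F e w₀ S' := by
            intro S' hS'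
            have hold : ∀ y, y ≠ v → (y ∈ S' ↔ y ∈ S) := by
              intro y hy
              rw [hS']
              exact ⟨fun h => h.elim id (fun h => absurd h.1 hy), fun h => Or.inl h⟩
            refine ⟨?_, ?_, ?_, ?_, ?_, ?_, ?_⟩
            · intro y hy
              rcases (hS' y).mp hy with h | h
              · exact hmono (hSW h)
              · rw [h.1]; exact Finset.mem_insert_self _ _
            · rw [hold w₀ hwv]; exact h1
            · rw [Finset.disjoint_left]
              intro y hy
              rcases (hS' y).mp hy with h | h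
              · exact Finset.disjoint_left.mp h2 h
              · rw [h.1]; exact hve
            · intro y hy
              rcases (hS' y).mp hy with h | h
              · exact tgMono hmono (h3 y h)
              · rw [h.1]
                exact tgTri hnew hec (heT.trans (Finset.subset_insert _ _))
                  (Finset.mem_insert_self _ _) hve
            · intro Q hQ heQ hwQ x hx hxe hxw
              rcases tgOld hTW hT hv hN hQ with h | h
              · have hxv : x ≠ v := fun h' => h.2 (h' ▸ hx)
                rw [hold x hxv]
                exact h4 Q h.1 heQ hwQ x hx hxe hxw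
              · subst h
                have hxv : x = v := by
                  by_contra hxv
                  have hxT : x ∈ T := by
                    rcases Finset.mem_insert.mp hx with h | h
                    · exact absurd h hxv
                    · exact h
                  have hwT : w₀ ∈ T := by
                    rcases Finset.mem_insert.mp hwQ with h | h
                    · exact absurd h hwv
                    · exact h
                  have hsub : insert x (insert w₀ e) ⊆ T := by
                    intro y hy
                    rcases Finset.mem_insert.mp hy with rfl | hy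
                    · exact hxT
                    · rcases Finset.mem_insert.mp hy with rfl | hy
                      · exact hwT
                      · exact heT hy
                  have := Finset.card_le_card hsub
                  rw [Finset.card_insert_of_notMem, Finset.card_insert_of_notMem hne, hec,
                    hT.card_eq] at this
                  · omega
                  · rw [Finset.mem_insert, not_or]
                    exact ⟨hxw, hxe⟩
                subst hxv
                rw [hS']
                exact ⟨fun h => h.elim (fun h => absurd h hvS) (fun h => h.2),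
                  fun h => Or.inr ⟨rfl, h⟩⟩
            · intro Q hQ heQ hwQ hF
              rcases tgOld hTW hT hv hN hQ with h | h
              · obtain ⟨x, hx, hxS⟩ := h5 Q h.1 heQ hwQ hF
                exact ⟨x, hx, (hS' x).mpr (Or.inl hxS)⟩
              · subst h
                exact ⟨v, Finset.mem_insert_self _ _, (hS' v).mpr (Or.inr ⟨rfl, hF⟩)⟩
            · intro Q hQ heQ hwQ hF
              rcases tgOld hTW hT hv hN hQ with h | h
              · obtain ⟨x, hx, hxe, hxS⟩ := h6 Q h.1 heQ hwQ hF
                have hxv : x ≠ v := fun h' => h.2 (h' ▸ hx)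
                exact ⟨x, hx, hxe, fun h' => hxS ((hold x hxv).mp h')⟩
              · subst h
                refine ⟨v, Finset.mem_insert_self _ _, hve, ?_⟩
                intro h
                rcases (hS' v).mp h with h | h
                · exact hvS h
                · exact hF h.2
          by_cases hF : F (insert v T) e
          · refine ⟨insert v S, key _ ?_⟩
            intro y
            rw [Finset.mem_insert]
            constructor
            · rintro (h | h)
              · exact Or.inr ⟨h, hF⟩
              · exact Or.inl h
            · rintro (h | h)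
              · exact Or.inr h
              · exact Or.inl h.1
          · refine ⟨S, key _ ?_⟩
            intro y
            constructor
            · exact fun h => Or.inl h
            · rintro (h | h)
              · exact h
              · exact absurd h.2 hF
        · -- nothing changes
          have hold : ∀ Q ∈ Ks 4 H (insert v W), e ⊆ Q → Q ∈ Ks 4 H W := by
            intro Q hQ heQ
            rcases tgOld hTW hT hv hN hQ with h | h
            · exact h.1
            · exfalso
              apply heT
              intro y hy
              have := heQ hy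
              rw [h] at this
              rcases Finset.mem_insert.mp this with h' | h'
              · subst h'; exact absurd hy hve
              · exact h'
          refine ⟨S, hSW.trans hmono, h1, h2, fun x hx => tgMono hmono (h3 x hx), ?_, ?_, ?_⟩
          · intro Q hQ heQ
            exact h4 Q (hold Q hQ heQ) heQ
          · intro Q hQ heQ
            exact h5 Q (hold Q hQ heQ) heQ
          · intro Q hQ heQ
            exact h6 Q (hold Q hQ heQ) heQ

end MZ
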