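import Pool.Agent.MZ.T3Con

/-!
# MZ-15: the second differences of the explicit function
-/

open scoped Classical
open Finset

namespace MZ

variable {V : Type} [Fintype V]

private theorem t3v_cv_sum (y : Finset V → ℝ) {i j : V} {S : Finset V} (hij : i ≠ j)
    (hi : i ∉ S) (hj : j ∉ S) :
    cv (fun S => - ∑ K ∈ S.powerset, y K) i j S =
      ∑ K ∈ (insert i (insert j S)).powerset.filter (fun K : Finset V => i ∈ K ∧ j ∈ K), y K := by
  have h1 := Finset.sum_filter_add_sum_filter_not (insert i (insert j S)).powerset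
    (fun K : Finset V => i ∈ K ∧ j ∈ K) y
  have h2 : (insert i (insert j S)).powerset.filter (fun K : Finset V => ¬ (i ∈ K ∧ j ∈ K)) =
      (insert i S).powerset ∪ (insert j S).powerset := by
    ext K
    simp only [mem_filter, mem_powerset, mem_union]
    constructor
    · rintro ⟨hK, hn⟩
      by_cases hiK : i ∈ K
      · left
        intro x hx
        have := hK hx
        simp only [mem_insert] at this ⊢
        rcases this with h | h | h
        · exact Or.inl h
        · subst h; exact absurd ⟨hiK, hx⟩ hn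
        · exact Or.inr h
      · right
        intro x hx
        have := hK hx
        simp only [mem_insert] at this ⊢
        rcases this with h | h | h
        · subst h; exact absurd hx hiK
        · exact Or.inl h
        · exact Or.inr h
    · rintro (h | h)
      · refine ⟨fun x hx => ?_, fun hh => ?_⟩
        · have := h hx
          simp only [mem_insert] at this ⊢
          tauto
        · have := h hh.2
          simp only [mem_insert] at this
          rcases this with h' | h'
          · exact hij h'.symm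
          · exact hj h'
      · refine ⟨fun x hx => ?_, fun hh => ?_⟩
        · have := h hx
          simp only [mem_insert] at this ⊢
          tauto
        · have := h hh.1
          simp only [mem_insert] at this
          rcases this with h' | h'
          · exact hij h'
          · exact hi h'
  have h3 : (insert i S).powerset ∩ (insert j S).powerset = S.powerset := by
    ext K
    simp only [mem_powerset, mem_inter]
    constructor
    · rintro ⟨h, h'⟩ x hx
      have h1 := h hx
      have h2 := h' hx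
      simp only [mem_insert] at h1 h2
      rcases h1 with h1 | h1
      · rcases h2 with h2 | h2
        · exact absurd (h1.symm.trans h2) hij
        · exact h2
      · exact h1
    · intro h
      exact ⟨h.trans (subset_insert _ _), h.trans (subset_insert _ _)⟩
  have h4 := Finset.sum_union_inter (s₁ := (insert i S).powerset) (s₂ := (insert j S).powerset)
    (f := y)
  rw [h3] at h4
  rw [h2] at h1
  simp only [cv]
  linarith

/-- `cv` of a function given by coefficients: the sum of the coefficients of the sets between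
`{i, j}` and `S ∪ {i, j}`. -/
theorem cv_ff (H : SimpleGraph V) (W : Finset V) (F : Finset V → Finset V → Prop)
    (m : Finset V → ℕ) {i j : V} {S : Finset V} (hij : i ≠ j) (hi : i ∉ S) (hj : j ∉ S) :
    cv (ff H W F m) i j S =
      ∑ K ∈ (insert i (insert j S)).powerset.filter (fun K : Finset V => i ∈ K ∧ j ∈ K),
        yy H W F m K := by
  exact t3v_cv_sum (yy H W F m) hij hi hj

private theorem t3v_mem_Ks {k : ℕ} {H : SimpleGraph V} {W K : Finset V} :
    K ∈ Ks k H W ↔ K ⊆ W ∧ H.IsNClique k K := by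
  simp [Ks]

private theorem t3v_yy (H : SimpleGraph V) (W : Finset V) (F : Finset V → Finset V → Prop)
    (m : Finset V → ℕ) (K : Finset V) :
    yy H W F m K = (if K ∈ Ks 2 H W then
      ((((Ks 4 H W).filter (fun Q => K ⊆ Q ∧ F Q K)).card : ℝ) +
      ∑ T ∈ (Ks 3 H W).filter (fun T => K ⊆ T),
        (((m T) - ((sides H W T).filter (fun Q => F Q K)).card : ℕ) : ℝ)) else 0)
      + (if K ∈ Ks 3 H W then - (m K : ℝ) else 0) + (if K ∈ Ks 4 H W then 1 else 0) := by
  have h23 : K ∈ Ks 2 H W → K ∉ Ks 3 H W := by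
    intro h h'
    have a := (t3v_mem_Ks.1 h).2.card_eq
    have b := (t3v_mem_Ks.1 h').2.card_eq
    omega
  have h24 : K ∈ Ks 2 H W → K ∉ Ks 4 H W := by
    intro h h'
    have a := (t3v_mem_Ks.1 h).2.card_eq
    have b := (t3v_mem_Ks.1 h').2.card_eq
    omega
  have h34 : K ∈ Ks 3 H W → K ∉ Ks 4 H W := by
    intro h h'
    have a := (t3v_mem_Ks.1 h).2.card_eq
    have b := (t3v_mem_Ks.1 h').2.card_eq
    omega
  unfold yy
  by_cases h2 : K ∈ Ks 2 H W
  · rw [if_pos h2, if_pos h2, if_neg (h23 h2), if_neg (h24 h2)]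
    ring
  · rw [if_neg h2, if_neg h2]
    by_cases h3 : K ∈ Ks 3 H W
    · rw [if_pos h3, if_pos h3, if_neg (h34 h3)]
      ring
    · rw [if_neg h3, if_neg h3]
      ring

private theorem t3v_edge_sub {H : SimpleGraph V} {W K : Finset V} {k : ℕ} {i j : V}
    (hK : K ∈ Ks k H W) (hi : i ∈ K) (hj : j ∈ K) (hij : i ≠ j) :
    ({i, j} : Finset V) ∈ Ks 2 H W := by
  rw [t3v_mem_Ks] at hK ⊢
  refine ⟨?_, ?_⟩
  · intro x hx
    simp only [mem_insert, mem_singleton] at hx
    rcases hx with rfl | rfl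
    · exact hK.1 hi
    · exact hK.1 hj
  · constructor
    · refine hK.2.isClique.subset ?_
      intro x hx
      have hx' : x ∈ ({i, j} : Finset V) := hx
      simp only [mem_insert, mem_singleton] at hx'
      rcases hx' with rfl | rfl
      · exact hi
      · exact hj
    · exact Finset.card_pair hij

theorem cv_ff_eq_zero (H : SimpleGraph V) (W : Finset V) (F : Finset V → Finset V → Prop)
    (m : Finset V → ℕ) {i j : V} {S : Finset V} (hij : i ≠ j) (hi : i ∉ S) (hj : j ∉ S)
    (h : ({i, j} : Finset V) ∉ Ks 2 H W) : cv (ff H W F m) i j S = 0 := by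
  rw [cv_ff H W F m hij hi hj]
  refine Finset.sum_eq_zero fun K hK => ?_
  rw [mem_filter] at hK
  have hk : ∀ k, K ∉ Ks k H W := fun k hk => h (t3v_edge_sub hk hK.2.1 hK.2.2 hij)
  rw [t3v_yy, if_neg (hk 2), if_neg (hk 3), if_neg (hk 4)]
  ring

private theorem t3v_formula (H : SimpleGraph V) (W : Finset V) (F : Finset V → Finset V → Prop)
    (m : Finset V → ℕ) {i j : V} {S : Finset V} (hij : i ≠ j) (hi : i ∉ S) (hj : j ∉ S)
    (he : ({i, j} : Finset V) ∈ Ks 2 H W) :
    cv (ff H W F m) i j S =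
      (((Ks 4 H W).filter (fun Q => {i, j} ⊆ Q ∧ F Q {i, j})).card : ℝ) +
      ∑ T ∈ (Ks 3 H W).filter (fun T => {i, j} ⊆ T),
        (((m T) - ((sides H W T).filter (fun Q => F Q {i, j})).card : ℕ) : ℝ) -
      ∑ T ∈ ((Ks 3 H W).filter (fun T => {i, j} ⊆ T)).filter
        (fun T => T ⊆ insert i (insert j S)), (m T : ℝ) +
      ((((Ks 4 H W).filter (fun Q => {i, j} ⊆ Q)).filter
        (fun Q => Q ⊆ insert i (insert j S))).card : ℝ) := by
  rw [cv_ff H W F m hij hi hj]
  simp_rw [t3v_yy]
  rw [Finset.sum_add_distrib, Finset.sum_add_distrib]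
  have hpair : ∀ K : Finset V, ({i, j} : Finset V) ⊆ K ↔ i ∈ K ∧ j ∈ K := by
    intro K
    simp [Finset.insert_subset_iff]
  have e1 : (∑ K ∈ (insert i (insert j S)).powerset.filter (fun K : Finset V => i ∈ K ∧ j ∈ K),
      (if K ∈ Ks 2 H W then
      ((((Ks 4 H W).filter (fun Q => K ⊆ Q ∧ F Q K)).card : ℝ) +
      ∑ T ∈ (Ks 3 H W).filter (fun T => K ⊆ T),
        (((m T) - ((sides H W T).filter (fun Q => F Q K)).card : ℕ) : ℝ)) else 0)) =
      (((Ks 4 H W).filter (fun Q => {i, j} ⊆ Q ∧ F Q {i, j})).card : ℝ) +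
      ∑ T ∈ (Ks 3 H W).filter (fun T => {i, j} ⊆ T),
        (((m T) - ((sides H W T).filter (fun Q => F Q {i, j})).card : ℕ) : ℝ) := by
    rw [Finset.sum_eq_single ({i, j} : Finset V)]
    · rw [if_pos he]
    · intro K hK hne
      rw [if_neg]
      intro hK2
      rw [mem_filter] at hK
      apply hne
      have hc := (t3v_mem_Ks.1 hK2).2.card_eq
      symm
      apply Finset.eq_of_subset_of_card_le ((hpair K).2 hK.2)
      rw [hc, Finset.card_pair hij]
    · intro hK
      exfalso
      apply hK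
      rw [mem_filter, mem_powerset, hpair]
      simp
  have e2 : (∑ K ∈ (insert i (insert j S)).powerset.filter (fun K : Finset V => i ∈ K ∧ j ∈ K),
      (if K ∈ Ks 3 H W then - (m K : ℝ) else 0)) =
      - ∑ T ∈ ((Ks 3 H W).filter (fun T => {i, j} ⊆ T)).filter
        (fun T => T ⊆ insert i (insert j S)), (m T : ℝ) := by
    rw [← Finset.sum_filter, Finset.sum_neg_distrib]
    congr 1
    apply Finset.sum_congr _ (fun _ _ => rfl)
    ext K
    simp only [mem_filter, mem_powerset, hpair]
    tauto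
  have e3 : (∑ K ∈ (insert i (insert j S)).powerset.filter (fun K : Finset V => i ∈ K ∧ j ∈ K),
      (if K ∈ Ks 4 H W then (1 : ℝ) else 0)) =
      ((((Ks 4 H W).filter (fun Q => {i, j} ⊆ Q)).filter
        (fun Q => Q ⊆ insert i (insert j S))).card : ℝ) := by
    rw [Finset.sum_boole]
    congr 2
    ext K
    simp only [mem_filter, mem_powerset, hpair]
    tauto
  rw [e1, e2, e3]
  ring

/-- the triangles over the edge `{i, j}` inside `Q ∩ (S ∪ {i, j})` -/
private theorem t3v_count {H : SimpleGraph V} {W : Finset V} {i j : V} {S Q : Finset V}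
    (hij : i ≠ j) (hi : i ∉ S) (hj : j ∉ S) (hQ : Q ∈ Ks 4 H W) (hiQ : i ∈ Q) (hjQ : j ∈ Q) :
    ((((Ks 3 H W).filter (fun T => {i, j} ⊆ T)).filter
        (fun T => T ⊆ insert i (insert j S))).filter (fun T => T ⊆ Q)).card =
      (Q ∩ S).card := by
  have hinj : Set.InjOn (fun x : V => insert x ({i, j} : Finset V)) ((Q ∩ S : Finset V) : Set V) := by
    intro x hx x' hx' h
    have hxS : x ∈ S := (mem_inter.1 hx).2
    have h1 : x ∈ insert x' ({i, j} : Finset V) := by
      have : x ∈ insert x ({i, j} : Finset V) := mem_insert_self _ _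
      simpa [h] using this
    simp only [mem_insert, mem_singleton] at h1
    rcases h1 with h1 | h1 | h1
    · exact h1
    · subst h1; exact absurd hxS hi
    · subst h1; exact absurd hxS hj
  rw [← Finset.card_image_of_injOn hinj]
  congr 1
  rw [t3v_mem_Ks] at hQ
  ext T
  simp only [mem_filter, mem_image, mem_inter, t3v_mem_Ks, Finset.insert_subset_iff,
    Finset.singleton_subset_iff]
  constructor
  · rintro ⟨⟨⟨⟨hTW, hT⟩, hiT, hjT⟩, hTU⟩, hTQ⟩
    have hcard : (T \ {i, j}).card = 1 := by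
      rw [Finset.card_sdiff_of_subset]
      · rw [hT.card_eq, Finset.card_pair hij]
      · simp [Finset.insert_subset_iff, hiT, hjT]
    obtain ⟨x, hx⟩ := Finset.card_eq_one.1 hcard
    have hxT : x ∈ T \ {i, j} := by rw [hx]; exact mem_singleton_self _
    rw [mem_sdiff] at hxT
    refine ⟨x, ⟨hTQ hxT.1, ?_⟩, ?_⟩
    · have h1 := hTU hxT.1
      simp only [mem_insert] at h1
      have h2 := hxT.2
      simp only [mem_insert, mem_singleton, not_or] at h2
      rcases h1 with h1 | h1 | h1
      · exact absurd h1 h2.1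
      · exact absurd h1 h2.2
      · exact h1
    · rw [Finset.insert_eq, ← hx, Finset.sdiff_union_of_subset]
      simp [Finset.insert_subset_iff, hiT, hjT]
  · rintro ⟨x, ⟨hxQ, hxS⟩, rfl⟩
    have hxi : x ≠ i := fun h => hi (h ▸ hxS)
    have hxj : x ≠ j := fun h => hj (h ▸ hxS)
    have hsub : insert x ({i, j} : Finset V) ⊆ Q := by
      simp [Finset.insert_subset_iff, hxQ, hiQ, hjQ]
    refine ⟨⟨⟨⟨hsub.trans hQ.1, ?_⟩, by simp, by simp⟩, ?_⟩, hsub⟩
    · constructor
      · exact hQ.2.isClique.subset (by exact_mod_cast hsub)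
      · rw [Finset.card_insert_of_notMem, Finset.card_pair hij]
        simp [hxi, hxj]
    · simp [Finset.insert_subset_iff, hxS]

private theorem t3v_double {H : SimpleGraph V} {W : Finset V}
    {F : Finset V → Finset V → Prop} {i j : V} {S : Finset V}
    (hij : i ≠ j) (hi : i ∉ S) (hj : j ∉ S) :
    ∑ T ∈ ((Ks 3 H W).filter (fun T => {i, j} ⊆ T)).filter
        (fun T => T ⊆ insert i (insert j S)),
        ((((sides H W T).filter (fun Q => F Q {i, j})).card : ℕ) : ℝ) =
      ∑ Q ∈ (Ks 4 H W).filter (fun Q => {i, j} ⊆ Q ∧ F Q {i, j}), ((Q ∩ S).card : ℝ) := by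
  have h1 : ∀ T ∈ ((Ks 3 H W).filter (fun T => {i, j} ⊆ T)).filter
        (fun T => T ⊆ insert i (insert j S)),
      ((((sides H W T).filter (fun Q => F Q {i, j})).card : ℕ) : ℝ) =
      ∑ Q ∈ (Ks 4 H W).filter (fun Q => {i, j} ⊆ Q ∧ F Q {i, j}),
        (if T ⊆ Q then (1 : ℝ) else 0) := by
    intro T hT
    rw [mem_filter, mem_filter] at hT
    rw [Finset.sum_boole]
    congr 2
    ext Q
    simp only [mem_filter, sides]
    constructor
    · rintro ⟨⟨h1, h2⟩, h3⟩
      exact ⟨⟨h1, hT.1.2.trans h2, h3⟩, h2⟩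
    · rintro ⟨⟨h1, -, h3⟩, h2⟩
      exact ⟨⟨h1, h2⟩, h3⟩
  rw [Finset.sum_congr rfl h1, Finset.sum_comm]
  refine Finset.sum_congr rfl fun Q hQ => ?_
  rw [mem_filter] at hQ
  rw [Finset.sum_boole, t3v_count hij hi hj hQ.1 (hQ.2.1 (by simp)) (hQ.2.1 (by simp))]

private theorem t3v_cardQS {H : SimpleGraph V} {W : Finset V} {i j : V} {S Q : Finset V}
    (hij : i ≠ j) (hi : i ∉ S) (hj : j ∉ S) (hQ : Q ∈ Ks 4 H W) (hiQ : i ∈ Q) (hjQ : j ∈ Q) :
    (Q ∩ S).card ≤ 2 ∧ ((Q ∩ S).card = 2 ↔ Q ⊆ insert i (insert j S)) := by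
  rw [t3v_mem_Ks] at hQ
  have hsub : Q ∩ S ⊆ Q \ {i, j} := by
    intro x hx
    rw [mem_inter] at hx
    rw [mem_sdiff]
    refine ⟨hx.1, ?_⟩
    simp only [mem_insert, mem_singleton, not_or]
    exact ⟨fun h => hi (h ▸ hx.2), fun h => hj (h ▸ hx.2)⟩
  have hcard : (Q \ {i, j}).card = 2 := by
    rw [Finset.card_sdiff_of_subset]
    · rw [hQ.2.card_eq, Finset.card_pair hij]
    · simp [Finset.insert_subset_iff, hiQ, hjQ]
  refine ⟨hcard ▸ Finset.card_le_card hsub, ?_, ?_⟩
  · intro h
    have heq : Q ∩ S = Q \ {i, j} := Finset.eq_of_subset_of_card_le hsub (by rw [hcard, h])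
    intro x hx
    by_cases hxe : x ∈ ({i, j} : Finset V)
    · simp only [mem_insert, mem_singleton] at hxe ⊢
      tauto
    · have : x ∈ Q ∩ S := by rw [heq, mem_sdiff]; exact ⟨hx, hxe⟩
      simp only [mem_insert]
      exact Or.inr (Or.inr (mem_inter.1 this).2)
  · intro h
    have heq : Q ∩ S = Q \ {i, j} := by
      apply Finset.Subset.antisymm hsub
      intro x hx
      rw [mem_sdiff] at hx
      have h1 := h hx.1
      simp only [mem_insert] at h1
      have h2 := hx.2
      simp only [mem_insert, mem_singleton, not_or] at h2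
      rw [mem_inter]
      refine ⟨hx.1, ?_⟩
      rcases h1 with h1 | h1 | h1
      · exact absurd h1 h2.1
      · exact absurd h1 h2.2
      · exact h1
    rw [heq, hcard]

private theorem t3v_local {H : SimpleGraph V} {W : Finset V}
    {F : Finset V → Finset V → Prop} {i j : V} {S : Finset V} :
    (((Ks 4 H W).filter (fun Q => {i, j} ⊆ Q ∧ F Q {i, j})).card : ℝ) -
      (∑ Q ∈ (Ks 4 H W).filter (fun Q => {i, j} ⊆ Q ∧ F Q {i, j}), ((Q ∩ S).card : ℝ)) +
      ((((Ks 4 H W).filter (fun Q => {i, j} ⊆ Q)).filter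
        (fun Q => Q ⊆ insert i (insert j S))).card : ℝ) =
    ∑ Q ∈ (Ks 4 H W).filter (fun Q => {i, j} ⊆ Q),
      ((if F Q {i, j} then 1 - ((Q ∩ S).card : ℝ) else 0) +
        (if Q ⊆ insert i (insert j S) then 1 else 0)) := by
  rw [Finset.sum_add_distrib, Finset.sum_boole, ← Finset.sum_filter]
  have h1 : ((Ks 4 H W).filter (fun Q => {i, j} ⊆ Q)).filter (fun Q => F Q {i, j}) =
      (Ks 4 H W).filter (fun Q => {i, j} ⊆ Q ∧ F Q {i, j}) := by
    rw [Finset.filter_filter]
  rw [h1, Finset.sum_sub_distrib, Finset.sum_const, nsmul_eq_mul, mul_one]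

/-- The function is in the cone, for arbitrary `F`, `m`. With `e = {i, j}` an edge inside `W`:
`cv = #{Q ∋ e marked} + ∑_T (m T - #{marked sides})⁺ - ∑_{x ∈ S} m (e + x) + #{Q : e ⊆ Q ⊆ S ∪ e}`
`≥ ∑_{Q ⊇ e} (marked: 1 - |Q ∩ S| + [|Q ∩ S| = 2]; not marked: [|Q ∩ S| = 2]) ≥ 0`
(using `m T ≤ (m T - k)⁺ + k`). For non-edges, or edges not inside `W`, everything is zero. -/
theorem ff_inC {H G : SimpleGraph V} (hHG : H ≤ G) (W : Finset V)
    (F : Finset V → Finset V → Prop) (m : Finset V → ℕ) : InC G (ff H W F m) := by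
  constructor
  · simp only [ff, Finset.powerset_empty, Finset.sum_singleton]
    have h : ∀ k, 1 ≤ k → (∅ : Finset V) ∉ Ks k H W := by
      intro k hk h
      have := (t3v_mem_Ks.1 h).2.card_eq
      simp at this
      omega
    rw [t3v_yy, if_neg (h 2 (by norm_num)), if_neg (h 3 (by norm_num)), if_neg (h 4 (by norm_num))]
    ring
  · intro i j S hij hi hj
    by_cases he : ({i, j} : Finset V) ∈ Ks 2 H W
    · rw [t3v_formula H W F m hij hi hj he]
      have h1 : ∑ T ∈ ((Ks 3 H W).filter (fun T => {i, j} ⊆ T)).filter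
          (fun T => T ⊆ insert i (insert j S)), (m T : ℝ) ≤
          ∑ T ∈ ((Ks 3 H W).filter (fun T => {i, j} ⊆ T)).filter
          (fun T => T ⊆ insert i (insert j S)),
          (((((sides H W T).filter (fun Q => F Q {i, j})).card : ℕ) : ℝ) +
          (((m T) - ((sides H W T).filter (fun Q => F Q {i, j})).card : ℕ) : ℝ)) := by
        refine Finset.sum_le_sum fun T _ => ?_
        have : m T ≤ ((sides H W T).filter (fun Q => F Q {i, j})).card +
          (m T - ((sides H W T).filter (fun Q => F Q {i, j})).card) := by omega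
        exact_mod_cast this
      rw [Finset.sum_add_distrib, t3v_double hij hi hj] at h1
      have h2 : ∑ T ∈ ((Ks 3 H W).filter (fun T => {i, j} ⊆ T)).filter
          (fun T => T ⊆ insert i (insert j S)),
          (((m T) - ((sides H W T).filter (fun Q => F Q {i, j})).card : ℕ) : ℝ) ≤
          ∑ T ∈ (Ks 3 H W).filter (fun T => {i, j} ⊆ T),
          (((m T) - ((sides H W T).filter (fun Q => F Q {i, j})).card : ℕ) : ℝ) :=
        Finset.sum_le_sum_of_subset_of_nonneg (Finset.filter_subset _ _)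
          (fun _ _ _ => Nat.cast_nonneg _)
      have h3 := t3v_local (H := H) (W := W) (F := F) (i := i) (j := j) (S := S)
      have h4 : 0 ≤ ∑ Q ∈ (Ks 4 H W).filter (fun Q => {i, j} ⊆ Q),
          ((if F Q {i, j} then 1 - ((Q ∩ S).card : ℝ) else 0) +
          (if Q ⊆ insert i (insert j S) then 1 else 0)) := by
        refine Finset.sum_nonneg fun Q hQ => ?_
        rw [mem_filter] at hQ
        obtain ⟨hc, hc'⟩ := t3v_cardQS hij hi hj hQ.1 (hQ.2 (by simp)) (hQ.2 (by simp))
        by_cases hF : F Q {i, j}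
        · rw [if_pos hF]
          by_cases hsub : Q ⊆ insert i (insert j S)
          · rw [if_pos hsub, hc'.2 hsub]
            norm_num
          · rw [if_neg hsub]
            have : (Q ∩ S).card ≤ 1 := by
              have := mt hc'.1 hsub
              omega
            have : ((Q ∩ S).card : ℝ) ≤ 1 := by exact_mod_cast this
            linarith
        · rw [if_neg hF]
          split_ifs <;> norm_num
      linarith
    · exact (cv_ff_eq_zero H W F m hij hi hj he).ge
  · intro i j S hij hi hj hadj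
    refine cv_ff_eq_zero H W F m hij hi hj fun he => hadj ?_
    have h1 := (t3v_mem_Ks.1 he).2.isClique
    exact hHG (h1 (by simp) (by simp) hij)

/-- The tight sets: `e = {i, j}`, zero slack at `e`, every marked `Q ⊇ e` meets `S` outside `e`
and no unmarked `Q ⊇ e` has both other vertices in `S`. -/
theorem cv_ff_tight {H : SimpleGraph V} {W : Finset V} {F : Finset V → Finset V → Prop}
    {m : Finset V → ℕ} {i j : V} {S : Finset V} (hij : i ≠ j) (hi : i ∉ S) (hj : j ∉ S)
    (hSW : ∀ x ∈ S, insert x {i, j} ∈ Ks 3 H W)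
    (he : ({i, j} : Finset V) ∈ Ks 2 H W)
    (hs : ∀ T ∈ Ks 3 H W, {i, j} ⊆ T →
      ((sides H W T).filter (fun Q => F Q {i, j})).card = m T)
    (h₁ : ∀ Q ∈ Ks 4 H W, {i, j} ⊆ Q → F Q {i, j} → ∃ x ∈ Q, x ∈ S)
    (h₂ : ∀ Q ∈ Ks 4 H W, {i, j} ⊆ Q → ¬ F Q {i, j} → ∃ x ∈ Q, x ≠ i ∧ x ≠ j ∧ x ∉ S) :
    cv (ff H W F m) i j S = 0 := by
  rw [t3v_formula H W F m hij hi hj he]
  have h1 : ∑ T ∈ (Ks 3 H W).filter (fun T => {i, j} ⊆ T),
      (((m T) - ((sides H W T).filter (fun Q => F Q {i, j})).card : ℕ) : ℝ) = 0 := by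
    refine Finset.sum_eq_zero fun T hT => ?_
    rw [mem_filter] at hT
    rw [hs T hT.1 hT.2, Nat.sub_self, Nat.cast_zero]
  have h2 : ∑ T ∈ ((Ks 3 H W).filter (fun T => {i, j} ⊆ T)).filter
      (fun T => T ⊆ insert i (insert j S)), (m T : ℝ) =
      ∑ Q ∈ (Ks 4 H W).filter (fun Q => {i, j} ⊆ Q ∧ F Q {i, j}), ((Q ∩ S).card : ℝ) := by
    rw [← t3v_double hij hi hj]
    refine Finset.sum_congr rfl fun T hT => ?_
    rw [mem_filter, mem_filter] at hT
    rw [hs T hT.1.1 hT.1.2]
  have h3 := t3v_local (H := H) (W := W) (F := F) (i := i) (j := j) (S := S)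
  have h4 : ∑ Q ∈ (Ks 4 H W).filter (fun Q => {i, j} ⊆ Q),
      ((if F Q {i, j} then 1 - ((Q ∩ S).card : ℝ) else 0) +
      (if Q ⊆ insert i (insert j S) then 1 else 0)) = 0 := by
    refine Finset.sum_eq_zero fun Q hQ => ?_
    rw [mem_filter] at hQ
    obtain ⟨hc, hc'⟩ := t3v_cardQS hij hi hj hQ.1 (hQ.2 (by simp)) (hQ.2 (by simp))
    by_cases hF : F Q {i, j}
    · rw [if_pos hF]
      obtain ⟨x, hxQ, hxS⟩ := h₁ Q hQ.1 hQ.2 hF
      have hpos : 1 ≤ (Q ∩ S).card := Finset.card_pos.2 ⟨x, mem_inter.2 ⟨hxQ, hxS⟩⟩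
      by_cases hsub : Q ⊆ insert i (insert j S)
      · rw [if_pos hsub, hc'.2 hsub]
        norm_num
      · rw [if_neg hsub]
        have : (Q ∩ S).card = 1 := by
          have := mt hc'.1 hsub
          omega
        rw [this]
        norm_num
    · rw [if_neg hF, if_neg, add_zero]
      intro hsub
      obtain ⟨x, hxQ, hxi, hxj, hxS⟩ := h₂ Q hQ.1 hQ.2 hF
      have := hsub hxQ
      simp only [mem_insert] at this
      tauto
  linarith

end MZ
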