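import Pool.Agent.MZ.T3Data2
import Pool.Agent.MZ.T3Tog
import Pool.Agent.MZ.T3Val
import Pool.Agent.MZ.Mob

/-!
# MZ-16: the face of the explicit function
-/

open scoped Classical
open Finset

namespace MZ

variable {V : Type} [Fintype V]

private lemma mem_Ks_iff {H : SimpleGraph V} {W K : Finset V} {k : ℕ} :
    K ∈ Ks k H W ↔ K ⊆ W ∧ H.IsNClique k K := by
  simp [Ks]

private lemma mem_sides_iff {H : SimpleGraph V} {W T Q : Finset V} :
    Q ∈ sides H W T ↔ (Q ⊆ W ∧ H.IsNClique 4 Q) ∧ T ⊆ Q := by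
  simp [sides, mem_Ks_iff]

/-- coefficients of non-cliques vanish -/
private lemma zc_zero_of_not_clique {H : SimpleGraph V} {W : Finset V}
    {F : Finset V → Finset V → Prop} {m : Finset V → ℕ}
    (z : Finset V → ℝ)
    (hz : ∀ i j S, i ≠ j → i ∉ S → j ∉ S → cv (ff H W F m) i j S = 0 → cv z i j S = 0)
    (K : Finset V) (hK : ¬ H.IsClique (K : Set V)) : zc z K = 0 := by
  have : ∃ a ∈ K, ∃ b ∈ K, a ≠ b ∧ ¬ H.Adj a b := by
    by_contra hcon
    push_neg at hcon
    apply hK
    intro a ha b hb hab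
    exact hcon a (by exact_mod_cast ha) b (by exact_mod_cast hb) hab
  obtain ⟨a, ha, b, hb, hab, hadj⟩ := this
  rw [zc_eq_cv z hab ha hb]
  apply Finset.sum_eq_zero
  intro S hS
  have hS' : S ⊆ (K.erase a).erase b := Finset.mem_powerset.mp hS
  have haS : a ∉ S := by
    intro h
    have := hS' h
    simp at this
  have hbS : b ∉ S := by
    intro h
    have := hS' h
    simp at this
  have hnot : ({a, b} : Finset V) ∉ Ks 2 H W := by
    intro h
    rw [mem_Ks_iff] at h
    apply hadj
    exact h.2.1 (by simp) (by simp) hab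
  rw [hz a b S hab haS hbS (cv_ff_eq_zero H W F m hab haS hbS hnot), mul_zero]

/-- The equation of the face at a triangle `T` with at least two sides and an edge `e` of `T`:
with `T = e ∪ {w₀}` and `S` from `toggle`, both `S` and `insert w₀ S` are tight by `cv_ff_tight`,
so `cv z i j (insert w₀ S) - cv z i j S = 0`; by `cv_eq_zc` this is the sum of `zc z K` over
`e ∪ {w₀} ⊆ K ⊆ S ∪ {w₀} ∪ e`, where only cliques contribute (`zc z K = 0` if `K` contains a pair
which is not an edge inside `W`, by `zc_eq_cv` and `cv_ff_eq_zero`): `K = T` and the `Q = T ∪ {x}`,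
`x ∈ S`, i.e. the `Q` with `F Q e`. (`Ks 5` is empty.) -/
theorem face_eq {H : SimpleGraph V} {W : Finset V} (hW : IsTree3 H W)
    {F : Finset V → Finset V → Prop} {m : Finset V → ℕ} (hd : Dat H W F m)
    (z : Finset V → ℝ)
    (hz : ∀ i j S, i ≠ j → i ∉ S → j ∉ S → cv (ff H W F m) i j S = 0 → cv z i j S = 0)
    (T : Finset V) (hT : T ∈ Ks 3 H W) (h2 : 2 ≤ (sides H W T).card) (e : Finset V)
    (heT : e ⊆ T) (he : e.card = 2) :
    zc z T + ∑ Q ∈ (sides H W T).filter (fun Q => F Q e), zc z Q = 0 := by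
  have hTm := mem_Ks_iff.mp hT
  have hTcard : T.card = 3 := hTm.2.2
  have heK : e ∈ Ks 2 H W :=
    mem_Ks_iff.mpr ⟨heT.trans hTm.1, ⟨hTm.2.1.subset (by exact_mod_cast heT), he⟩⟩
  -- the third vertex
  have hw : ∃ w₀, w₀ ∉ e ∧ insert w₀ e = T := by
    have h1 : (T \ e).card = 1 := by
      rw [Finset.card_sdiff_of_subset heT, hTcard, he]
    obtain ⟨w, hw⟩ := Finset.card_eq_one.mp h1
    refine ⟨w, ?_, ?_⟩
    · have : w ∈ T \ e := by rw [hw]; simp
      exact (Finset.mem_sdiff.mp this).2
    · have := Finset.sdiff_union_of_subset heT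
      rw [hw] at this
      rw [← this]; rfl
  obtain ⟨w₀, hw₀e, hTe⟩ := hw
  obtain ⟨i, j, hij, hije⟩ := Finset.card_eq_two.mp he
  obtain ⟨S, hSW, hw₀S, hdis, hSK, htog1, htog2, htog3⟩ :=
    toggle hW F e heK w₀ (by rw [hTe]; exact hT) hw₀e
  subst hije
  have hiS : i ∉ S := fun h => Finset.disjoint_left.mp hdis h (by simp)
  have hjS : j ∉ S := fun h => Finset.disjoint_left.mp hdis h (by simp)
  have hiw : i ≠ w₀ := fun h => hw₀e (by simp [← h])
  have hjw : j ≠ w₀ := fun h => hw₀e (by simp [← h])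
  -- the fourth vertex of a `Q` containing `e` and `w₀`
  have hfour : ∀ Q ∈ Ks 4 H W, ({i, j} : Finset V) ⊆ Q → w₀ ∈ Q →
      ∃ x ∈ Q, x ∉ ({i, j} : Finset V) ∧ x ≠ w₀ ∧ Q = insert x T := by
    intro Q hQ heQ hwQ
    have hQm := mem_Ks_iff.mp hQ
    have hTQ : T ⊆ Q := by
      rw [← hTe]; exact Finset.insert_subset hwQ heQ
    have h1 : (Q \ T).card = 1 := by
      rw [Finset.card_sdiff_of_subset hTQ, hTcard, hQm.2.2]
    obtain ⟨x, hx⟩ := Finset.card_eq_one.mp h1
    have hxm : x ∈ Q \ T := by rw [hx]; simp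
    have hxm' := Finset.mem_sdiff.mp hxm
    refine ⟨x, hxm'.1, ?_, ?_, ?_⟩
    · intro h; exact hxm'.2 (heT h)
    · intro h; apply hxm'.2; rw [← hTe, h]; simp
    · have := Finset.sdiff_union_of_subset hTQ
      rw [hx] at this
      rw [← this]; rfl
  have hslack : ∀ T' ∈ Ks 3 H W, ({i, j} : Finset V) ⊆ T' →
      ((sides H W T').filter (fun Q => F Q {i, j})).card = m T' := by
    intro T' hT' heT'
    exact hd.slack {i, j} T' T he heT' heT hT' hT h2
  -- the two tight sets
  have hA : cv (ff H W F m) i j S = 0 := by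
    apply cv_ff_tight hij hiS hjS hSK heK hslack
    · intro Q hQ heQ hF
      by_cases hwQ : w₀ ∈ Q
      · obtain ⟨x, hxQ, hxe, hxw, -⟩ := hfour Q hQ heQ hwQ
        exact ⟨x, hxQ, (htog1 Q hQ heQ hwQ x hxQ hxe hxw).mpr hF⟩
      · exact htog2 Q hQ heQ hwQ hF
    · intro Q hQ heQ hF
      by_cases hwQ : w₀ ∈ Q
      · exact ⟨w₀, hwQ, hiw.symm, hjw.symm, hw₀S⟩
      · obtain ⟨x, hxQ, hxe, hxS⟩ := htog3 Q hQ heQ hwQ hF
        simp only [Finset.mem_insert, Finset.mem_singleton, not_or] at hxe
        exact ⟨x, hxQ, hxe.1, hxe.2, hxS⟩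
  have hiS' : i ∉ insert w₀ S := by simp [hiw, hiS]
  have hjS' : j ∉ insert w₀ S := by simp [hjw, hjS]
  have hB : cv (ff H W F m) i j (insert w₀ S) = 0 := by
    apply cv_ff_tight hij hiS' hjS' ?_ heK hslack
    · intro Q hQ heQ hF
      by_cases hwQ : w₀ ∈ Q
      · exact ⟨w₀, hwQ, by simp⟩
      · obtain ⟨x, hxQ, hxS⟩ := htog2 Q hQ heQ hwQ hF
        exact ⟨x, hxQ, by simp [hxS]⟩
    · intro Q hQ heQ hF
      by_cases hwQ : w₀ ∈ Q
      · obtain ⟨x, hxQ, hxe, hxw, -⟩ := hfour Q hQ heQ hwQ
        have hxS : x ∉ S := fun h => hF ((htog1 Q hQ heQ hwQ x hxQ hxe hxw).mp h)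
        simp only [Finset.mem_insert, Finset.mem_singleton, not_or] at hxe
        exact ⟨x, hxQ, hxe.1, hxe.2, by simp [hxw, hxS]⟩
      · obtain ⟨x, hxQ, hxe, hxS⟩ := htog3 Q hQ heQ hwQ hF
        simp only [Finset.mem_insert, Finset.mem_singleton, not_or] at hxe
        have hxw : x ≠ w₀ := fun h => hwQ (h ▸ hxQ)
        exact ⟨x, hxQ, hxe.1, hxe.2, by simp [hxw, hxS]⟩
    · intro x hx
      rcases Finset.mem_insert.mp hx with h | h
      · subst h; rw [hTe]; exact hT
      · exact hSK x h
  have hA' := hz i j S hij hiS hjS hA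
  have hB' := hz i j (insert w₀ S) hij hiS' hjS' hB
  rw [cv_eq_zc z hij hiS hjS] at hA'
  rw [cv_eq_zc z hij hiS' hjS'] at hB'
  -- split according to `w₀ ∈ K`
  rw [← Finset.sum_filter_add_sum_filter_not _ (fun K : Finset V => w₀ ∈ K)] at hB'
  have hsame : ((insert i (insert j (insert w₀ S))).powerset.filter
        (fun K : Finset V => i ∈ K ∧ j ∈ K)).filter (fun K => ¬ w₀ ∈ K) =
      (insert i (insert j S)).powerset.filter (fun K : Finset V => i ∈ K ∧ j ∈ K) := by
    ext K
    simp only [Finset.mem_filter, Finset.mem_powerset]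
    constructor
    · rintro ⟨⟨h1, h2, h3⟩, h4⟩
      refine ⟨?_, h2, h3⟩
      intro x hx
      have := h1 hx
      simp only [Finset.mem_insert] at this ⊢
      rcases this with h | h | h | h
      · exact Or.inl h
      · exact Or.inr (Or.inl h)
      · exact absurd (h ▸ hx) h4
      · exact Or.inr (Or.inr h)
    · rintro ⟨h1, h2, h3⟩
      refine ⟨⟨?_, h2, h3⟩, ?_⟩
      · intro x hx
        have := h1 hx
        simp only [Finset.mem_insert] at this ⊢
        tauto
      · intro h
        have := h1 h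
        simp only [Finset.mem_insert] at this
        rcases this with h | h | h
        · exact hiw h.symm
        · exact hjw h.symm
        · exact hw₀S h
  rw [hsame, hA', add_zero] at hB'
  -- the index set
  set A := ((insert i (insert j (insert w₀ S))).powerset.filter
        (fun K : Finset V => i ∈ K ∧ j ∈ K)).filter (fun K => w₀ ∈ K) with hAdef
  have hTnot : T ∉ (sides H W T).filter (fun Q => F Q {i, j}) := by
    intro h
    have := (mem_sides_iff.mp (Finset.mem_filter.mp h).1).1.2.2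
    omega
  have hTmem : T = {w₀, i, j} := hTe.symm
  have hsub : insert T ((sides H W T).filter (fun Q => F Q {i, j})) ⊆ A := by
    intro K hK
    rcases Finset.mem_insert.mp hK with h | h
    · subst h
      simp only [hAdef, Finset.mem_filter, Finset.mem_powerset]
      refine ⟨⟨?_, heT (by simp), heT (by simp)⟩, ?_⟩
      · rw [hTmem]
        intro x hx
        simp only [Finset.mem_insert, Finset.mem_singleton] at hx ⊢
        tauto
      · rw [hTmem]; simp
    · obtain ⟨hKs, hF⟩ := Finset.mem_filter.mp h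
      have hKm := mem_sides_iff.mp hKs
      have hwK : w₀ ∈ K := hKm.2 (by rw [hTmem]; simp)
      have hK4 : K ∈ Ks 4 H W := mem_Ks_iff.mpr hKm.1
      have heK' : ({i, j} : Finset V) ⊆ K := heT.trans hKm.2
      obtain ⟨x, hxK, hxe, hxw, hKx⟩ := hfour K hK4 heK' hwK
      have hxS : x ∈ S := (htog1 K hK4 heK' hwK x hxK hxe hxw).mpr hF
      simp only [hAdef, Finset.mem_filter, Finset.mem_powerset]
      refine ⟨⟨?_, heK' (by simp), heK' (by simp)⟩, hwK⟩
      rw [hKx, hTmem]
      intro y hy
      simp only [Finset.mem_insert, Finset.mem_singleton] at hy ⊢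
      rcases hy with h | h | h | h
      · rw [h]; exact Or.inr (Or.inr (Or.inr hxS))
      · exact Or.inr (Or.inr (Or.inl h))
      · exact Or.inl h
      · exact Or.inr (Or.inl h)
  have hzero : ∀ K ∈ A, K ∉ insert T ((sides H W T).filter (fun Q => F Q {i, j})) →
      zc z K = 0 := by
    intro K hK hKn
    by_contra hne
    have hcl : H.IsClique (K : Set V) := by
      by_contra hcl
      exact hne (zc_zero_of_not_clique z hz K hcl)
    simp only [hAdef, Finset.mem_filter, Finset.mem_powerset] at hK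
    obtain ⟨⟨hKsub, hiK, hjK⟩, hwK⟩ := hK
    have hTK : T ⊆ K := by
      rw [hTmem]
      intro x hx
      simp only [Finset.mem_insert, Finset.mem_singleton] at hx
      rcases hx with h | h | h <;> rw [h] <;> assumption
    have hKW : K ⊆ W := by
      intro x hx
      have := hKsub hx
      simp only [Finset.mem_insert] at this
      have hTW := hTm.1
      rcases this with h | h | h | h
      · rw [h]; exact hTW (by rw [hTmem]; simp)
      · rw [h]; exact hTW (by rw [hTmem]; simp)
      · rw [h]; exact hTW (by rw [hTmem]; simp)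
      · exact hSW h
    have h3 : 3 ≤ K.card := by rw [← hTcard]; exact Finset.card_le_card hTK
    rcases Nat.lt_or_ge K.card 4 with h4 | h4
    · apply hKn
      have : K.card ≤ T.card := by omega
      rw [Finset.eq_of_subset_of_card_le hTK this]
      simp
    rcases Nat.lt_or_ge K.card 5 with h5 | h5
    · have hK4 : K ∈ Ks 4 H W := mem_Ks_iff.mpr ⟨hKW, hcl, by omega⟩
      have heK' : ({i, j} : Finset V) ⊆ K := heT.trans hTK
      obtain ⟨x, hxK, hxe, hxw, hKx⟩ := hfour K hK4 heK' hwK
      have hxS : x ∈ S := by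
        have := hKsub hxK
        simp only [Finset.mem_insert] at this
        simp only [Finset.mem_insert, Finset.mem_singleton, not_or] at hxe
        rcases this with h | h | h | h
        · exact absurd h hxe.1
        · exact absurd h hxe.2
        · exact absurd h hxw
        · exact h
      apply hKn
      apply Finset.mem_insert_of_mem
      rw [Finset.mem_filter]
      exact ⟨mem_sides_iff.mpr ⟨mem_Ks_iff.mp hK4, hTK⟩,
        (htog1 K hK4 heK' hwK x hxK hxe hxw).mp hxS⟩
    · obtain ⟨L, hLK, hL⟩ := Finset.exists_subset_card_eq h5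
      have : L ∈ Ks 5 H W :=
        mem_Ks_iff.mpr ⟨hLK.trans hKW, hcl.subset (by exact_mod_cast hLK), hL⟩
      rw [Ks5_empty hW] at this
      simp at this
  rw [← Finset.sum_subset hsub hzero, Finset.sum_insert hTnot] at hB'
  exact hB'

/-- all the coefficients of the complete graphs on four vertices are equal -/
theorem face_const {H : SimpleGraph V} {W : Finset V} (hW : IsTree3 H W)
    {F : Finset V → Finset V → Prop} {m : Finset V → ℕ} (hd : Dat H W F m)
    (z : Finset V → ℝ)
    (hz : ∀ i j S, i ≠ j → i ∉ S → j ∉ S → cv (ff H W F m) i j S = 0 → cv z i j S = 0) :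
    ∀ Q ∈ Ks 4 H W, ∀ Q' ∈ Ks 4 H W, zc z Q = zc z Q' := by
  apply const_of_link hW
  intro T hT Q hQ Q' hQ'
  by_cases h2 : 2 ≤ (sides H W T).card
  · exact hd.link T hT (zc z) (zc z T)
      (fun e heT he => face_eq hW hd z hz T hT h2 e heT he) Q hQ Q' hQ'
  · have h1 : (sides H W T).card ≤ 1 := by omega
    rw [Finset.card_le_one.mp h1 Q hQ Q' hQ']

end MZ
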