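import Pool.Agent.MZ.Grid

/-!
# MZ-9b: second differences and separators
-/

open scoped Classical
open Finset

namespace MZ

variable {V : Type} [Fintype V]

/-- `W ⊇ supV f` is the disjoint union of `X` and the `A c`, no edges between different `A c`. -/
structure Sep (G : SimpleGraph V) (f : Finset V → ℝ) {ι : Type} [Fintype ι]
    (A : ι → Finset V) (X : Finset V) : Prop where
  sup : supV f ⊆ X ∪ Finset.univ.biUnion A
  dX : ∀ c, Disjoint X (A c)
  dA : ∀ c c', c ≠ c' → Disjoint (A c) (A c')
  noe : ∀ c c', c ≠ c' → ∀ a ∈ A c, ∀ b ∈ A c', ¬ G.Adj a b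

omit [Fintype V] in
private lemma cv_comm' (f : Finset V → ℝ) (i j : V) (S : Finset V) :
    cv f i j S = cv f j i S := by
  unfold cv
  rw [Finset.insert_comm i j S]; ring

/-- The symmetry of third differences: if all `cv f i v` vanish then `v` does not matter. -/
theorem cv_insert_of_zero {f : Finset V → ℝ} {i j v : V} {S : Finset V} (hij : i ≠ j)
    (hiv : i ≠ v) (hjv : j ≠ v) (hi : i ∉ S) (hj : j ∉ S) (hv : v ∉ S)
    (h : ∀ S, i ∉ S → v ∉ S → cv f i v S = 0) :
    cv f i j (insert v S) = cv f i j S := by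
  have h1 := h S hi hv
  have h2 := h (insert j S) (by simp [hij, hi]) (by simp [hjv.symm, hv])
  unfold cv at h1 h2 ⊢
  have e1 : insert i (insert j (insert v S)) = insert i (insert v (insert j S)) := by
    rw [Finset.insert_comm j v S]
  have e2 : insert j (insert v S) = insert v (insert j S) := Finset.insert_comm j v S
  rw [e1, e2]
  linarith

/-- Only the common neighbours of `i` and `j` in `supV f` matter. -/
theorem cv_local {G : SimpleGraph V} {f : Finset V → ℝ} (hf : InC G f) {i j : V}
    {S S' : Finset V} (hij : i ≠ j) (hi : i ∉ S) (hj : j ∉ S) (hS : S' ⊆ S)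
    (h : ∀ v ∈ S \ S', ¬ G.Adj i v ∨ ¬ G.Adj j v ∨ v ∉ supV f) :
    cv f i j S = cv f i j S' := by
  -- induction on a set `T` disjoint from `S'`
  have key : ∀ T : Finset V, Disjoint S' T → i ∉ T → j ∉ T →
      (∀ v ∈ T, ¬ G.Adj i v ∨ ¬ G.Adj j v ∨ v ∉ supV f) →
      cv f i j (T ∪ S') = cv f i j S' := by
    intro T
    induction T using Finset.induction_on with
    | empty => intro _ _ _ _; rw [Finset.empty_union]
    | insert v T hvT ih =>
      intro hd hiT hjT hT
      have hd' : Disjoint S' T := hd.mono_right (Finset.subset_insert _ _)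
      have hiT' : i ∉ T := fun h => hiT (Finset.mem_insert_of_mem h)
      have hjT' : j ∉ T := fun h => hjT (Finset.mem_insert_of_mem h)
      have hvi : i ≠ v := fun h => hiT (h ▸ Finset.mem_insert_self _ _)
      have hvj : j ≠ v := fun h => hjT (h ▸ Finset.mem_insert_self _ _)
      have hvS' : v ∉ S' := fun h =>
        (Finset.disjoint_left.mp hd h) (Finset.mem_insert_self _ _)
      have hiS' : i ∉ S' := fun h => hi (hS h)
      have hjS' : j ∉ S' := fun h => hj (hS h)
      have ih' := ih hd' hiT' hjT' (fun w hw => hT w (Finset.mem_insert_of_mem hw))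
      rw [Finset.insert_union]
      rw [← ih']
      have hiU : i ∉ T ∪ S' := by simp [hiT', hiS']
      have hjU : j ∉ T ∪ S' := by simp [hjT', hjS']
      have hvU : v ∉ T ∪ S' := by simp [hvT, hvS']
      rcases hT v (Finset.mem_insert_self _ _) with h1 | h1 | h1
      · exact cv_insert_of_zero hij hvi hvj hiU hjU hvU
          (fun S hiS hvS => hf.nonadj i v S hvi hiS hvS h1)
      · rw [cv_comm' f i j, cv_comm' f i j]
        exact cv_insert_of_zero hij.symm hvj hvi hjU hiU hvU
          (fun S hjS hvS => hf.nonadj j v S hvj hjS hvS h1)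
      · refine cv_insert_of_zero hij hvi hvj hiU hjU hvU ?_
        intro S hiS hvS
        have hn := hf.nonneg i v S hvi hiS hvS
        by_contra hne
        have hpos : 0 < cv f i v S := lt_of_le_of_ne hn (Ne.symm hne)
        apply h1
        unfold supV
        rw [Finset.mem_filter]
        refine ⟨Finset.mem_univ _, i, S, hvi.symm, hvS, hiS, ?_⟩
        rw [cv_comm' f v i]; exact hpos
  have hST : (S \ S') ∪ S' = S := Finset.sdiff_union_of_subset hS
  have := key (S \ S') Finset.disjoint_sdiff (fun h => hi (Finset.mem_sdiff.mp h).1)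
    (fun h => hj (Finset.mem_sdiff.mp h).1) h
  rw [hST] at this
  exact this

/-- decomposition of `f` on subsets of `X ∪ ⋃ A c` -/
private lemma f_split {G : SimpleGraph V} {f : Finset V → ℝ} (hf : InC G f) {ι : Type} [Fintype ι]
    {A : ι → Finset V} {X : Finset V} (h : Sep G f A X) (T : Finset V)
    (hT : T ⊆ X ∪ Finset.univ.biUnion A) :
    f T = f (T ∩ X) + ∑ c, (f (T ∩ (X ∪ A c)) - f (T ∩ X)) := by
  have key : ∀ C : Finset ι, f ((T ∩ X) ∪ C.biUnion (fun c => T ∩ A c)) =
      f (T ∩ X) + ∑ c ∈ C, (f (T ∩ (X ∪ A c)) - f (T ∩ X)) := by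
    intro C
    induction C using Finset.induction_on with
    | empty => simp
    | insert c C hc ih =>
      rw [Finset.sum_insert hc]
      have hm := hf.modular ((T ∩ X) ∪ C.biUnion (fun c => T ∩ A c)) (T ∩ (X ∪ A c)) ?_
      · have hun : ((T ∩ X) ∪ C.biUnion (fun c => T ∩ A c)) ∪ (T ∩ (X ∪ A c)) =
            (T ∩ X) ∪ (insert c C).biUnion (fun c => T ∩ A c) := by
          ext v
          simp only [Finset.mem_union, Finset.mem_inter, Finset.mem_biUnion, Finset.mem_insert]
          constructor
          · rintro ((h1 | ⟨d, hd, h1⟩) | ⟨h1, h2 | h2⟩)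
            · exact Or.inl h1
            · exact Or.inr ⟨d, Or.inr hd, h1⟩
            · exact Or.inl ⟨h1, h2⟩
            · exact Or.inr ⟨c, Or.inl rfl, h1, h2⟩
          · rintro (h1 | ⟨d, rfl | hd, h1⟩)
            · exact Or.inl (Or.inl h1)
            · exact Or.inr ⟨h1.1, Or.inr h1.2⟩
            · exact Or.inl (Or.inr ⟨d, hd, h1⟩)
        have hin : ((T ∩ X) ∪ C.biUnion (fun c => T ∩ A c)) ∩ (T ∩ (X ∪ A c)) = T ∩ X := by
          ext v
          simp only [Finset.mem_union, Finset.mem_inter, Finset.mem_biUnion]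
          constructor
          · rintro ⟨h1 | ⟨d, hd, h1⟩, h2, h3 | h3⟩
            · exact h1
            · exact h1
            · exact ⟨h2, h3⟩
            · exfalso
              have hdc : d ≠ c := fun h => hc (h ▸ hd)
              exact (Finset.disjoint_left.mp (h.dA d c hdc) h1.2) h3
          · rintro ⟨h1, h2⟩
            exact ⟨Or.inl ⟨h1, h2⟩, h1, Or.inl h2⟩
        rw [hun, hin, ih] at hm
        linarith
      · intro a ha b hb
        simp only [Finset.mem_sdiff, Finset.mem_union, Finset.mem_inter,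
          Finset.mem_biUnion, not_or, not_and, not_exists] at ha hb
        obtain ⟨ha1, ha2⟩ := ha
        obtain ⟨hb1, hb2, hb3⟩ := hb
        have hbc : b ∈ A c := by
          rcases hb1.2 with hx | hx
          · exact absurd hx (hb2 hb1.1)
          · exact hx
        rcases ha1 with ha1 | ⟨d, hd, ha1⟩
        · exact absurd ha1.2 (ha2 ha1.1).1
        · have hdc : d ≠ c := fun h => hc (h ▸ hd)
          exact h.noe d c hdc a ha1.2 b hbc
  have hTe : (T ∩ X) ∪ (Finset.univ : Finset ι).biUnion (fun c => T ∩ A c) = T := by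
    ext v
    simp only [Finset.mem_union, Finset.mem_inter, Finset.mem_biUnion, Finset.mem_univ, true_and]
    constructor
    · rintro (h1 | ⟨d, h1⟩)
      · exact h1.1
      · exact h1.1
    · intro hv
      have := hT hv
      simp only [Finset.mem_union, Finset.mem_biUnion, Finset.mem_univ, true_and] at this
      rcases this with h1 | ⟨d, h1⟩
      · exact Or.inl ⟨hv, h1⟩
      · exact Or.inr ⟨d, hv, h1⟩
  have := key Finset.univ
  rw [hTe] at this
  exact this

/-- For `i, j ∈ X` the second difference splits over the parts. (Decomposition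
`f S = f (S ∩ X) + ∑ (f (S ∩ (X ∪ A c)) - f (S ∩ X))` for `S ⊆ X ∪ ⋃ A c` from `InC.modular`;
vertices outside `supV f` do not matter by `cv_local`.) -/
theorem cv_split {G : SimpleGraph V} {f : Finset V → ℝ} (hf : InC G f) {ι : Type} [Fintype ι]
    {A : ι → Finset V} {X : Finset V} (h : Sep G f A X) {i j : V} (hiX : i ∈ X) (hjX : j ∈ X)
    (hij : i ≠ j) {S : Finset V} (hi : i ∉ S) (hj : j ∉ S) :
    cv f i j S = cv f i j (S ∩ X) + ∑ c, (cv f i j (S ∩ (X ∪ A c)) - cv f i j (S ∩ X)) := by
  set W : Finset V := X ∪ Finset.univ.biUnion A with hW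
  have hXW : X ⊆ W := Finset.subset_union_left
  have hAW : ∀ c, A c ⊆ W := fun c =>
    (Finset.subset_biUnion_of_mem A (Finset.mem_univ c)).trans Finset.subset_union_right
  have h1 : cv f i j S = cv f i j (S ∩ W) := by
    refine cv_local hf hij hi hj Finset.inter_subset_left ?_
    intro v hv
    right; right
    intro hv'
    rw [Finset.mem_sdiff, Finset.mem_inter] at hv
    exact hv.2 ⟨hv.1, h.sup hv'⟩
  have hSX : S ∩ W ∩ X = S ∩ X := by
    rw [Finset.inter_assoc, Finset.inter_eq_right.mpr hXW]
  have hSA : ∀ c, S ∩ W ∩ (X ∪ A c) = S ∩ (X ∪ A c) := by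
    intro c
    rw [Finset.inter_assoc, Finset.inter_eq_right.mpr (Finset.union_subset hXW (hAW c))]
  have hins : ∀ (k : V), k ∈ X → ∀ (T Y : Finset V), X ⊆ Y →
      (insert k T) ∩ Y = insert k (T ∩ Y) := by
    intro k hk T Y hY
    exact Finset.insert_inter_of_mem (hY hk)
  have hT0 : S ∩ W ⊆ W := Finset.inter_subset_right
  have hTi : insert i (S ∩ W) ⊆ W := Finset.insert_subset (hXW hiX) hT0
  have hTj : insert j (S ∩ W) ⊆ W := Finset.insert_subset (hXW hjX) hT0
  have hTij : insert i (insert j (S ∩ W)) ⊆ W := Finset.insert_subset (hXW hiX) hTj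
  have e0 := f_split hf h _ hT0
  have ei := f_split hf h _ hTi
  have ej := f_split hf h _ hTj
  have eij := f_split hf h _ hTij
  rw [hins i hiX _ X (Finset.Subset.refl X)] at ei
  rw [hins j hjX _ X (Finset.Subset.refl X)] at ej
  rw [hins i hiX _ X (Finset.Subset.refl X), hins j hjX _ X (Finset.Subset.refl X)] at eij
  have ei' : f (insert i (S ∩ W)) = f (insert i (S ∩ X)) +
      ∑ c, (f (insert i (S ∩ (X ∪ A c))) - f (insert i (S ∩ X))) := by
    rw [ei, hSX]
    congr 1
    refine Finset.sum_congr rfl (fun c _ => ?_)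
    rw [hins i hiX _ (X ∪ A c) Finset.subset_union_left, hSA c]
  have ej' : f (insert j (S ∩ W)) = f (insert j (S ∩ X)) +
      ∑ c, (f (insert j (S ∩ (X ∪ A c))) - f (insert j (S ∩ X))) := by
    rw [ej, hSX]
    congr 1
    refine Finset.sum_congr rfl (fun c _ => ?_)
    rw [hins j hjX _ (X ∪ A c) Finset.subset_union_left, hSA c]
  have eij' : f (insert i (insert j (S ∩ W))) = f (insert i (insert j (S ∩ X))) +
      ∑ c, (f (insert i (insert j (S ∩ (X ∪ A c)))) - f (insert i (insert j (S ∩ X)))) := by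
    rw [eij, hSX]
    congr 1
    refine Finset.sum_congr rfl (fun c _ => ?_)
    rw [hins i hiX _ (X ∪ A c) Finset.subset_union_left,
      hins j hjX _ (X ∪ A c) Finset.subset_union_left, hSA c]
  have e0' : f (S ∩ W) = f (S ∩ X) + ∑ c, (f (S ∩ (X ∪ A c)) - f (S ∩ X)) := by
    rw [e0, hSX]
    congr 1
    refine Finset.sum_congr rfl (fun c _ => ?_)
    rw [hSA c]
  rw [h1]
  unfold cv
  rw [e0', ei', ej', eij']
  simp only [Finset.sum_sub_distrib, Finset.sum_add_distrib]
  ring

theorem cv_split' {G : SimpleGraph V} {f : Finset V → ℝ} (hf : InC G f) {ι : Type} [Fintype ι]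
    {A : ι → Finset V} {X : Finset V} (h : Sep G f A X) {c : ι} {i j : V} (hiA : i ∈ A c)
    (hij : i ≠ j) {S : Finset V} (hi : i ∉ S) (hj : j ∉ S) :
    cv f i j S = cv f i j (S ∩ (X ∪ A c)) := by
  refine cv_local hf hij hi hj Finset.inter_subset_left ?_
  intro v hv
  rw [Finset.mem_sdiff, Finset.mem_inter, Finset.mem_union] at hv
  obtain ⟨hvS, hv2⟩ := hv
  by_cases hs : v ∈ supV f
  · left
    have := h.sup hs
    rw [Finset.mem_union, Finset.mem_biUnion] at this
    rcases this with h1 | ⟨d, _, h1⟩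
    · exact absurd ⟨hvS, Or.inl h1⟩ hv2
    · have hdc : c ≠ d := by
        rintro rfl
        exact hv2 ⟨hvS, Or.inr h1⟩
      exact h.noe c d hdc i hiA v h1
  · right; right; exact hs

end MZ
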