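import Pool.Agent.MZ.UpA

/-!
# MZ-9c: the perturbation attached to a separator
-/

open scoped Classical
open Finset

namespace MZ

variable {V : Type} [Fintype V]

/-- the cliques with at least two vertices in `X` -/
noncomputable def Cl (G : SimpleGraph V) (X : Finset V) : Finset (Finset V) :=
  X.powerset.filter (fun K : Finset V => 2 ≤ K.card ∧ G.IsClique (K : Set V))

/-- the perturbation -/
noncomputable def zz (G : SimpleGraph V) (f : Finset V → ℝ) {ι : Type} [Fintype ι]
    (A : ι → Finset V) (X : Finset V) (y : Finset V → ℝ) (t : ι → ℝ) (S : Finset V) : ℝ :=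
  - (∑ K ∈ (Cl G X).filter (fun K => K ⊆ S), y K) +
    ∑ c, t c * (f (S ∩ (X ∪ A c)) - f (S ∩ X))

omit [Fintype V] in
private theorem cv_inter_mem {f : Finset V → ℝ} {Z : Finset V} {i j : V} {S : Finset V}
    (hi : i ∈ Z) (hj : j ∈ Z) :
    cv (fun S => f (S ∩ Z)) i j S = cv f i j (S ∩ Z) := by
  simp only [cv]
  rw [Finset.insert_inter_of_mem hi, Finset.insert_inter_of_mem hj,
    Finset.insert_inter_of_mem hi, Finset.insert_inter_of_mem hj]

omit [Fintype V] in
private theorem cv_inter_left {f : Finset V → ℝ} {Z : Finset V} {i j : V} {S : Finset V}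
    (hi : i ∉ Z) :
    cv (fun S => f (S ∩ Z)) i j S = 0 := by
  simp only [cv]
  rw [Finset.insert_inter_of_notMem hi, Finset.insert_inter_of_notMem hi]
  ring

omit [Fintype V] in
private theorem cv_inter_right {f : Finset V → ℝ} {Z : Finset V} {i j : V} {S : Finset V}
    (hj : j ∉ Z) :
    cv (fun S => f (S ∩ Z)) i j S = 0 := by
  simp only [cv]
  rw [Finset.insert_comm i j, Finset.insert_inter_of_notMem hj,
    Finset.insert_inter_of_notMem hj]
  ring

omit [Fintype V] in
private theorem cv_zz (G : SimpleGraph V) (f : Finset V → ℝ) {ι : Type} [Fintype ι]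
    (A : ι → Finset V) (X : Finset V) (y : Finset V → ℝ) (t : ι → ℝ) (i j : V)
    (S : Finset V) :
    cv (zz G f A X y t) i j S =
      cv (fun S => -(∑ K ∈ (Cl G X).filter (fun K => K ⊆ S), y K)) i j S +
        ∑ c, t c * (cv (fun S => f (S ∩ (X ∪ A c))) i j S - cv (fun S => f (S ∩ X)) i j S) := by
  simp only [cv, zz]
  have key : ∑ c, t c * ((f (insert i S ∩ (X ∪ A c)) + f (insert j S ∩ (X ∪ A c)) -
        f (insert i (insert j S) ∩ (X ∪ A c)) - f (S ∩ (X ∪ A c))) -
        (f (insert i S ∩ X) + f (insert j S ∩ X) -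
        f (insert i (insert j S) ∩ X) - f (S ∩ X))) =
      (∑ c, t c * (f (insert i S ∩ (X ∪ A c)) - f (insert i S ∩ X))) +
      (∑ c, t c * (f (insert j S ∩ (X ∪ A c)) - f (insert j S ∩ X))) -
      (∑ c, t c * (f (insert i (insert j S) ∩ (X ∪ A c)) - f (insert i (insert j S) ∩ X))) -
      (∑ c, t c * (f (S ∩ (X ∪ A c)) - f (S ∩ X))) := by
    rw [← Finset.sum_add_distrib, ← Finset.sum_sub_distrib, ← Finset.sum_sub_distrib]
    apply Finset.sum_congr rfl
    intro c _
    ring
  rw [key]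
  ring

/-- the sum over the cliques, with indicator functions -/
private theorem cv_P (C : Finset (Finset V)) (y : Finset V → ℝ) {i j : V} (hij : i ≠ j)
    {S : Finset V} (hi : i ∉ S) (hj : j ∉ S) :
    cv (fun S => -(∑ K ∈ C.filter (fun K => K ⊆ S), y K)) i j S =
      ∑ K ∈ C.filter (fun K => i ∈ K ∧ j ∈ K ∧ K ⊆ insert i (insert j S)), y K := by
  simp only [cv, Finset.sum_filter]
  have key : ∀ K : Finset V,
      (if i ∈ K ∧ j ∈ K ∧ K ⊆ insert i (insert j S) then y K else 0) =
      -(if K ⊆ insert i S then y K else 0) + -(if K ⊆ insert j S then y K else 0) -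
        -(if K ⊆ insert i (insert j S) then y K else 0) - -(if K ⊆ S then y K else 0) := by
    intro K
    have f1 : i ∈ K → ¬ K ⊆ insert j S := by
      intro h1 h2
      have := h2 h1
      rw [Finset.mem_insert] at this
      rcases this with h | h
      · exact hij h
      · exact hi h
    have f2 : j ∈ K → ¬ K ⊆ insert i S := by
      intro h1 h2
      have := h2 h1
      rw [Finset.mem_insert] at this
      rcases this with h | h
      · exact hij h.symm
      · exact hj h
    have f3 : i ∈ K → ¬ K ⊆ S := fun h1 h2 => hi (h2 h1)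
    have f4 : j ∈ K → ¬ K ⊆ S := fun h1 h2 => hj (h2 h1)
    by_cases hiK : i ∈ K
    · by_cases hjK : j ∈ K
      · rw [if_neg (f2 hjK), if_neg (f1 hiK), if_neg (f3 hiK)]
        simp [hiK, hjK]
      · have e : (K ⊆ insert i (insert j S)) ↔ K ⊆ insert i S := by
          rw [Finset.insert_comm]
          exact Finset.subset_insert_iff_of_notMem hjK
        rw [if_neg (f1 hiK), if_neg (f3 hiK)]
        simp [hjK, e]
    · have e1 : (K ⊆ insert i (insert j S)) ↔ K ⊆ insert j S :=
        Finset.subset_insert_iff_of_notMem hiK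
      have e2 : (K ⊆ insert i S) ↔ K ⊆ S := Finset.subset_insert_iff_of_notMem hiK
      by_cases hjK : j ∈ K
      · simp [hiK, e1, e2]
      · have e3 : (K ⊆ insert j S) ↔ K ⊆ S := Finset.subset_insert_iff_of_notMem hjK
        simp [hiK, e1, e2]
  rw [Finset.sum_congr rfl (fun K _ => key K)]
  simp only [Finset.sum_sub_distrib, Finset.sum_add_distrib, Finset.sum_neg_distrib]

theorem cv_zz_X {G : SimpleGraph V} {f : Finset V → ℝ} {ι : Type} [Fintype ι]
    {A : ι → Finset V} {X : Finset V} (h : Sep G f A X) (y : Finset V → ℝ) (t : ι → ℝ)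
    {i j : V} (hiX : i ∈ X) (hjX : j ∈ X) (hij : i ≠ j) {S : Finset V} (hi : i ∉ S)
    (hj : j ∉ S) :
    cv (zz G f A X y t) i j S =
      ∑ K ∈ (Cl G X).filter (fun K => i ∈ K ∧ j ∈ K ∧ K ⊆ insert i (insert j S)), y K +
        ∑ c, t c * (cv f i j (S ∩ (X ∪ A c)) - cv f i j (S ∩ X)) := by
  rw [cv_zz, cv_P (Cl G X) y hij hi hj]
  congr 1
  apply Finset.sum_congr rfl
  intro c _
  rw [cv_inter_mem (Finset.mem_union_left _ hiX) (Finset.mem_union_left _ hjX),
    cv_inter_mem hiX hjX]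

/-- the clique part has no curvature unless both vertices are in `X` -/
private theorem cv_P_zero (G : SimpleGraph V) (X : Finset V) (y : Finset V → ℝ) {i j : V}
    (hij : i ≠ j) {S : Finset V} (hi : i ∉ S) (hj : j ∉ S) (hX : ¬ (i ∈ X ∧ j ∈ X)) :
    cv (fun S => -(∑ K ∈ (Cl G X).filter (fun K => K ⊆ S), y K)) i j S = 0 := by
  rw [cv_P (Cl G X) y hij hi hj]
  apply Finset.sum_eq_zero
  intro K hK
  rw [Finset.mem_filter, Cl, Finset.mem_filter, Finset.mem_powerset] at hK
  exact absurd ⟨hK.1.1 hK.2.1, hK.1.1 hK.2.2.1⟩ hX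

theorem cv_zz_A {G : SimpleGraph V} {f : Finset V → ℝ} {ι : Type} [Fintype ι]
    {A : ι → Finset V} {X : Finset V} (h : Sep G f A X) (y : Finset V → ℝ) (t : ι → ℝ)
    {c : ι} {i j : V} (hiA : i ∈ A c) (hjA : j ∈ X ∪ A c) (hij : i ≠ j) {S : Finset V}
    (hi : i ∉ S) (hj : j ∉ S) :
    cv (zz G f A X y t) i j S = t c * cv f i j (S ∩ (X ∪ A c)) := by
  have hiX : i ∉ X := fun hx => (Finset.disjoint_left.mp (h.dX c) hx) hiA
  rw [cv_zz, cv_P_zero G X y hij hi hj (fun hx => hiX hx.1), zero_add]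
  rw [Finset.sum_eq_single c]
  · rw [cv_inter_mem (Finset.mem_union_right _ hiA) hjA, cv_inter_left hiX, sub_zero]
  · intro c' _ hc'
    have hi' : i ∉ X ∪ A c' := by
      rw [Finset.mem_union]
      rintro (hx | hx)
      · exact hiX hx
      · exact (Finset.disjoint_left.mp (h.dA c' c hc') hx) hiA
    rw [cv_inter_left hi', cv_inter_left hiX, sub_zero, mul_zero]
  · intro hc
    exact absurd (Finset.mem_univ c) hc

theorem cv_zz_ne {G : SimpleGraph V} {f : Finset V → ℝ} {ι : Type} [Fintype ι]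
    {A : ι → Finset V} {X : Finset V} (h : Sep G f A X) (y : Finset V → ℝ) (t : ι → ℝ)
    {i j : V} (hij : i ≠ j) {S : Finset V} (hi : i ∉ S) (hj : j ∉ S)
    (hX : ¬ (i ∈ X ∧ j ∈ X)) (hA : ∀ c, ¬ (i ∈ X ∪ A c ∧ j ∈ X ∪ A c)) :
    cv (zz G f A X y t) i j S = 0 := by
  rw [cv_zz, cv_P_zero G X y hij hi hj hX, zero_add]
  apply Finset.sum_eq_zero
  intro c _
  have e1 : cv (fun S => f (S ∩ (X ∪ A c))) i j S = 0 := by
    by_cases hi' : i ∈ X ∪ A c
    · exact cv_inter_right (fun hj' => hA c ⟨hi', hj'⟩)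
    · exact cv_inter_left hi'
  have e2 : cv (fun S => f (S ∩ X)) i j S = 0 := by
    by_cases hi' : i ∈ X
    · exact cv_inter_right (fun hj' => hX ⟨hi', hj'⟩)
    · exact cv_inter_left hi'
  rw [e1, e2, sub_zero, mul_zero]

end MZ
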