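import Pool.Agent.MZ.UpP
import Pool.Agent.MZ.UpB

/-!
# MZ-9d: the counting bound, abstract form
-/

open scoped Classical
open Finset

namespace MZ

variable {V : Type} [Fintype V]

theorem card_Cl (G : SimpleGraph V) (X : Finset V) : (Cl G X).card = numCl G X := rfl

/-- a function on the cliques of `X` all of whose interval sums vanish is zero
(induction on the size of the clique) -/
theorem y_zero {G : SimpleGraph V} {X : Finset V} (y : Finset V → ℝ)
    (h : ∀ i ∈ X, ∀ j ∈ X, i ≠ j → G.Adj i j → ∀ S ⊆ X, i ∉ S → j ∉ S →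
      (∀ v ∈ S, G.Adj v i ∧ G.Adj v j) →
      ∑ K ∈ (Cl G X).filter (fun K => i ∈ K ∧ j ∈ K ∧ K ⊆ insert i (insert j S)), y K = 0) :
    ∀ K ∈ Cl G X, y K = 0 := by
  intro K
  induction' hn : K.card using Nat.strong_induction_on with n ih generalizing K
  intro hK
  have hK' := hK
  rw [Cl, Finset.mem_filter, Finset.mem_powerset] at hK'
  obtain ⟨hKX, h2, hcl⟩ := hK'
  obtain ⟨i, hi, j, hj, hij⟩ := Finset.one_lt_card.1 h2
  have hs := h i (hKX hi) j (hKX hj) hij (hcl hi hj hij) ((K.erase i).erase j)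
    (fun v hv => hKX (Finset.mem_of_mem_erase (Finset.mem_of_mem_erase hv)))
    (by simp) (by simp)
    (fun v hv => by
      simp only [Finset.mem_erase] at hv
      exact ⟨hcl hv.2.2 hi hv.2.1, hcl hv.2.2 hj hv.1⟩)
  rw [Finset.sum_eq_single K] at hs
  · exact hs
  · intro K' hK' hne
    rw [Finset.mem_filter] at hK'
    obtain ⟨hK1, hi', hj', hsub⟩ := hK'
    have hsub' : K' ⊆ K := by
      intro v hv
      have := hsub hv
      simp only [Finset.mem_insert, Finset.mem_erase] at this
      rcases this with rfl | rfl | h3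
      · exact hi
      · exact hj
      · exact h3.2.2
    have hlt : K'.card < K.card :=
      Finset.card_lt_card (Finset.ssubset_iff_subset_ne.2 ⟨hsub', hne⟩)
    exact ih _ (hn ▸ hlt) K' rfl hK1
  · intro hnot
    refine absurd (Finset.mem_filter.2 ⟨hK, hi, hj, ?_⟩) hnot
    intro v hv
    simp only [Finset.mem_insert, Finset.mem_erase]
    by_cases h1 : v = i
    · exact Or.inl h1
    · by_cases h2 : v = j
      · exact Or.inr (Or.inl h2)
      · exact Or.inr (Or.inr ⟨h2, h1, hv⟩)

/-- the curvature for an edge given as a set -/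
private noncomputable def ce (f : Finset V → ℝ) (e S : Finset V) : ℝ :=
  ∑ v ∈ e, f (insert v S) - f (e ∪ S) - f S

private theorem ce_pair (f : Finset V → ℝ) {i j : V} (hij : i ≠ j) (S : Finset V) :
    ce f {i, j} S = cv f i j S := by
  unfold ce cv
  rw [Finset.sum_pair hij]
  have h : ({i, j} : Finset V) ∪ S = insert i (insert j S) := by
    ext v
    simp
  rw [h]

/-- the minimum over the subsets of `A` -/
private noncomputable def mc (f : Finset V → ℝ) (A e S : Finset V) : ℝ :=
  A.powerset.inf' ⟨∅, by simp⟩ (fun S₁ => ce f e (S ∪ S₁)) - ce f e S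

private noncomputable def FL (G : SimpleGraph V) (X : Finset V) :
    Finset (Σ _ : Finset V, Finset V) :=
  (X.powerset.filter (fun e : Finset V => G.IsNClique 2 e)).sigma
    (fun e => (X.filter (fun w => ∀ v ∈ e, G.Adj w v)).powerset)

private theorem card_FL (G : SimpleGraph V) (X : Finset V) : (FL G X).card = numFl G X := by
  unfold FL numFl
  rw [Finset.card_sigma]
  exact Finset.sum_congr rfl (fun e _ => Finset.card_powerset _)

private noncomputable def ext0 (C : Finset (Finset V)) (y : {K // K ∈ C} → ℝ) (K : Finset V) : ℝ :=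
  if h : K ∈ C then y ⟨K, h⟩ else 0

private theorem ext0_add (C : Finset (Finset V)) (y y' : {K // K ∈ C} → ℝ) (K : Finset V) :
    ext0 C (y + y') K = ext0 C y K + ext0 C y' K := by
  unfold ext0
  split_ifs <;> simp

private theorem ext0_smul (C : Finset (Finset V)) (a : ℝ) (y : {K // K ∈ C} → ℝ) (K : Finset V) :
    ext0 C (a • y) K = a * ext0 C y K := by
  unfold ext0
  split_ifs <;> simp

private theorem zz_add (G : SimpleGraph V) (f : Finset V → ℝ) {ι : Type} [Fintype ι]
    (A : ι → Finset V) (X : Finset V) (y y' : {K // K ∈ Cl G X} → ℝ) (t t' : ι → ℝ)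
    (S : Finset V) :
    zz G f A X (ext0 _ (y + y')) (t + t') S =
      zz G f A X (ext0 _ y) t S + zz G f A X (ext0 _ y') t' S := by
  unfold zz
  simp only [ext0_add, Pi.add_apply, add_mul, Finset.sum_add_distrib]
  ring

private theorem zz_smul (G : SimpleGraph V) (f : Finset V → ℝ) {ι : Type} [Fintype ι]
    (A : ι → Finset V) (X : Finset V) (a : ℝ) (y : {K // K ∈ Cl G X} → ℝ) (t : ι → ℝ)
    (S : Finset V) :
    zz G f A X (ext0 _ (a • y)) (a • t) S = a * zz G f A X (ext0 _ y) t S := by
  unfold zz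
  simp only [ext0_smul, Pi.smul_apply, smul_eq_mul, mul_assoc, ← Finset.mul_sum]
  ring

private noncomputable def LL (G : SimpleGraph V) (f : Finset V → ℝ) {ι : Type} [Fintype ι]
    (A : ι → Finset V) (X : Finset V) (i₀ j₀ : V) (S₀ : Finset V) :
    (({K // K ∈ Cl G X} → ℝ) × (ι → ℝ)) →ₗ[ℝ] (({p // p ∈ FL G X} → ℝ) × ℝ) where
  toFun := fun yt =>
    (fun p => ∑ K ∈ (Cl G X).filter (fun K => p.1.1 ⊆ K ∧ K ⊆ p.1.1 ∪ p.1.2), ext0 _ yt.1 K +
        ∑ c, yt.2 c * mc f (A c) p.1.1 p.1.2,
      cv (zz G f A X (ext0 _ yt.1) yt.2) i₀ j₀ S₀)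
  map_add' := by
    rintro ⟨y, t⟩ ⟨y', t'⟩
    refine Prod.ext ?_ ?_
    · funext p
      simp only [Prod.mk_add_mk, Pi.add_apply, ext0_add, add_mul, Finset.sum_add_distrib]
      ring
    · simp only [Prod.mk_add_mk, cv, zz_add]
      ring
  map_smul' := by
    rintro a ⟨y, t⟩
    refine Prod.ext ?_ ?_
    · funext p
      simp only [Prod.smul_mk, Pi.smul_apply, smul_eq_mul, ext0_smul, mul_assoc,
        ← Finset.mul_sum, RingHom.id_apply]
      ring
    · simp only [Prod.smul_mk, cv, zz_smul, smul_eq_mul, RingHom.id_apply]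
      ring

private theorem cv_symm (f : Finset V → ℝ) (i j : V) (S : Finset V) :
    cv f i j S = cv f j i S := by
  unfold cv
  rw [Finset.insert_comm i j S]
  ring

/-- the minimum is attained at `S ∩ A c` when the curvature vanishes -/
private theorem mc_eq {G : SimpleGraph V} {f : Finset V → ℝ} (hf : InC G f) {ι : Type} [Fintype ι]
    {A : ι → Finset V} {X : Finset V} (h : Sep G f A X) {i j : V} (hiX : i ∈ X) (hjX : j ∈ X)
    (hij : i ≠ j) {S : Finset V} (hi : i ∉ S) (hj : j ∉ S) (hz : cv f i j S = 0) (c : ι) :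
    mc f (A c) {i, j} ((S ∩ X).filter (fun v => G.Adj v i ∧ G.Adj v j)) =
      cv f i j (S ∩ (X ∪ A c)) - cv f i j (S ∩ X) := by
  have hiA : ∀ c, i ∉ A c := fun c hc => (Finset.disjoint_left.1 (h.dX c) hiX) hc
  have hjA : ∀ c, j ∉ A c := fun c hc => (Finset.disjoint_left.1 (h.dX c) hjX) hc
  set S' := (S ∩ X).filter (fun v => G.Adj v i ∧ G.Adj v j) with hS'
  have hS'sub : S' ⊆ S ∩ X := Finset.filter_subset _ _
  -- localisation
  have hloc : ∀ S₁ ⊆ A c, cv f i j ((S ∩ X) ∪ S₁) = cv f i j (S' ∪ S₁) := by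
    intro S₁ hS₁
    refine cv_local hf hij ?_ ?_ (Finset.union_subset_union_left hS'sub) ?_
    · intro hm
      rcases Finset.mem_union.1 hm with hm | hm
      · exact hi (Finset.mem_inter.1 hm).1
      · exact hiA c (hS₁ hm)
    · intro hm
      rcases Finset.mem_union.1 hm with hm | hm
      · exact hj (Finset.mem_inter.1 hm).1
      · exact hjA c (hS₁ hm)
    · intro v hv
      rw [Finset.mem_sdiff, Finset.mem_union, Finset.mem_union, not_or] at hv
      obtain ⟨h1, h2, h3⟩ := hv
      have h4 : v ∈ S ∩ X := h1.resolve_right h3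
      by_contra hcon
      push Not at hcon
      apply h2
      rw [hS', Finset.mem_filter]
      exact ⟨h4, hcon.1.symm, hcon.2.1.symm⟩
  have hloc0 : cv f i j (S ∩ X) = cv f i j S' := by
    have := hloc ∅ (Finset.empty_subset _)
    simpa using this
  -- minimality
  have hmin : ∀ S₁ ⊆ A c, cv f i j (S ∩ (X ∪ A c)) ≤ cv f i j ((S ∩ X) ∪ S₁) := by
    intro S₁ hS₁
    set T := (S \ A c) ∪ S₁ with hT
    have hiT : i ∉ T := by
      intro hm
      rcases Finset.mem_union.1 hm with hm | hm
      · exact hi (Finset.mem_sdiff.1 hm).1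
      · exact hiA c (hS₁ hm)
    have hjT : j ∉ T := by
      intro hm
      rcases Finset.mem_union.1 hm with hm | hm
      · exact hj (Finset.mem_sdiff.1 hm).1
      · exact hjA c (hS₁ hm)
    have e1 := cv_split hf h hiX hjX hij hi hj
    have e2 := cv_split hf h hiX hjX hij hiT hjT
    have hTX : T ∩ X = S ∩ X := by
      ext v
      simp only [hT, Finset.mem_inter, Finset.mem_union, Finset.mem_sdiff]
      constructor
      · rintro ⟨h1 | h1, h2⟩
        · exact ⟨h1.1, h2⟩
        · exact absurd (hS₁ h1) (Finset.disjoint_left.1 (h.dX c) h2)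
      · rintro ⟨h1, h2⟩
        exact ⟨Or.inl ⟨h1, Finset.disjoint_left.1 (h.dX c) h2⟩, h2⟩
    have hTc : T ∩ (X ∪ A c) = (S ∩ X) ∪ S₁ := by
      ext v
      simp only [hT, Finset.mem_inter, Finset.mem_union, Finset.mem_sdiff]
      constructor
      · rintro ⟨h1 | h1, h2⟩
        · exact Or.inl ⟨h1.1, h2.resolve_right h1.2⟩
        · exact Or.inr h1
      · rintro (⟨h1, h2⟩ | h1)
        · exact ⟨Or.inl ⟨h1, Finset.disjoint_left.1 (h.dX c) h2⟩, Or.inl h2⟩
        · exact ⟨Or.inr h1, Or.inr (hS₁ h1)⟩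
    have hTo : ∀ c', c' ≠ c → T ∩ (X ∪ A c') = S ∩ (X ∪ A c') := by
      intro c' hc'
      ext v
      simp only [hT, Finset.mem_inter, Finset.mem_union, Finset.mem_sdiff]
      constructor
      · rintro ⟨h1 | h1, h2⟩
        · exact ⟨h1.1, h2⟩
        · rcases h2 with h2 | h2
          · exact absurd (hS₁ h1) (Finset.disjoint_left.1 (h.dX c) h2)
          · exact absurd (hS₁ h1) (Finset.disjoint_left.1 (h.dA c' c hc') h2)
      · rintro ⟨h1, h2⟩
        refine ⟨Or.inl ⟨h1, ?_⟩, h2⟩
        rcases h2 with h2 | h2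
        · exact Finset.disjoint_left.1 (h.dX c) h2
        · exact Finset.disjoint_left.1 (h.dA c' c hc') h2
    have e3 : ∑ c', (cv f i j (T ∩ (X ∪ A c')) - cv f i j (T ∩ X)) =
        ∑ c', (cv f i j (S ∩ (X ∪ A c')) - cv f i j (S ∩ X)) +
          (cv f i j ((S ∩ X) ∪ S₁) - cv f i j (S ∩ (X ∪ A c))) := by
      rw [← Finset.add_sum_erase _ _ (Finset.mem_univ c),
        ← Finset.add_sum_erase _ (fun c' => cv f i j (S ∩ (X ∪ A c')) - cv f i j (S ∩ X))
          (Finset.mem_univ c)]
      have e4 : ∑ c' ∈ Finset.univ.erase c, (cv f i j (T ∩ (X ∪ A c')) - cv f i j (T ∩ X)) =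
          ∑ c' ∈ Finset.univ.erase c, (cv f i j (S ∩ (X ∪ A c')) - cv f i j (S ∩ X)) := by
        refine Finset.sum_congr rfl (fun c' hc' => ?_)
        rw [hTo c' (Finset.ne_of_mem_erase hc'), hTX]
      rw [e4, hTc, hTX]
      ring
    have hnn := hf.nonneg i j T hij hiT hjT
    rw [e2, e3, hTX] at hnn
    rw [hz] at e1
    linarith
  have hSc : S ∩ (X ∪ A c) = (S ∩ X) ∪ (S ∩ A c) := by
    ext v
    simp only [Finset.mem_inter, Finset.mem_union]
    tauto
  unfold mc
  rw [ce_pair f hij, ← hloc0]
  congr 1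
  apply le_antisymm
  · refine (Finset.inf'_le _ (Finset.mem_powerset.2 (Finset.inter_subset_right :
      S ∩ A c ⊆ A c))).trans (le_of_eq ?_)
    rw [ce_pair f hij, ← hloc _ Finset.inter_subset_right, hSc]
  · refine Finset.le_inf' _ _ (fun S₁ hS₁ => ?_)
    rw [ce_pair f hij, ← hloc _ (Finset.mem_powerset.1 hS₁)]
    exact hmin S₁ (Finset.mem_powerset.1 hS₁)

private theorem mem_supV {f : Finset V → ℝ} {i : V} :
    i ∈ supV f ↔ ∃ j S, i ≠ j ∧ i ∉ S ∧ j ∉ S ∧ 0 < cv f i j S := by
  unfold supV
  simp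

/-- Suppose `card ι + numCl G X ≥ numFl G X + 2`. Unknowns `y` on `Cl G X` and `t` on `ι`. For an
edge `e = {i, j}` of `X` and `S₀ ⊆` common neighbours in `X` (there are `numFl G X` such pairs) the
condition `∑_{e ⊆ K ⊆ e ∪ S₀} y K + ∑_c t c * m_c (e, S₀) = 0`, where `m_c (e, S₀)` is the minimum
over `S₁ ⊆ A c` of `cv f i j (S₀ ∪ S₁) - cv f i j S₀`; and one more condition `t c₀ = 0` (if `ι` is
nonempty). There is a nonzero solution. If `cv f i j S = 0` (`i, j ∈ X`), then with
`S₀ = S ∩ X`, by `cv_split` each `S ∩ A c` is a minimiser for `S₀` (otherwise `cv f` would be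
negative for the set with `S ∩ A c` replaced), `cv_local` passes from `S₀` to its intersection with
the common neighbours, and `cv (zz) i j S = 0`. By `Ext.perturb`, `cv (zz) = lam * cv f`; every
`A c` contains a vertex of `supV f`, so `lam = t c` for all `c` by `cv_zz_A`, `cv_split'`; so
`t = 0`, `lam = 0` (or `ι` empty), hence by `cv_zz_X` and `y_zero` `y = 0`. -/
theorem upper_abs {G : SimpleGraph V} {f : Finset V → ℝ} (hf : Ext G f) {ι : Type} [Fintype ι]
    {A : ι → Finset V} {X : Finset V} (h : Sep G f A X)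
    (hA : ∀ c, ∃ i ∈ A c, i ∈ supV f) :
    Fintype.card ι + numCl G X ≤ numFl G X + 1 := by
  by_contra hcon
  push Not at hcon
  obtain ⟨hC, ⟨i₀, j₀, S₀, hij₀, hi₀, hj₀, hpos₀⟩, -⟩ := id hf
  have hker : LinearMap.ker (LL G f A X i₀ j₀ S₀) ≠ ⊥ := by
    apply LinearMap.ker_ne_bot_of_finrank_lt
    rw [Module.finrank_prod, Module.finrank_prod, Module.finrank_fintype_fun_eq_card,
      Module.finrank_fintype_fun_eq_card, Module.finrank_fintype_fun_eq_card,
      Module.finrank_self, Fintype.card_coe, Fintype.card_coe, card_FL, card_Cl]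
    omega
  obtain ⟨⟨y, t⟩, hmem, hne⟩ := (Submodule.ne_bot_iff _).1 hker
  rw [LinearMap.mem_ker] at hmem
  have h1 : ∀ p : {p // p ∈ FL G X},
      ∑ K ∈ (Cl G X).filter (fun K => p.1.1 ⊆ K ∧ K ⊆ p.1.1 ∪ p.1.2), ext0 _ y K +
        ∑ c, t c * mc f (A c) p.1.1 p.1.2 = 0 := by
    intro p
    exact congrFun (congrArg Prod.fst hmem) p
  have h2 : cv (zz G f A X (ext0 _ y) t) i₀ j₀ S₀ = 0 := congrArg Prod.snd hmem
  have hz0 : zz G f A X (ext0 _ y) t ∅ = 0 := by
    unfold zz
    have e1 : (Cl G X).filter (fun K => K ⊆ ∅) = ∅ := by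
      rw [Finset.filter_eq_empty_iff]
      intro K hK hK0
      rw [Cl, Finset.mem_filter] at hK
      rw [Finset.subset_empty] at hK0
      rw [hK0] at hK
      simp at hK
    rw [e1]
    simp
  have hzX : ∀ i j S, i ∈ X → j ∈ X → i ≠ j → i ∉ S → j ∉ S → cv f i j S = 0 →
      cv (zz G f A X (ext0 _ y) t) i j S = 0 := by
    intro i j S hiX hjX hij hi hj hcv
    rw [cv_zz_X h _ _ hiX hjX hij hi hj]
    by_cases hadj : G.Adj i j
    · set S' := (S ∩ X).filter (fun v => G.Adj v i ∧ G.Adj v j) with hS'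
      have hp : (⟨{i, j}, S'⟩ : Σ _ : Finset V, Finset V) ∈ FL G X := by
        unfold FL
        rw [Finset.mem_sigma, Finset.mem_filter, Finset.mem_powerset, Finset.mem_powerset]
        refine ⟨⟨?_, ?_⟩, ?_⟩
        · intro v hv
          simp only [Finset.mem_insert, Finset.mem_singleton] at hv
          rcases hv with rfl | rfl
          · exact hiX
          · exact hjX
        · refine ⟨?_, Finset.card_pair hij⟩
          rw [SimpleGraph.isClique_iff]
          intro a ha b hb hab
          simp only [Finset.coe_insert, Finset.coe_singleton, Set.mem_insert_iff,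
            Set.mem_singleton_iff] at ha hb
          rcases ha with rfl | rfl <;> rcases hb with rfl | rfl
          · exact absurd rfl hab
          · exact hadj
          · exact hadj.symm
          · exact absurd rfl hab
        · intro v hv
          rw [hS', Finset.mem_filter, Finset.mem_inter] at hv
          rw [Finset.mem_filter]
          refine ⟨hv.1.2, ?_⟩
          intro w hw
          simp only [Finset.mem_insert, Finset.mem_singleton] at hw
          rcases hw with rfl | rfl
          · exact hv.2.1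
          · exact hv.2.2
      have h3 := h1 ⟨_, hp⟩
      simp only at h3
      rw [← h3]
      congr 1
      · refine Finset.sum_congr ?_ (fun _ _ => rfl)
        ext K
        simp only [Finset.mem_filter]
        refine and_congr_right (fun hK => ?_)
        rw [Cl, Finset.mem_filter, Finset.mem_powerset] at hK
        constructor
        · rintro ⟨a1, a2, a3⟩
          refine ⟨?_, ?_⟩
          · intro v hv
            simp only [Finset.mem_insert, Finset.mem_singleton] at hv
            rcases hv with rfl | rfl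
            · exact a1
            · exact a2
          · intro v hv
            simp only [Finset.mem_union, Finset.mem_insert, Finset.mem_singleton]
            by_cases hvi : v = i
            · exact Or.inl (Or.inl hvi)
            · by_cases hvj : v = j
              · exact Or.inl (Or.inr hvj)
              · right
                have hvS : v ∈ S := by
                  have := a3 hv
                  simp only [Finset.mem_insert] at this
                  rcases this with h5 | h5 | h5
                  · exact absurd h5 hvi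
                  · exact absurd h5 hvj
                  · exact h5
                rw [hS', Finset.mem_filter, Finset.mem_inter]
                exact ⟨⟨hvS, hK.1 hv⟩, hK.2.2 hv a1 hvi, hK.2.2 hv a2 hvj⟩
        · rintro ⟨a1, a2⟩
          refine ⟨a1 (by simp), a1 (by simp), ?_⟩
          intro v hv
          have := a2 hv
          simp only [Finset.mem_union, Finset.mem_insert, Finset.mem_singleton, hS',
            Finset.mem_filter, Finset.mem_inter] at this
          simp only [Finset.mem_insert]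
          tauto
      · refine Finset.sum_congr rfl (fun c _ => ?_)
        rw [mc_eq hC h hiX hjX hij hi hj hcv c]
    · have e1 : (Cl G X).filter (fun K => i ∈ K ∧ j ∈ K ∧ K ⊆ insert i (insert j S)) = ∅ := by
        rw [Finset.filter_eq_empty_iff]
        rintro K hK ⟨a1, a2, -⟩
        rw [Cl, Finset.mem_filter] at hK
        exact hadj (hK.2.2 a1 a2 hij)
      rw [e1, Finset.sum_empty, zero_add]
      refine Finset.sum_eq_zero (fun c _ => ?_)
      rw [hC.nonadj i j _ hij (fun hm => hi (Finset.mem_inter.1 hm).1)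
        (fun hm => hj (Finset.mem_inter.1 hm).1) hadj,
        hC.nonadj i j _ hij (fun hm => hi (Finset.mem_inter.1 hm).1)
        (fun hm => hj (Finset.mem_inter.1 hm).1) hadj]
      simp
  have hzA : ∀ i j S c, i ∈ A c → j ∈ X ∪ A c → i ≠ j → i ∉ S → j ∉ S →
      cv (zz G f A X (ext0 _ y) t) i j S = t c * cv f i j S := by
    intro i j S c hiA hjA hij hi hj
    rw [cv_zz_A h _ _ hiA hjA hij hi hj, ← cv_split' hC h hiA hij hi hj]
  have hz : ∀ i j S, i ≠ j → i ∉ S → j ∉ S → cv f i j S = 0 →
      cv (zz G f A X (ext0 _ y) t) i j S = 0 := by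
    intro i j S hij hi hj hcv
    by_cases c1 : i ∈ X ∧ j ∈ X
    · exact hzX i j S c1.1 c1.2 hij hi hj hcv
    · by_cases c2 : ∃ c, i ∈ A c ∧ j ∈ X ∪ A c
      · obtain ⟨c, a1, a2⟩ := c2
        rw [hzA i j S c a1 a2 hij hi hj, hcv, mul_zero]
      · by_cases c3 : ∃ c, j ∈ A c ∧ i ∈ X ∪ A c
        · obtain ⟨c, a1, a2⟩ := c3
          rw [cv_symm, hzA j i S c a1 a2 hij.symm hj hi, cv_symm, hcv, mul_zero]
        · refine cv_zz_ne h _ _ hij hi hj c1 ?_
          rintro c ⟨b1, b2⟩
          rcases Finset.mem_union.1 b1 with b3 | b3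
          · rcases Finset.mem_union.1 b2 with b4 | b4
            · exact c1 ⟨b3, b4⟩
            · exact c3 ⟨c, b4, b1⟩
          · exact c2 ⟨c, b3, b2⟩
  obtain ⟨lam, hlam⟩ := hf.perturb _ hz0 hz
  have hlam0 : lam = 0 := by
    have h3 := hlam i₀ j₀ S₀ hij₀ hi₀ hj₀
    rw [h2] at h3
    rcases mul_eq_zero.1 h3.symm with h4 | h4
    · exact h4
    · exact absurd h4 hpos₀.ne'
  subst hlam0
  have ht : ∀ c, t c = 0 := by
    intro c
    obtain ⟨i, hiA, his⟩ := hA c
    obtain ⟨j, S, hij, hi, hj, hpos⟩ := mem_supV.1 his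
    have hjs : j ∈ supV f := mem_supV.2 ⟨i, S, hij.symm, hj, hi, by rwa [cv_symm]⟩
    have hjA : j ∈ X ∪ A c := by
      rcases Finset.mem_union.1 (h.sup hjs) with h3 | h3
      · exact Finset.mem_union_left _ h3
      · obtain ⟨c', -, hc'⟩ := Finset.mem_biUnion.1 h3
        by_cases hcc : c = c'
        · subst hcc
          exact Finset.mem_union_right _ hc'
        · exact absurd (hC.nonadj i j S hij hi hj (h.noe c c' hcc i hiA j hc')) hpos.ne'
    have h3 := hlam i j S hij hi hj
    rw [hzA i j S c hiA hjA hij hi hj, zero_mul] at h3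
    rcases mul_eq_zero.1 h3 with h4 | h4
    · exact h4
    · exact absurd h4 hpos.ne'
  have hy : ∀ K ∈ Cl G X, ext0 (Cl G X) y K = 0 := by
    apply y_zero
    intro i hiX j hjX hij hadj S hSX hi hj hS
    have h3 := hlam i j S hij hi hj
    rw [cv_zz_X h _ _ hiX hjX hij hi hj, zero_mul] at h3
    simpa [ht] using h3
  apply hne
  refine Prod.ext ?_ ?_
  · funext K
    have h3 := hy K.1 K.2
    unfold ext0 at h3
    rw [dif_pos K.2] at h3
    exact h3
  · funext c
    exact ht c

end MZ
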