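import Pool.Agent.MZ.Grid

/-!
# MZ-9a: perturbation of an extreme function
-/

open scoped Classical
open Finset

namespace MZ

variable {V : Type} [Fintype V]

private theorem upP_cv_add (f z : Finset V → ℝ) (e : ℝ) (i j : V) (S : Finset V) :
    cv (fun S => (1 / 2) * (f S + e * z S)) i j S = (1 / 2) * (cv f i j S + e * cv z i j S) := by
  simp only [cv]
  ring

private theorem upP_eps (f z : Finset V → ℝ)
    (hf : ∀ i j S, i ≠ j → i ∉ S → j ∉ S → 0 ≤ cv f i j S)
    (hz : ∀ i j S, i ≠ j → i ∉ S → j ∉ S → cv f i j S = 0 → cv z i j S = 0) :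
    ∃ e : ℝ, 0 < e ∧ ∀ i j S, i ≠ j → i ∉ S → j ∉ S → e * |cv z i j S| ≤ cv f i j S := by
  have key : ∀ t : V × V × Finset V, ∃ e : ℝ, 0 < e ∧
      (t.1 ≠ t.2.1 → t.1 ∉ t.2.2 → t.2.1 ∉ t.2.2 →
        e * |cv z t.1 t.2.1 t.2.2| ≤ cv f t.1 t.2.1 t.2.2) := by
    rintro ⟨i, j, S⟩
    by_cases h : i ≠ j ∧ i ∉ S ∧ j ∉ S
    · obtain ⟨h1, h2, h3⟩ := h
      rcases (hf i j S h1 h2 h3).eq_or_lt with h0 | h0
      · refine ⟨1, one_pos, fun _ _ _ => ?_⟩
        simp only
        rw [hz i j S h1 h2 h3 h0.symm]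
        simpa using h0.le
      · have hp : 0 < |cv z i j S| + 1 := by positivity
        refine ⟨cv f i j S / (|cv z i j S| + 1), div_pos h0 hp, fun _ _ _ => ?_⟩
        simp only
        rw [div_mul_eq_mul_div, div_le_iff₀ hp]
        have := abs_nonneg (cv z i j S)
        nlinarith
    · exact ⟨1, one_pos, fun h1 h2 h3 => absurd ⟨h1, h2, h3⟩ h⟩
  choose e he1 he2 using key
  rcases isEmpty_or_nonempty V with hV | hV
  · exact ⟨1, one_pos, fun i => isEmptyElim i⟩
  · obtain ⟨t, -, ht⟩ := Finset.exists_min_image (Finset.univ : Finset (V × V × Finset V)) e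
      Finset.univ_nonempty
    refine ⟨e t, he1 t, fun i j S h1 h2 h3 => ?_⟩
    have h4 := he2 ⟨i, j, S⟩ h1 h2 h3
    have h5 := ht ⟨i, j, S⟩ (Finset.mem_univ _)
    exact (mul_le_mul_of_nonneg_right h5 (abs_nonneg _)).trans h4

/-- For small `ε > 0` both `(1/2) (f + ε z)` and `(1/2) (f - ε z)` are in the cone (finitely many
second differences; `cv` is linear in the function), so extremality applies. -/
theorem Ext.perturb {G : SimpleGraph V} {f : Finset V → ℝ} (hf : Ext G f) (z : Finset V → ℝ)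
    (hz0 : z ∅ = 0)
    (hz : ∀ i j S, i ≠ j → i ∉ S → j ∉ S → cv f i j S = 0 → cv z i j S = 0) :
    ∃ lam : ℝ, ∀ i j S, i ≠ j → i ∉ S → j ∉ S → cv z i j S = lam * cv f i j S := by
  obtain ⟨hC, -, hE⟩ := hf
  obtain ⟨e, he, hle⟩ := upP_eps f z hC.nonneg hz
  have mk : ∀ e' : ℝ, |e'| = e → InC G (fun S => (1 / 2) * (f S + e' * z S)) := by
    intro e' he'
    refine ⟨?_, ?_, ?_⟩
    · simp only [hC.empty, hz0]
      ring
    · intro i j S h1 h2 h3
      rw [upP_cv_add]
      have h4 := hle i j S h1 h2 h3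
      have h5 : |e' * cv z i j S| ≤ cv f i j S := by
        rw [abs_mul, he']
        exact h4
      have h6 := (abs_le.mp h5).1
      linarith
    · intro i j S h1 h2 h3 h4
      rw [upP_cv_add]
      have h5 := hC.nonadj i j S h1 h2 h3 h4
      rw [h5, hz i j S h1 h2 h3 h5]
      ring
  obtain ⟨c, hc⟩ := hE _ _ (mk e (abs_of_pos he)) (mk (-e) (by rw [abs_neg]; exact abs_of_pos he))
    (fun S => by ring)
  refine ⟨(2 * c - 1) / e, fun i j S h1 h2 h3 => ?_⟩
  have h4 := hc i j S h1 h2 h3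
  rw [upP_cv_add] at h4
  have h5 : e * cv z i j S = (2 * c - 1) * cv f i j S := by linarith
  rw [div_mul_eq_mul_div, eq_div_iff he.ne']
  linarith

end MZ
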