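import Pool.Agent.MZ.UpC

/-!
# MZ-9: the counting bound for extreme functions
-/

open scoped Classical
open Finset

namespace MZ

variable {V : Type} [Fintype V]

/-- `upper_abs` for the connected components of `W \ X`, `W = supV f`. -/
theorem upper {G : SimpleGraph V} {f : Finset V → ℝ} (hf : Ext G f) (X : Finset V)
    (hX : X ⊆ supV f) : comps G (supV f \ X) + numCl G X ≤ numFl G X + 1 := by
  set U : Finset V := supV f \ X with hU
  set H := G.induce (U : Set V) with hH
  have memU : ∀ v : V, v ∈ U ↔ v ∈ supV f ∧ v ∉ X := fun v => by rw [hU]; exact Finset.mem_sdiff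
  let A : H.ConnectedComponent → Finset V := fun c =>
    Finset.univ.filter (fun v => ∃ h : v ∈ (U : Set V), H.connectedComponentMk ⟨v, h⟩ = c)
  have memA : ∀ (c : H.ConnectedComponent) (v : V),
      v ∈ A c ↔ ∃ h : v ∈ (U : Set V), H.connectedComponentMk ⟨v, h⟩ = c := fun c v => by
    simp only [A, Finset.mem_filter, Finset.mem_univ, true_and]
  have hsep : Sep G f A X := by
    refine ⟨?_, ?_, ?_, ?_⟩
    · intro v hv
      by_cases hvX : v ∈ X
      · exact Finset.mem_union_left _ hvX
      · have hvU : v ∈ (U : Set V) := Finset.mem_coe.2 ((memU v).2 ⟨hv, hvX⟩)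
        exact Finset.mem_union_right _ (Finset.mem_biUnion.2
          ⟨H.connectedComponentMk ⟨v, hvU⟩, Finset.mem_univ _, (memA _ v).2 ⟨hvU, rfl⟩⟩)
    · intro c
      rw [Finset.disjoint_left]
      intro v hvX hvA
      obtain ⟨h, -⟩ := (memA c v).1 hvA
      exact ((memU v).1 (Finset.mem_coe.1 h)).2 hvX
    · intro c c' hcc'
      rw [Finset.disjoint_left]
      intro v hv hv'
      obtain ⟨h, rfl⟩ := (memA c v).1 hv
      obtain ⟨h', e⟩ := (memA c' v).1 hv'
      exact hcc' e
    · intro c c' hcc' a ha b hb hab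
      obtain ⟨h, rfl⟩ := (memA c a).1 ha
      obtain ⟨h', rfl⟩ := (memA c' b).1 hb
      apply hcc'
      rw [SimpleGraph.ConnectedComponent.eq]
      exact SimpleGraph.Adj.reachable (show H.Adj ⟨a, h⟩ ⟨b, h'⟩ from hab)
  have hA : ∀ c, ∃ i ∈ A c, i ∈ supV f := by
    intro c
    induction c using SimpleGraph.ConnectedComponent.ind with
    | _ v =>
      obtain ⟨v, hv⟩ := v
      exact ⟨v, (memA _ v).2 ⟨hv, rfl⟩, ((memU v).1 (Finset.mem_coe.1 hv)).1⟩
  have key := upper_abs hf hsep hA
  have hc : comps G U = Fintype.card H.ConnectedComponent := by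
    unfold comps
    exact Nat.card_eq_fintype_card
  rw [hc]
  exact key

end MZ
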